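import Pool.Agent.HRC.Theta

/-!
# The theta series of a primitive ray class character
-/

open scoped NumberField nonZeroDivisors
open NumberField NumberField.InfinitePlace NumberField.mixedEmbedding NumberField.Units
  NumberField.Units.dirichletUnitTheorem Pool.ZD Pool.Agent.CMZ Pool.Agent.CMZ.DualAux
  Pool.Agent.CMZ.UnfAux MeasureTheory

namespace Pool.HRC

set_option maxHeartbeats 400000

variable {K : Type} [Field K] [NumberField K] {m : II K} {χ : II K → ℂ} {S : Finset (RP K)}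
  {f : 𝓞 K → ℂ}

/-- Representatives exist. -/
theorem exists_sec (m : II K) {J : II K} (hJ : IsCoprime (J : Ideal (𝓞 K)) (m : Ideal (𝓞 K))) :
    ∃ sec : 𝓞 K ⧸ (m : Ideal (𝓞 K)) → 𝓞 K, IsSec K m J sec := by
  have h1 : ∀ ρ : 𝓞 K ⧸ (m : Ideal (𝓞 K)), ∃ x ∈ (J : Ideal (𝓞 K)),
      Ideal.Quotient.mk (m : Ideal (𝓞 K)) x = ρ := by
    intro ρ
    obtain ⟨y, rfl⟩ := Ideal.Quotient.mk_surjective ρ
    obtain ⟨a, ha, b, hb, hab⟩ := Ideal.isCoprime_iff_exists.1 hJ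
    refine ⟨a * y, Ideal.mul_mem_right _ _ ha, ?_⟩
    rw [Ideal.Quotient.eq]
    have : a * y - y = -(b * y) := by linear_combination y * hab
    rw [this]
    exact neg_mem (Ideal.mul_mem_right _ _ hb)
  choose sec h2 h3 using h1
  exact ⟨sec, fun ρ => ⟨h2 ρ, h3 ρ⟩⟩

theorem mem_mul_of_coprime {J : II K} (hJ : IsCoprime (J : Ideal (𝓞 K)) (m : Ideal (𝓞 K)))
    {x : 𝓞 K} (hx : x ∈ (J : Ideal (𝓞 K))) (hx' : x ∈ (m : Ideal (𝓞 K))) :
    x ∈ ((m * J : II K) : Ideal (𝓞 K)) := by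
  have h1 : ((m * J : II K) : Ideal (𝓞 K)) = (m : Ideal (𝓞 K)) ⊓ (J : Ideal (𝓞 K)) := by
    rw [Submonoid.coe_mul, Ideal.mul_eq_inf_of_coprime]
    exact (Ideal.isCoprime_iff_sup_eq.1 hJ.symm)
  rw [h1]
  exact ⟨hx', hx⟩

theorem mem_mJ_left {J : II K} {x : 𝓞 K} (hx : x ∈ ((m * J : II K) : Ideal (𝓞 K))) :
    x ∈ (m : Ideal (𝓞 K)) := by
  have h : x ∈ (m : Ideal (𝓞 K)) * (J : Ideal (𝓞 K)) := hx
  exact @Ideal.mul_le_left _ _ (m : Ideal (𝓞 K)) (J : Ideal (𝓞 K)) _ x h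

theorem mem_mJ_right {J : II K} {x : 𝓞 K} (hx : x ∈ ((m * J : II K) : Ideal (𝓞 K))) :
    x ∈ (J : Ideal (𝓞 K)) := by
  have h : x ∈ (m : Ideal (𝓞 K)) * (J : Ideal (𝓞 K)) := hx
  exact Ideal.mul_le_right (I := (m : Ideal (𝓞 K))) (J := (J : Ideal (𝓞 K))) h

/-- Splitting `J` into the residue classes modulo `m`. -/
noncomputable def splitE {J : II K} (hJ : IsCoprime (J : Ideal (𝓞 K)) (m : Ideal (𝓞 K)))
    {sec : 𝓞 K ⧸ (m : Ideal (𝓞 K)) → 𝓞 K} (hsec : IsSec K m J sec) :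
    (𝓞 K ⧸ (m : Ideal (𝓞 K))) × ((m * J : II K) : Ideal (𝓞 K)) ≃ (J : Ideal (𝓞 K)) :=
  Equiv.ofBijective (fun q => ⟨sec q.1 + q.2,
    Ideal.add_mem _ (hsec q.1).1 (mem_mJ_right q.2.2)⟩) (by
    have hmk : ∀ (ρ : 𝓞 K ⧸ (m : Ideal (𝓞 K))) (x : ((m * J : II K) : Ideal (𝓞 K))),
        Ideal.Quotient.mk (m : Ideal (𝓞 K)) (sec ρ + x) = ρ := by
      intro ρ x
      rw [map_add, (hsec ρ).2, Ideal.Quotient.eq_zero_iff_mem.2, add_zero]
      exact mem_mJ_left x.2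
    constructor
    · rintro ⟨ρ, x⟩ ⟨ρ', x'⟩ h
      have h1 : sec ρ + (x : 𝓞 K) = sec ρ' + x' := congrArg Subtype.val h
      have h2 : ρ = ρ' := by
        rw [← hmk ρ x, h1, hmk]
      subst h2
      have h3 : (x : 𝓞 K) = x' := add_left_cancel h1
      rw [Subtype.ext h3]
    · rintro ⟨x, hx⟩
      have h1 : x - sec (Ideal.Quotient.mk (m : Ideal (𝓞 K)) x) ∈ (m : Ideal (𝓞 K)) := by
        rw [← Ideal.Quotient.eq, (hsec _).2]
      have h2 : x - sec (Ideal.Quotient.mk (m : Ideal (𝓞 K)) x) ∈ (J : Ideal (𝓞 K)) :=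
        Ideal.sub_mem _ hx (hsec _).1
      refine ⟨(Ideal.Quotient.mk (m : Ideal (𝓞 K)) x, ⟨_, mem_mul_of_coprime hJ h2 h1⟩),
        Subtype.ext ?_⟩
      change sec _ + (x - sec _) = x
      ring)

theorem splitE_apply {J : II K} (hJ : IsCoprime (J : Ideal (𝓞 K)) (m : Ideal (𝓞 K)))
    {sec : 𝓞 K ⧸ (m : Ideal (𝓞 K)) → 𝓞 K} (hsec : IsSec K m J sec)
    (q : (𝓞 K ⧸ (m : Ideal (𝓞 K))) × ((m * J : II K) : Ideal (𝓞 K))) :
    ((splitE hJ hsec q : (J : Ideal (𝓞 K))) : 𝓞 K) = sec q.1 + q.2 := rfl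

theorem HC.f_norm_le (h : HC K m χ S f) (x : 𝓞 K) : ‖f x‖ ≤ 1 := by
  by_cases hx : f x = 0
  · rw [hx, norm_zero]; exact zero_le_one
  · exact (h.fnorm x hx).le

theorem HC.chi_norm_le (h : HC K m χ S f) (I : II K) : ‖χ I‖ ≤ 1 := by
  by_cases hx : χ I = 0
  · rw [hx, norm_zero]; exact zero_le_one
  · exact (h.norm I hx).le

/-- The theta transformation with a character, in terms of Gauss sums. -/
theorem theta_gau (h : HC K m χ S f) [Fintype (𝓞 K ⧸ (m : Ideal (𝓞 K)))] {J J' : II K} {n₀ : ℕ}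
    (hJ : IsCoprime (J : Ideal (𝓞 K)) (m : Ideal (𝓞 K))) (hd : IsDual K m J J' n₀)
    {sec : 𝓞 K ⧸ (m : Ideal (𝓞 K)) → 𝓞 K} (hsec : IsSec K m J sec) {c : ℝ} (hc : 0 < c)
    (t : logSpace K) :
    ∑' x : (J : Ideal (𝓞 K)), f x * (th K S c (sg K t * mixedEmbedding K ((x : 𝓞 K) : K)) : ℂ) =
      ((√c ^ nn K * nm K (m * J) * √|(discr K : ℝ)| : ℝ) : ℂ)⁻¹ * (-Complex.I) ^ S.card *
        ∑' z : (J' : Ideal (𝓞 K)), gau K m f sec n₀ z * (th K S (1 / (c * (n₀ : ℝ) ^ 2))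
          (sg K (-t) * mixedEmbedding K ((z : 𝓞 K) : K)) : ℂ) := by
  classical
  set E : 𝓞 K → ℂ := fun x => (th K S c (sg K t * mixedEmbedding K (x : K)) : ℂ) with hE
  have hsumJ : Summable fun x : (J : Ideal (𝓞 K)) => ‖f x * E x‖ := by
    have h1 := th_summable K J S hc t 0
    refine Summable.of_nonneg_of_le (fun x => norm_nonneg _) (fun x => ?_) h1
    rw [norm_mul, hE, zero_add]
    simp only
    rw [Complex.norm_real, Real.norm_eq_abs]
    exact mul_le_of_le_one_left (abs_nonneg _) (h.f_norm_le _)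
  set e := splitE hJ hsec with he
  rw [← e.tsum_eq (fun x : (J : Ideal (𝓞 K)) => f x * E x)]
  have hsum2 : Summable fun q : (𝓞 K ⧸ (m : Ideal (𝓞 K))) × ((m * J : II K) : Ideal (𝓞 K)) =>
      f (e q) * E (e q) :=
    (e.summable_iff (f := fun x : (J : Ideal (𝓞 K)) => f x * E x)).2 hsumJ.of_norm
  rw [hsum2.tsum_prod, tsum_fintype]
  have h2 : ∀ ρ : 𝓞 K ⧸ (m : Ideal (𝓞 K)),
      ∑' x : ((m * J : II K) : Ideal (𝓞 K)), f (e (ρ, x)) * E (e (ρ, x)) =
      ((√c ^ nn K * nm K (m * J) * √|(discr K : ℝ)| : ℝ) : ℂ)⁻¹ * (-Complex.I) ^ S.card *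
        ∑' z : (J' : Ideal (𝓞 K)), (f (sec ρ) * Complex.exp (2 * Real.pi * Complex.I *
            ((Algebra.trace ℤ (𝓞 K) (sec ρ * z) : ℤ) : ℂ) / (n₀ : ℂ))) *
          (th K S (1 / (c * (n₀ : ℝ) ^ 2))
          (sg K (-t) * mixedEmbedding K ((z : 𝓞 K) : K)) : ℂ) := by
    intro ρ
    have h3 : ∀ x : ((m * J : II K) : Ideal (𝓞 K)), f (e (ρ, x)) * E (e (ρ, x)) =
        f (sec ρ) * (th K S c (sg K t *
          mixedEmbedding K ((sec ρ + (x : 𝓞 K) : 𝓞 K) : K)) : ℂ) := by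
      intro x
      rw [he, splitE_apply]
      congr 1
      apply h.fper
      rw [add_sub_cancel_left]
      exact mem_mJ_left x.2
    rw [tsum_congr h3, tsum_mul_left, theta_poly K hd.1 hd.2 S hc t (sec ρ), ← mul_assoc,
      mul_comm (f (sec ρ)), mul_assoc, ← tsum_mul_left]
    congr 1
    refine tsum_congr fun z => ?_
    ring
  rw [Finset.sum_congr rfl fun ρ _ => h2 ρ, ← Finset.mul_sum]
  congr 1
  have hc' : 0 < 1 / (c * (n₀ : ℝ) ^ 2) := by
    have : (0 : ℝ) < n₀ := by exact_mod_cast hd.1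
    positivity
  have hsumJ' := th_summable K J' S hc' (-t) 0
  rw [← Summable.tsum_finsetSum]
  · refine tsum_congr fun z => ?_
    unfold gau
    rw [Finset.sum_mul]
  · intro ρ _
    refine Summable.of_norm_bounded hsumJ' fun z => ?_
    rw [norm_mul, norm_mul, Complex.norm_real, Real.norm_eq_abs, zero_add]
    have h4 : ‖Complex.exp (2 * Real.pi * Complex.I *
            ((Algebra.trace ℤ (𝓞 K) (sec ρ * z) : ℤ) : ℂ) / (n₀ : ℂ))‖ = 1 := by
      have h5 : (2 * Real.pi * Complex.I *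
            ((Algebra.trace ℤ (𝓞 K) (sec ρ * z) : ℤ) : ℂ) / (n₀ : ℂ)) =
          ((2 * Real.pi * ((Algebra.trace ℤ (𝓞 K) (sec ρ * z) : ℤ) : ℝ) / n₀ : ℝ) : ℂ) *
            Complex.I := by
        push_cast
        ring
      rw [h5, Complex.norm_exp_ofReal_mul_I]
    rw [h4, mul_one]
    exact mul_le_of_le_one_left (abs_nonneg _) (h.f_norm_le _)

/-- Splitting off the term `x = 0`. -/
theorem tsum_nz_add (J : II K) (F : 𝓞 K → ℂ) (hF : Summable fun x : (J : Ideal (𝓞 K)) => F x) :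
    ∑' x : (J : Ideal (𝓞 K)), F x = ∑' x : NZ K J, F x + F 0 := by
  classical
  rw [hF.tsum_eq_add_tsum_ite (⟨0, zero_mem _⟩ : (J : Ideal (𝓞 K))), add_comm]
  congr 1
  let e : NZ K J → (J : Ideal (𝓞 K)) := fun x => ⟨x.1, x.2.1⟩
  have he : Function.Injective e := fun x y hxy =>
    Subtype.ext (congrArg (fun y : (J : Ideal (𝓞 K)) => (y : 𝓞 K)) hxy)
  have h1 : ∀ x : NZ K J, F x = (fun y : (J : Ideal (𝓞 K)) =>
      if y = ⟨0, zero_mem _⟩ then 0 else F y) (e x) := by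
    intro x
    simp only [e]
    rw [if_neg]
    intro h
    exact x.2.2 (congrArg Subtype.val h)
  rw [tsum_congr h1]
  refine (he.tsum_eq ?_).symm
  intro y hy
  simp only [Function.mem_support, ne_eq, ite_eq_left_iff, not_forall] at hy
  obtain ⟨h2, h3⟩ := hy
  exact ⟨⟨y.1, y.2, fun h => h2 (Subtype.ext h)⟩, rfl⟩

theorem PS_sg_mul (t : logSpace K) (z : mixedSpace K) :
    PS S (sg K t * z) = (∏ w ∈ S, sc K t w.1) * PS S z := by
  unfold PS
  rw [← Finset.prod_mul_distrib]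
  refine Finset.prod_congr rfl fun w _ => ?_
  unfold sg
  rw [mixedSpaceOfRealSpace_apply]
  rfl

theorem sgn_mul_th {c : ℝ} (t : logSpace K) (x : 𝓞 K) :
    sgn S x * th K S c (sg K t * mixedEmbedding K (x : K)) =
      |th K S c (sg K t * mixedEmbedding K (x : K))| := by
  have h1 : 0 < ∏ w ∈ S, sc K t w.1 := Finset.prod_pos fun w _ => sc_pos K t w.1
  unfold th sgn
  rw [PS_sg_mul, abs_mul, abs_mul, abs_mul, abs_of_pos (Real.exp_pos _), abs_of_pos h1,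
    abs_of_nonneg (pow_nonneg (Real.sqrt_nonneg c) _),
    ← sign_mul_self (PS S (mixedEmbedding K (x : K)))]
  ring

theorem sgn_sq {x : 𝓞 K} (hx : x ≠ 0) : sgn S x * sgn S x = 1 := by
  have h1 : PS S (mixedEmbedding K (x : K)) ≠ 0 := by
    unfold PS
    refine Finset.prod_ne_zero_iff.2 fun w _ => ?_
    have h2 : (mixedEmbedding K (x : K)).1 w = embedding_of_isReal w.2 (x : K) := rfl
    rw [h2]
    exact (map_ne_zero _).2 (by exact_mod_cast hx)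
  unfold sgn
  rcases lt_or_gt_of_ne h1 with h | h
  · rw [sign_neg h]; simp
  · rw [sign_pos h]; simp

theorem HC.f_eq (h : HC K m χ S f) {x : 𝓞 K} (hx : x ≠ 0) :
    f x = χ (Pool.Agent.CMZ.spn K x) * (sgn S x : ℂ) := by
  rw [h.spn x hx, mul_assoc, ← Complex.ofReal_mul, sgn_sq hx, Complex.ofReal_one, mul_one]

open Classical in
/-- The correction for the characters of the class group. -/
noncomputable def e0 (m : II K) (S : Finset (RP K)) : ℂ :=
  if (m : Ideal (𝓞 K)) = 1 ∧ S = ∅ then 1 else 0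

open Classical in
theorem th_zero (c : ℝ) : th K S c 0 = if S = ∅ then 1 else 0 := by
  unfold th
  have h2 : qf K (0 : mixedSpace K) = 0 := by
    unfold qf
    simp
  rw [h2, mul_zero, neg_zero, Real.exp_zero, mul_one]
  split_ifs with h
  · subst h
    simp [PS]
  · have h3 : PS S (0 : mixedSpace K) = 0 := by
      unfold PS
      obtain ⟨w, hw⟩ := Finset.nonempty_iff_ne_empty.2 h
      exact Finset.prod_eq_zero hw rfl
    rw [h3, mul_zero]

theorem HC.f_zero_th (h : HC K m χ S f) (c : ℝ) : f 0 * (th K S c 0 : ℂ) = e0 m S := by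
  classical
  rw [th_zero]
  unfold e0
  by_cases hS : S = ∅
  · by_cases hm : (m : Ideal (𝓞 K)) = 1
    · rw [if_pos hS, if_pos ⟨hm, hS⟩]
      have h1 : f 0 = 1 := by
        rw [← h.fone]
        apply h.fper
        rw [hm, Ideal.one_eq_top]
        exact Submodule.mem_top
      rw [h1]; simp
    · rw [if_pos hS, if_neg (fun h' : (m : Ideal (𝓞 K)) = 1 ∧ S = ∅ => hm h'.1)]
      have h1 : f 0 = 0 := by
        by_contra hne
        have h2 := (h.fne_iff 0).1 hne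
        apply hm
        have h3 : Ideal.span {(0 : 𝓞 K)} = ⊥ := by simp
        rw [h3, Ideal.isCoprime_iff_sup_eq, bot_sup_eq] at h2
        rw [h2, Ideal.one_eq_top]
      rw [h1, zero_mul]
  · rw [if_neg hS, if_neg (fun h' => hS h'.2)]
    simp

theorem gau_zero_th (h : HC K m χ S f) [Fintype (𝓞 K ⧸ (m : Ideal (𝓞 K)))] {J : II K}
    {sec : 𝓞 K ⧸ (m : Ideal (𝓞 K)) → 𝓞 K} (hsec : IsSec K m J sec)
    (hz : (m : Ideal (𝓞 K)) ≠ 1 → ∀ n₀ : ℕ, gau K m f sec n₀ 0 = 0) (n₀ : ℕ) (c : ℝ) :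
    gau K m f sec n₀ 0 * (th K S c 0 : ℂ) = e0 m S := by
  classical
  rw [th_zero]
  unfold e0
  by_cases hS : S = ∅
  · by_cases hm : (m : Ideal (𝓞 K)) = 1
    · rw [if_pos hS, if_pos ⟨hm, hS⟩]
      have h1 : ∀ x, f x = 1 := by
        intro x
        rw [← h.fone]
        apply h.fper
        rw [hm, Ideal.one_eq_top]
        exact Submodule.mem_top
      have hsub : Subsingleton (𝓞 K ⧸ (m : Ideal (𝓞 K))) :=
        Ideal.Quotient.subsingleton_iff.2 (by rw [hm, Ideal.one_eq_top])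
      have h2 : Fintype.card (𝓞 K ⧸ (m : Ideal (𝓞 K))) = 1 :=
        Fintype.card_eq_one_iff_nonempty_unique.2 ⟨⟨⟨0⟩, fun _ => Subsingleton.elim _ _⟩⟩
      unfold gau
      simp [h1, h2]
    · rw [if_neg (fun h' : (m : Ideal (𝓞 K)) = 1 ∧ S = ∅ => hm h'.1), hz hm n₀, zero_mul]
  · rw [if_neg hS, if_neg (fun h' => hS h'.2)]
    simp

/-- The theta transformation. -/
theorem theta_F (h : HC K m χ S f) [Fintype (𝓞 K ⧸ (m : Ideal (𝓞 K)))] {J J' : II K} {n₀ : ℕ}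
    (hJ : IsCoprime (J : Ideal (𝓞 K)) (m : Ideal (𝓞 K))) (hd : IsDual K m J J' n₀)
    {sec : 𝓞 K ⧸ (m : Ideal (𝓞 K)) → 𝓞 K} (hsec : IsSec K m J sec)
    (hz : (m : Ideal (𝓞 K)) ≠ 1 → ∀ n₀ : ℕ, gau K m f sec n₀ 0 = 0) {ω : ℂ}
    (I' : NZ K J' → II K)
    (hω : ∀ z : NZ K J', gau K m f sec n₀ z =
      ω * χ J * (sgn S (z : 𝓞 K) : ℂ) * (starRingEnd ℂ) (χ (I' z)))
    {c : ℝ} (hc : 0 < c) (t : logSpace K) :
    ∑' x : NZ K J, χ (spn K x) *
        ((|th K S c (sg K t * mixedEmbedding K ((x : 𝓞 K) : K))| : ℝ) : ℂ) + e0 m S =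
      ((√c ^ nn K * nm K (m * J) * √|(discr K : ℝ)| : ℝ) : ℂ)⁻¹ * (-Complex.I) ^ S.card *
        (ω * χ J * ∑' z : NZ K J', (starRingEnd ℂ) (χ (I' z)) *
          ((|th K S (1 / (c * (n₀ : ℝ) ^ 2))
            (sg K (-t) * mixedEmbedding K ((z : 𝓞 K) : K))| : ℝ) : ℂ) + e0 m S) := by
  classical
  have hmain := theta_gau h hJ hd hsec hc t
  have hc' : 0 < 1 / (c * (n₀ : ℝ) ^ 2) := by
    have : (0 : ℝ) < n₀ := by exact_mod_cast hd.1
    positivity
  have hme0 : mixedEmbedding K (((0 : 𝓞 K)) : K) = 0 := by simp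
  have hs1 : Summable fun x : (J : Ideal (𝓞 K)) =>
      f x * (th K S c (sg K t * mixedEmbedding K ((x : 𝓞 K) : K)) : ℂ) := by
    refine Summable.of_norm_bounded (th_summable K J S hc t 0) fun x => ?_
    rw [norm_mul, Complex.norm_real, Real.norm_eq_abs, zero_add]
    exact mul_le_of_le_one_left (abs_nonneg _) (h.f_norm_le _)
  have hgb : ∀ z : 𝓞 K, ‖gau K m f sec n₀ z‖ ≤ Fintype.card (𝓞 K ⧸ (m : Ideal (𝓞 K))) := by
    intro z
    unfold gau
    refine (norm_sum_le _ _).trans ((Finset.sum_le_card_nsmul Finset.univ _ 1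
      fun ρ _ => ?_).trans (by simp))
    rw [norm_mul]
    have h5 : (2 * Real.pi * Complex.I *
            ((Algebra.trace ℤ (𝓞 K) (sec ρ * z) : ℤ) : ℂ) / (n₀ : ℂ)) =
          ((2 * Real.pi * ((Algebra.trace ℤ (𝓞 K) (sec ρ * z) : ℤ) : ℝ) / n₀ : ℝ) : ℂ) *
            Complex.I := by
        push_cast
        ring
    rw [h5, Complex.norm_exp_ofReal_mul_I, mul_one]
    exact h.f_norm_le _
  have hs2 : Summable fun z : (J' : Ideal (𝓞 K)) => gau K m f sec n₀ z *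
      (th K S (1 / (c * (n₀ : ℝ) ^ 2)) (sg K (-t) * mixedEmbedding K ((z : 𝓞 K) : K)) : ℂ) := by
    refine Summable.of_norm_bounded ((th_summable K J' S hc' (-t) 0).mul_left
      (Fintype.card (𝓞 K ⧸ (m : Ideal (𝓞 K))) : ℝ)) fun z => ?_
    rw [norm_mul, Complex.norm_real, Real.norm_eq_abs, zero_add]
    exact mul_le_mul_of_nonneg_right (hgb _) (abs_nonneg _)
  rw [tsum_nz_add J (fun x => f x * (th K S c (sg K t * mixedEmbedding K (x : K)) : ℂ)) hs1,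
    tsum_nz_add J' (fun z => gau K m f sec n₀ z *
      (th K S (1 / (c * (n₀ : ℝ) ^ 2)) (sg K (-t) * mixedEmbedding K (z : K)) : ℂ)) hs2,
    hme0, mul_zero, mul_zero, h.f_zero_th, gau_zero_th h hsec hz] at hmain
  have h3 : ∀ x : NZ K J, f x * (th K S c (sg K t * mixedEmbedding K ((x : 𝓞 K) : K)) : ℂ) =
      χ (spn K x) *
        ((|th K S c (sg K t * mixedEmbedding K ((x : 𝓞 K) : K))| : ℝ) : ℂ) := by
    intro x
    rw [h.f_eq x.2.2, ← sgn_mul_th]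
    push_cast
    ring
  have h4 : ∀ z : NZ K J', gau K m f sec n₀ z * (th K S (1 / (c * (n₀ : ℝ) ^ 2))
      (sg K (-t) * mixedEmbedding K ((z : 𝓞 K) : K)) : ℂ) =
      ω * χ J * ((starRingEnd ℂ) (χ (I' z)) *
          ((|th K S (1 / (c * (n₀ : ℝ) ^ 2))
            (sg K (-t) * mixedEmbedding K ((z : 𝓞 K) : K))| : ℝ) : ℂ)) := by
    intro z
    rw [hω z, ← sgn_mul_th]
    push_cast
    ring
  rw [tsum_congr h3, tsum_congr h4, tsum_mul_left] at hmain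
  exact hmain

end Pool.HRC
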