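import Pool.Agent.HRC.LFun

/-!
# Polynomial growth of the L-functions of ray class characters in vertical strips
-/

open scoped NumberField nonZeroDivisors
open NumberField NumberField.InfinitePlace NumberField.mixedEmbedding NumberField.Units
  NumberField.Units.dirichletUnitTheorem Pool.ZD Pool.Agent.CMZ Pool.Agent.TRF Complex

namespace Pool.HRC

set_option linter.unusedSectionVars false

variable {K : Type} [Field K] [NumberField K] {m : II K} {χ : II K → ℂ} {S : Finset (RP K)}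
  {f : 𝓞 K → ℂ}

/-- `L` is bounded to the right of every line `Re s = 1 + ε`. -/
theorem LX_bounded (h : HC K m χ S f) {a : ℝ} (ha : 1 < a) : ∃ B : ℝ, 0 < B ∧
    ∀ s : ℂ, a ≤ s.re → ‖LX K m χ S s‖ ≤ B := by
  have hs := summable_nm K a ha
  have h0 : 0 ≤ ∑' I : II K, nm K I ^ (-a) :=
    tsum_nonneg fun I => (Real.rpow_pos_of_pos (nm_pos I) _).le
  refine ⟨∑' I : II K, nm K I ^ (-a) + 1, by positivity, fun s hsr => ?_⟩
  rw [LX_eq h (by linarith)]
  have h1 : ‖∑' I : II K, χ I * (nm K I : ℂ) ^ (-s)‖ ≤ ∑' I : II K, nm K I ^ (-a) := by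
    refine tsum_of_norm_bounded hs.hasSum fun I => ?_
    rw [norm_mul, Complex.norm_cpow_eq_rpow_re_of_pos (nm_pos I), Complex.neg_re]
    refine (mul_le_of_le_one_left (Real.rpow_pos_of_pos (nm_pos I) _).le (h.chi_norm_le I)).trans ?_
    exact Real.rpow_le_rpow_of_exponent_le (nm_one_le I) (by linarith)
  linarith

/-- `Λ` is bounded in the strip. -/
theorem LamX_bounded (h : HC K m χ S f) (hχ : ∃ I, χ I ≠ 0 ∧ χ I ≠ 1) : ∃ B : ℝ, 0 < B ∧
    ∀ s : ℂ, -(1 / 2) ≤ s.re → s.re ≤ 3 / 2 → ‖LamX K m χ S s‖ ≤ B := by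
  obtain ⟨C, hC, h⟩ := gg_decay h hχ 2
  have hint : MeasureTheory.Integrable fun v : ℝ => Real.exp (-|v|) := by
    by_contra hni
    have h1 := MeasureTheory.integral_undef hni
    have h2 := integral_comp_abs (f := fun x : ℝ => Real.exp (-x))
    rw [h1, integral_exp_neg_Ioi_zero] at h2
    norm_num at h2
  have h0 : 0 ≤ ∫ v : ℝ, Real.exp (-|v|) :=
    MeasureTheory.integral_nonneg fun v => (Real.exp_pos _).le
  refine ⟨C * (∫ v : ℝ, Real.exp (-|v|)) + 1, by positivity, fun s h1 h2 => ?_⟩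
  have h3 : ‖LamX K m χ S s‖ ≤ ∫ v : ℝ, C * Real.exp (-|v|) := by
    unfold LamX
    refine MeasureTheory.norm_integral_le_of_norm_le (hint.const_mul C)
      (Filter.Eventually.of_forall fun v => ?_)
    rw [norm_mul, Complex.norm_exp]
    have e1 : ((s - 1 / 2) * v).re = (s.re - 1 / 2) * v := by
      simp
    rw [e1]
    have e2 : (s.re - 1 / 2) * v ≤ |v| := by
      have h4 : |s.re - 1 / 2| ≤ 1 := by rw [abs_le]; constructor <;> linarith
      calc (s.re - 1 / 2) * v ≤ |(s.re - 1 / 2) * v| := le_abs_self _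
        _ = |s.re - 1 / 2| * |v| := abs_mul _ _
        _ ≤ 1 * |v| := by gcongr
        _ = |v| := one_mul _
    calc ‖gg K m χ S v‖ * Real.exp ((s.re - 1 / 2) * v)
        ≤ C * Real.exp (-(2 * |v|)) * Real.exp |v| := by
          gcongr
          exact h v
      _ = C * Real.exp (-|v|) := by
          rw [mul_assoc, ← Real.exp_add]
          congr 2
          ring
  rw [MeasureTheory.integral_const_mul] at h3
  linarith

/-- Polynomial growth on the line `Re s = -1/2`. -/
theorem LX_left (h : HC K m χ S f) (hχ : ∃ I, χ I ≠ 0 ∧ χ I ≠ 1) : ∃ B : ℝ, 0 < B ∧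
    ∀ s : ℂ, s.re = -(1 / 2) → ‖LX K m χ S s‖ ≤ B * (1 + |s.im|) ^ nn K := by
  obtain ⟨B₁, hB₁, h1⟩ := LX_bounded h (a := 3 / 2) (by norm_num)
  obtain ⟨C, hC, h2⟩ := GF_ratio K S
  obtain ⟨W, hW1, hW⟩ := gg_eq' h hχ
  have hD : 0 < DM K m := DM_pos m
  refine ⟨B₁ * (DM K m * C), by positivity, fun s hs => ?_⟩
  set u : ℂ := 1 - (starRingEnd ℂ) s with hu
  have hure : u.re = 3 / 2 := by simp [hu, hs]; norm_num
  have huim : u.im = s.im := by simp [hu]
  have hLam : LamX K m χ S s = W * (starRingEnd ℂ) (LamX K m χ S u) := LamX_eq_conj hW s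
  have hLam2 : LamX K m χ S u = (DM K m : ℂ) ^ (u / 2) * GF K S u * LX K m χ S u :=
    LamX_of_LX (by rw [hure]; norm_num)
  have e4 := h2 s hs
  have e5 := h1 u (by rw [hure])
  unfold LX
  rw [norm_mul, norm_mul, hLam, norm_mul, hW1, one_mul, RCLike.norm_conj, hLam2,
    norm_mul, norm_mul,
    Complex.norm_cpow_eq_rpow_re_of_pos hD, Complex.norm_cpow_eq_rpow_re_of_pos hD]
  have e1 : (u / 2).re = 3 / 4 := by simp [hure]; norm_num
  have e2 : (-s / 2).re = 1 / 4 := by simp [hs]; norm_num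
  rw [e1, e2]
  have e3 : DM K m ^ (3 / 4 : ℝ) * DM K m ^ (1 / 4 : ℝ) = DM K m := by
    rw [← Real.rpow_add hD]
    norm_num
  calc DM K m ^ (3 / 4 : ℝ) * ‖GF K S u‖ * ‖LX K m χ S u‖ * DM K m ^ (1 / 4 : ℝ) *
        ‖(GF K S s)⁻¹‖
      = ‖LX K m χ S u‖ * ((DM K m ^ (3 / 4 : ℝ) * DM K m ^ (1 / 4 : ℝ)) *
        (‖GF K S u‖ * ‖(GF K S s)⁻¹‖)) := by ring
    _ = ‖LX K m χ S u‖ * (DM K m * (‖GF K S u‖ * ‖(GF K S s)⁻¹‖)) := by rw [e3]
    _ ≤ B₁ * (DM K m * (C * (1 + |s.im|) ^ nn K)) := by gcongr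
    _ = B₁ * (DM K m * C) * (1 + |s.im|) ^ nn K := by ring

/-- Polynomial growth in the strip `-1/2 ≤ Re s ≤ 3/2`. -/
theorem LX_strip (h : HC K m χ S f) (hχ : ∃ I, χ I ≠ 0 ∧ χ I ≠ 1) : ∃ B : ℝ, 0 < B ∧
    ∀ s : ℂ, -(1 / 2) ≤ s.re → s.re ≤ 3 / 2 → ‖LX K m χ S s‖ ≤ B * ‖s + 2‖ ^ nn K := by
  obtain ⟨B₁, hB₁, h1⟩ := LX_bounded h (a := 3 / 2) (by norm_num)
  obtain ⟨B₂, hB₂, h2⟩ := LX_left h hχ
  obtain ⟨B₃, hB₃, h3⟩ := LamX_bounded h hχ
  obtain ⟨C, M, hC, hM, h4⟩ := GF_inv_bound K S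
  have hD : 0 < DM K m := DM_pos m
  have hne : ∀ s : ℂ, -(1 / 2) ≤ s.re → 1 ≤ ‖s + 2‖ := by
    intro s hs
    have h5 := Complex.abs_re_le_norm (s + 2)
    have h6 : (s + 2).re = s.re + 2 := by simp
    rw [h6] at h5
    have h7 := le_abs_self (s.re + 2)
    linarith
  set B : ℝ := B₁ + B₂ * 2 ^ nn K with hBdef
  have hB : 0 < B := by positivity
  refine ⟨B, hB, fun s hs1 hs2 => ?_⟩
  set F : ℂ → ℂ := fun s => LX K m χ S s / (s + 2) ^ nn K with hF
  have hbd : ‖F s‖ ≤ B := by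
    refine PhragmenLindelof.vertical_strip (a := -(1 / 2)) (b := 3 / 2) (f := F) (C := B) ?_ ?_ ?_ ?_
      hs1 hs2
    · -- differentiable
      have hd : DifferentiableOn ℂ F {s : ℂ | -1 < s.re} := by
        intro z hz
        have hz2 : z + 2 ≠ 0 := by
          intro h
          have := congrArg Complex.re h
          simp at this
          have hz' : -1 < z.re := hz
          linarith
        have h5 : DifferentiableAt ℂ F z :=
          (LX_differentiable h hχ z).div (by fun_prop) (pow_ne_zero _ hz2)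
        exact h5.differentiableWithinAt
      refine ⟨hd.mono fun z hz => ?_, ?_⟩
      · have : z.re ∈ Set.Ioo (-(1 / 2) : ℝ) (3 / 2) := hz
        have := this.1
        show -1 < z.re
        linarith
      · have h6 : ContinuousOn F {s : ℂ | -1 < s.re} := hd.continuousOn
        refine h6.mono ?_
        intro z hz
        rw [Complex.closure_preimage_re, closure_Ioo (by norm_num)] at hz
        have h7 : z.re ∈ Set.Icc (-(1 / 2) : ℝ) (3 / 2) := hz
        have := h7.1
        show -1 < z.re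
        linarith
    · refine ⟨1, ?_, ?_⟩
      · have := Real.pi_gt_three
        have h5 : (3 / 2 : ℝ) - -(1 / 2) = 2 := by norm_num
        rw [h5]
        linarith
      · refine ⟨M, ?_⟩
        refine Asymptotics.IsBigO.of_bound
          (B₃ * (DM K m ^ (1 / 4 : ℝ) + DM K m ^ (-(3 / 4) : ℝ)) * C) ?_
        refine Filter.Eventually.filter_mono inf_le_right ?_
        rw [Filter.eventually_principal]
        intro z hz
        have hz1 : z.re ∈ Set.Ioo (-(1 / 2) : ℝ) (3 / 2) := hz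
        have hz2 := hz1.1.le
        have hz3 := hz1.2.le
        have h6 := hne z hz2
        have h7 : ‖F z‖ ≤ ‖LX K m χ S z‖ := by
          rw [hF]
          simp only
          rw [norm_div, norm_pow]
          exact div_le_self (norm_nonneg _) (one_le_pow₀ h6)
        have h8 : ‖LX K m χ S z‖ ≤ B₃ * (DM K m ^ (1 / 4 : ℝ) + DM K m ^ (-(3 / 4) : ℝ)) *
            (C * Real.exp (M * |z.im|)) := by
          unfold LX
          rw [norm_mul, norm_mul]
          have e1 := h3 z hz2 hz3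
          have e2 := h4 z hz2 hz3
          have e3 : ‖(DM K m : ℂ) ^ (-z / 2)‖ ≤
              DM K m ^ (1 / 4 : ℝ) + DM K m ^ (-(3 / 4) : ℝ) := by
            rw [Complex.norm_cpow_eq_rpow_re_of_pos hD]
            have e4 : (-z / 2).re = -z.re / 2 := by simp
            rw [e4]
            have p1 := Real.rpow_pos_of_pos hD (1 / 4 : ℝ)
            have p2 := Real.rpow_pos_of_pos hD (-(3 / 4) : ℝ)
            rcases le_total 1 (DM K m) with h9 | h9
            · have := Real.rpow_le_rpow_of_exponent_le h9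
                (show -z.re / 2 ≤ (1 / 4 : ℝ) by linarith)
              linarith
            · have := Real.rpow_le_rpow_of_exponent_ge hD h9
                (show (-(3 / 4) : ℝ) ≤ -z.re / 2 by linarith)
              linarith
          gcongr
        rw [Real.norm_of_nonneg (Real.exp_pos _).le]
        refine h7.trans (h8.trans ?_)
        have h9 : |z.im| ≤ Real.exp (1 * |z.im|) := by
          rw [one_mul]
          have := Real.add_one_le_exp |z.im|
          linarith
        rw [← mul_assoc (B₃ * (DM K m ^ (1 / 4 : ℝ) + DM K m ^ (-(3 / 4) : ℝ)))]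
        refine mul_le_mul_of_nonneg_left (Real.exp_le_exp.2 ?_) (by positivity)
        gcongr
    · intro z hz
      have h5 := h2 z hz
      have h6 := hne z (by rw [hz])
      rw [hF]
      simp only
      rw [norm_div, norm_pow, div_le_iff₀ (by positivity)]
      have h7 : 1 + |z.im| ≤ 2 * ‖z + 2‖ := by
        have h8 := Complex.abs_im_le_norm (z + 2)
        have h9 : (z + 2).im = z.im := by simp
        rw [h9] at h8
        linarith
      calc ‖LX K m χ S z‖ ≤ B₂ * (1 + |z.im|) ^ nn K := h5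
        _ ≤ B₂ * (2 * ‖z + 2‖) ^ nn K := by gcongr
        _ = B₂ * 2 ^ nn K * ‖z + 2‖ ^ nn K := by rw [mul_pow]; ring
        _ ≤ B * ‖z + 2‖ ^ nn K := by
          gcongr
          rw [hBdef]
          linarith
    · intro z hz
      have h5 := h1 z (by rw [hz])
      have h6 := hne z (by rw [hz]; norm_num)
      rw [hF]
      simp only
      rw [norm_div, norm_pow, div_le_iff₀ (by positivity)]
      have h7 : 1 ≤ ‖z + 2‖ ^ nn K := one_le_pow₀ h6
      have h8 : 0 < B₂ * 2 ^ nn K := by positivity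
      calc ‖LX K m χ S z‖ ≤ B₁ := h5
        _ ≤ B := by rw [hBdef]; linarith
        _ ≤ B * ‖z + 2‖ ^ nn K := le_mul_of_one_le_right hB.le h7
  have h6 := hne s hs1
  rw [hF] at hbd
  simp only at hbd
  rw [norm_div, norm_pow, div_le_iff₀ (by positivity)] at hbd
  exact hbd

/-- Polynomial growth to the right of the line `Re s = 1/2`. -/
theorem LX_growth (h : HC K m χ S f) (hχ : ∃ I, χ I ≠ 0 ∧ χ I ≠ 1) : ∃ B : ℝ, 0 < B ∧
    ∀ s : ℂ, -(1 / 2) ≤ s.re → ‖LX K m χ S s‖ ≤ B * (1 + |s.im|) ^ nn K := by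
  obtain ⟨B₁, hB₁, h1⟩ := LX_bounded h (a := 3 / 2) (by norm_num)
  obtain ⟨B₂, hB₂, h2⟩ := LX_strip h hχ
  refine ⟨B₁ + B₂ * 4 ^ nn K, by positivity, fun s hs => ?_⟩
  have h3 : (1 : ℝ) ≤ 1 + |s.im| := by linarith [abs_nonneg s.im]
  have h4 : (1 : ℝ) ≤ (1 + |s.im|) ^ nn K := one_le_pow₀ h3
  rcases le_total (3 / 2) s.re with h5 | h5
  · have h6 := h1 s h5
    have h7 : 0 ≤ B₂ * 4 ^ nn K * (1 + |s.im|) ^ nn K := by positivity
    nlinarith
  · have h6 := h2 s hs h5
    have h7 : ‖s + 2‖ ≤ 4 * (1 + |s.im|) := by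
      have h8 := Complex.norm_le_abs_re_add_abs_im (s + 2)
      have h9 : (s + 2).im = s.im := by simp
      have h10 : (s + 2).re = s.re + 2 := by simp
      rw [h9, h10, abs_of_nonneg (show 0 ≤ s.re + 2 by linarith)] at h8
      have := abs_nonneg s.im
      linarith
    calc ‖LX K m χ S s‖ ≤ B₂ * ‖s + 2‖ ^ nn K := h6
      _ ≤ B₂ * (4 * (1 + |s.im|)) ^ nn K := by gcongr
      _ = B₂ * 4 ^ nn K * (1 + |s.im|) ^ nn K := by rw [mul_pow]; ring
      _ ≤ (B₁ + B₂ * 4 ^ nn K) * (1 + |s.im|) ^ nn K := by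
        gcongr
        linarith

end Pool.HRC
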