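import Pool.Agent.HRC.Ray
import Pool.Agent.HRC.Grow

/-!
# L-functions of primitive ray class characters of number fields: the final statements

For every number field `K`, every nonzero ideal `m` and every nontrivial primitive character `χ` of
the narrow ray class group modulo `m`: the Dirichlet series extends to an entire function of
polynomial growth and a constant multiple of the completed function is real on the critical line.
-/

open scoped NumberField nonZeroDivisors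
open NumberField NumberField.InfinitePlace NumberField.mixedEmbedding NumberField.Units
  NumberField.Units.dirichletUnitTheorem Pool.ZD Pool.Agent.CMZ Pool.Agent.TRF Complex

namespace Pool.HRC

set_option linter.unusedSectionVars false

/-- `L` is the L-function of `χ`: an entire function which for `Re s > 1` is the sum of the
Dirichlet series `∑ χ(I) N(I)^(-s)` over all nonzero integral ideals `I` of `K`. -/
def IsLF (K : Type) [Field K] [NumberField K] (χ : Ideal (𝓞 K) → ℂ) (L : ℂ → ℂ) : Prop :=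
  Differentiable ℂ L ∧ ∀ s : ℂ, 1 < s.re →
    HasSum (fun I : (Ideal (𝓞 K))⁰ => χ (I : Ideal (𝓞 K)) *
      (Ideal.absNorm (I : Ideal (𝓞 K)) : ℂ) ^ (-s)) (L s)

/-- The L-function is unique. -/
theorem IsLF.unique {K : Type} [Field K] [NumberField K] {χ : Ideal (𝓞 K) → ℂ} {L L' : ℂ → ℂ}
    (h : IsLF K χ L) (h' : IsLF K χ L') : L = L' := by
  have h1 : AnalyticOnNhd ℂ L Set.univ := fun z _ => h.1.analyticAt z
  have h2 : AnalyticOnNhd ℂ L' Set.univ := fun z _ => h'.1.analyticAt z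
  refine h1.eq_of_eventuallyEq h2 (z₀ := 2) ?_
  have ho : {s : ℂ | 1 < s.re} ∈ nhds (2 : ℂ) :=
    (isOpen_lt continuous_const Complex.continuous_re).mem_nhds (by simp)
  filter_upwards [ho] with s hs
  exact (h.2 s hs).unique (h'.2 s hs)

variable {K : Type} [Field K] [NumberField K]

theorem isLF {m : II K} {χ : Ideal (𝓞 K) → ℂ} {S : Finset (RP K)} {f : 𝓞 K → ℂ}
    (h : HC K m (fun I => χ (I : Ideal (𝓞 K))) S f)
    (hχ : ∃ I : II K, χ (I : Ideal (𝓞 K)) ≠ 0 ∧ χ (I : Ideal (𝓞 K)) ≠ 1) :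
    IsLF K χ (LX K m (fun I => χ (I : Ideal (𝓞 K))) S) := by
  refine ⟨LX_differentiable h hχ, fun s hs => ?_⟩
  have h1 := LX_hasSum h hs
  convert h1 using 3 with I
  unfold nm
  rw [Complex.ofReal_natCast]

/-- The main theorem of the library: analytic continuation, reality on the critical line and
polynomial growth. -/
theorem main (m : II K) (χ : Ideal (𝓞 K) → ℂ) (h : IsRayClassChar K (m : Ideal (𝓞 K)) χ)
    (hp : IsPrim K (m : Ideal (𝓞 K)) χ)
    (hχ : ∃ I : Ideal (𝓞 K), χ I ≠ 0 ∧ χ I ≠ 1) :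
    ∃ (S : Finset (RP K)) (f : 𝓞 K → ℂ), HC K m (fun I => χ (I : Ideal (𝓞 K))) S f ∧
      (∃ I : II K, χ (I : Ideal (𝓞 K)) ≠ 0 ∧ χ (I : Ideal (𝓞 K)) ≠ 1) ∧
      ∃ L : ℂ → ℂ, L = LX K m (fun I => χ (I : Ideal (𝓞 K))) S ∧ IsLF K χ L ∧
      (∃ w : ℂ, ‖w‖ = 1 ∧ ∀ t : ℝ,
        (w * ((DM K m : ℂ) ^ ((1 / 2 + t * I) / 2) * GF K S (1 / 2 + t * I) *
          L (1 / 2 + t * I))).im = 0) ∧
      ∃ B : ℝ, 0 < B ∧ ∀ s : ℂ, -(1 / 2) ≤ s.re → ‖L s‖ ≤ B * (1 + |s.im|) ^ nn K := by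
  obtain ⟨S, f, hHC⟩ := exists_HC K m χ h hp
  have hχ' : ∃ I : II K, χ (I : Ideal (𝓞 K)) ≠ 0 ∧ χ (I : Ideal (𝓞 K)) ≠ 1 := by
    obtain ⟨I, h0, h1⟩ := hχ
    have h2 := ((h.ne_zero_iff I).1 h0).1
    exact ⟨⟨I, mem_nonZeroDivisors_of_ne_zero h2⟩, h0, h1⟩
  refine ⟨S, f, hHC, hχ', _, rfl, isLF hHC hχ', ?_, LX_growth hHC hχ'⟩
  obtain ⟨w, hw, hreal⟩ := LamX_real hHC hχ'
  refine ⟨w, hw, fun t => ?_⟩
  rw [← LamX_of_LX (by simp)]
  exact hreal t

end Pool.HRC
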