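import Pool.Agent.HRC.Defs
import Pool.Agent.CMZ.Kappa

/-!
# The kernel

PROOF. With `l_w(t) = mult(w) (v/n + log sc_w(t))`: for `w ≠ w₀` `l_w = t_w + mult(w) v/n`,
`l_{w₀} = -∑ t + mult(w₀) v/n`; translating `t_w ↦ t_w - mult(w) v/n` gives
`ker(v) = ∫ ∏_{w ≠ w₀} h_w(t_w) · h_{w₀}(v - ∑ t) dt`. Every `h_w` is continuous, nonnegative,
`h_w(l) e^(b l)` is bounded and integrable for every `b > 0`, and `∫ h_w(l) e^(s l) dl` is `Γ_ℝ(s)`,
`Γ_ℝ(s+1)` (`w ∈ S`), `Γ_ℂ(s) = Γ_ℝ(s) Γ_ℝ(s+1)` (`Complex.Gammaℝ_mul_Gammaℝ_add_one`) for `Re s > 0`. Fubini.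
(Compare `Pool/Agent/TRF/Kernel.lean` and `Pool/Agent/CMZ/Kernel*.lean`.)
-/

open scoped NumberField nonZeroDivisors
open NumberField NumberField.InfinitePlace NumberField.mixedEmbedding NumberField.Units
  NumberField.Units.dirichletUnitTheorem Pool.ZD Pool.Agent.CMZ MeasureTheory

namespace Pool.HRC

namespace KerAux

/-- the properties of the local kernels -/
structure Good (f : ℝ → ℝ) : Prop where
  cont : Continuous f
  nonneg : ∀ l, 0 ≤ f l
  bd : ∀ b : ℝ, 0 < b → ∃ C : ℝ, ∀ l, f l * Real.exp (b * l) ≤ C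
  int : ∀ s : ℂ, 0 < s.re → Integrable fun l : ℝ => (f l : ℂ) * Complex.exp (s * l)

theorem Good.intR {f : ℝ → ℝ} (hf : Good f) {b : ℝ} (hb : 0 < b) :
    Integrable fun l : ℝ => f l * Real.exp (b * l) := by
  have h := (hf.int (b : ℂ) (by simpa using hb)).norm
  refine h.congr (Filter.Eventually.of_forall fun l => ?_)
  simp only [norm_mul, Complex.norm_real, Complex.norm_exp]
  rw [Real.norm_of_nonneg (hf.nonneg l)]
  congr 2
  simp

variable {ι : Type} [Fintype ι] {h : ι → ℝ → ℝ} {h0 : ℝ → ℝ}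

/-- the integrand of the convolution -/
noncomputable def CV (h : ι → ℝ → ℝ) (h0 : ℝ → ℝ) (v : ℝ) (t : ι → ℝ) : ℝ :=
  (∏ i, h i (t i)) * h0 (v - ∑ i, t i)

/-- the convolution -/
noncomputable def CJ (h : ι → ℝ → ℝ) (h0 : ℝ → ℝ) (v : ℝ) : ℝ := ∫ t : ι → ℝ, CV h h0 v t

theorem CV_nonneg (hh : ∀ i, Good (h i)) (hg : Good h0) (v : ℝ) (t : ι → ℝ) :
    0 ≤ CV h h0 v t :=
  mul_nonneg (Finset.prod_nonneg fun i _ => (hh i).nonneg _) (hg.nonneg _)

theorem CV_cont (hh : ∀ i, Good (h i)) (hg : Good h0) :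
    Continuous fun p : ℝ × (ι → ℝ) => CV h h0 p.1 p.2 := by
  unfold CV
  refine Continuous.mul ?_ ?_
  · refine continuous_finsetProd _ fun i _ => (hh i).cont.comp ?_
    fun_prop
  · refine hg.cont.comp ?_
    fun_prop

theorem CV_cont_t (hh : ∀ i, Good (h i)) (hg : Good h0) (v : ℝ) :
    Continuous fun t : ι → ℝ => CV h h0 v t :=
  (CV_cont hh hg).comp (continuous_const.prodMk continuous_id)

theorem CV_cont_v (hh : ∀ i, Good (h i)) (hg : Good h0) (t : ι → ℝ) :
    Continuous fun v : ℝ => CV h h0 v t :=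
  (CV_cont hh hg).comp (continuous_id.prodMk continuous_const)

theorem CV_le (hh : ∀ i, Good (h i)) {b C : ℝ} (hC : ∀ l, h0 l * Real.exp (b * l) ≤ C) (v : ℝ)
    (t : ι → ℝ) :
    CV h h0 v t ≤ C * Real.exp (-b * v) * ∏ i, (h i (t i) * Real.exp (b * t i)) := by
  have h1 := hC (v - ∑ i, t i)
  have h2 : h0 (v - ∑ i, t i) ≤ C * Real.exp (-(b * (v - ∑ i, t i))) := by
    have h3 : Real.exp (b * (v - ∑ i, t i)) * Real.exp (-(b * (v - ∑ i, t i))) = 1 := by
      rw [← Real.exp_add, add_neg_cancel, Real.exp_zero]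
    have h4 := mul_le_mul_of_nonneg_right h1 (Real.exp_pos (-(b * (v - ∑ i, t i)))).le
    rwa [mul_assoc, h3, mul_one] at h4
  have h5 : Real.exp (-(b * (v - ∑ i, t i))) = Real.exp (-b * v) * ∏ i, Real.exp (b * t i) := by
    rw [← Real.exp_sum, ← Real.exp_add, ← Finset.mul_sum]
    congr 1
    ring
  rw [h5] at h2
  unfold CV
  rw [Finset.prod_mul_distrib]
  calc (∏ i, h i (t i)) * h0 (v - ∑ i, t i)
      ≤ (∏ i, h i (t i)) * (C * (Real.exp (-b * v) * ∏ i, Real.exp (b * t i))) :=
        mul_le_mul_of_nonneg_left h2 (Finset.prod_nonneg fun i _ => (hh i).nonneg _)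
    _ = _ := by ring

theorem prod_int (hh : ∀ i, Good (h i)) {b : ℝ} (hb : 0 < b) :
    Integrable fun t : ι → ℝ => ∏ i, (h i (t i) * Real.exp (b * t i)) :=
  Integrable.fintype_prod (f := fun i (l : ℝ) => h i l * Real.exp (b * l))
    fun i => (hh i).intR hb

theorem CV_int (hh : ∀ i, Good (h i)) (hg : Good h0) (v : ℝ) :
    Integrable fun t : ι → ℝ => CV h h0 v t := by
  obtain ⟨C, hC⟩ := hg.bd 1 one_pos
  refine Integrable.mono' ((prod_int hh one_pos).const_mul (C * Real.exp (-1 * v)))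
    (CV_cont_t hh hg v).aestronglyMeasurable (Filter.Eventually.of_forall fun t => ?_)
  rw [Real.norm_of_nonneg (CV_nonneg hh hg v t)]
  exact CV_le hh hC v t

theorem CJ_nonneg (hh : ∀ i, Good (h i)) (hg : Good h0) (v : ℝ) : 0 ≤ CJ h h0 v :=
  integral_nonneg fun t => CV_nonneg hh hg v t

theorem CJ_bound (hh : ∀ i, Good (h i)) (hg : Good h0) {b : ℝ} (hb : 0 < b) :
    ∃ C : ℝ, 0 < C ∧ ∀ v, CJ h h0 v ≤ C * Real.exp (-b * v) := by
  obtain ⟨C, hC⟩ := hg.bd b hb
  set I : ℝ := ∫ t : ι → ℝ, ∏ i, (h i (t i) * Real.exp (b * t i)) with hI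
  have hC0 : 0 ≤ C := (mul_nonneg (hg.nonneg 0) (Real.exp_pos _).le).trans (hC 0)
  have hI0 : 0 ≤ I := integral_nonneg fun t => Finset.prod_nonneg fun i _ =>
    mul_nonneg ((hh i).nonneg _) (Real.exp_pos _).le
  refine ⟨C * I + 1, by positivity, fun v => ?_⟩
  have h1 : CJ h h0 v ≤ ∫ t : ι → ℝ, C * Real.exp (-b * v) *
      ∏ i, (h i (t i) * Real.exp (b * t i)) :=
    integral_mono (CV_int hh hg v) ((prod_int hh hb).const_mul _) fun t => CV_le hh hC v t
  rw [integral_const_mul, ← hI] at h1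
  have h2 := Real.exp_pos (-b * v)
  nlinarith

theorem CJ_cont (hh : ∀ i, Good (h i)) (hg : Good h0) : Continuous (CJ h h0) := by
  obtain ⟨C, hC⟩ := hg.bd 1 one_pos
  have hC0 : 0 ≤ C := (mul_nonneg (hg.nonneg 0) (Real.exp_pos _).le).trans (hC 0)
  refine continuous_iff_continuousAt.2 fun v0 => ?_
  unfold CJ
  refine continuousAt_of_dominated
    (bound := fun t => C * Real.exp (1 - v0) * ∏ i, (h i (t i) * Real.exp (1 * t i))) ?_ ?_
    ((prod_int hh one_pos).const_mul _) ?_
  · exact Filter.Eventually.of_forall fun v => (CV_cont_t hh hg v).aestronglyMeasurable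
  · filter_upwards [Ioi_mem_nhds (show v0 - 1 < v0 by linarith)] with v hv
    refine Filter.Eventually.of_forall fun t => ?_
    rw [Real.norm_of_nonneg (CV_nonneg hh hg v t)]
    refine (CV_le hh hC v t).trans ?_
    refine mul_le_mul_of_nonneg_right ?_ (Finset.prod_nonneg fun i _ =>
      mul_nonneg ((hh i).nonneg _) (Real.exp_pos _).le)
    refine mul_le_mul_of_nonneg_left ?_ hC0
    rw [Real.exp_le_exp]
    have : v0 - 1 < v := hv
    linarith
  · exact Filter.Eventually.of_forall fun t => (CV_cont_v hh hg t).continuousAt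

/-- the shear -/
def PQ (q : ℝ × (ι → ℝ)) : (ι → ℝ) × ℝ := (q.2, q.1 - ∑ i, q.2 i)

theorem PQ_mp : MeasurePreserving (PQ (ι := ι)) (volume.prod volume) (volume.prod volume) := by
  have h1 : MeasurePreserving (fun p : (ι → ℝ) × ℝ => (p.1, p.2 - ∑ i, p.1 i))
      (volume.prod volume) (volume.prod volume) := by
    refine MeasurePreserving.skew_product (f := id) (g := fun (t : ι → ℝ) (v : ℝ) =>
      v - ∑ i, t i) (MeasurePreserving.id _) ?_ ?_
    · refine Continuous.measurable ?_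
      fun_prop
    · refine Filter.Eventually.of_forall fun t => ?_
      have h := map_add_right_eq_self (volume : Measure ℝ) (-∑ i, t i)
      simpa only [sub_eq_add_neg] using h
  exact h1.comp Measure.measurePreserving_swap

/-- the product function -/
noncomputable def FP (h : ι → ℝ → ℝ) (h0 : ℝ → ℝ) (s : ℂ) (p : (ι → ℝ) × ℝ) : ℂ :=
  (∏ i, ((h i (p.1 i) : ℂ) * Complex.exp (s * (p.1 i : ℂ)))) *
    ((h0 p.2 : ℂ) * Complex.exp (s * (p.2 : ℂ)))

theorem FP_PQ (s : ℂ) (q : ℝ × (ι → ℝ)) :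
    FP h h0 s (PQ q) = (CV h h0 q.1 q.2 : ℂ) * Complex.exp (s * q.1) := by
  unfold FP PQ CV
  simp only
  rw [Finset.prod_mul_distrib, ← Complex.exp_sum, ← Finset.mul_sum]
  have e : Complex.exp (s * (q.1 : ℂ)) = Complex.exp (s * ∑ i, (q.2 i : ℂ)) *
      Complex.exp (s * ((q.1 - ∑ i, q.2 i : ℝ) : ℂ)) := by
    rw [← Complex.exp_add]
    congr 1
    push_cast
    ring
  rw [e]
  push_cast
  ring

theorem FP_int (hh : ∀ i, Good (h i)) (hg : Good h0) {s : ℂ} (hs : 0 < s.re) :
    Integrable (FP h h0 s) (volume.prod volume) := by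
  have h1 : Integrable (fun t : ι → ℝ => ∏ i, ((h i (t i) : ℂ) * Complex.exp (s * (t i : ℂ)))) :=
    Integrable.fintype_prod (f := fun i (l : ℝ) => (h i l : ℂ) * Complex.exp (s * (l : ℂ)))
      fun i => (hh i).int s hs
  exact h1.mul_prod (hg.int s hs)

theorem FP_integral (s : ℂ) : ∫ p, FP h h0 s p ∂(volume.prod volume) =
    (∏ i, ∫ l : ℝ, (h i l : ℂ) * Complex.exp (s * (l : ℂ))) *
      ∫ l : ℝ, (h0 l : ℂ) * Complex.exp (s * (l : ℂ)) := by
  unfold FP
  rw [integral_prod_mul (fun t : ι → ℝ => ∏ i, ((h i (t i) : ℂ) * Complex.exp (s * (t i : ℂ))))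
    (fun l : ℝ => (h0 l : ℂ) * Complex.exp (s * (l : ℂ)))]
  congr 1
  exact integral_fintype_prod_volume_eq_prod
    (fun i (l : ℝ) => (h i l : ℂ) * Complex.exp (s * (l : ℂ)))

theorem CJ_inner (s : ℂ) (v : ℝ) : ∫ t : ι → ℝ, (CV h h0 v t : ℂ) * Complex.exp (s * v) =
    (CJ h h0 v : ℂ) * Complex.exp (s * v) := by
  rw [integral_mul_const]
  congr 1
  unfold CJ
  rw [← integral_complex_ofReal]

theorem CQ_int (hh : ∀ i, Good (h i)) (hg : Good h0) {s : ℂ} (hs : 0 < s.re) :
    Integrable (fun q : ℝ × (ι → ℝ) => (CV h h0 q.1 q.2 : ℂ) * Complex.exp (s * q.1))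
      (volume.prod volume) := by
  have h1 := (PQ_mp (ι := ι)).integrable_comp_of_integrable (FP_int hh hg hs)
  exact h1.congr (Filter.Eventually.of_forall fun q => FP_PQ s q)

theorem CJ_mellin_int (hh : ∀ i, Good (h i)) (hg : Good h0) {s : ℂ} (hs : 0 < s.re) :
    Integrable fun v : ℝ => (CJ h h0 v : ℂ) * Complex.exp (s * v) := by
  have h1 := (CQ_int hh hg hs).integral_prod_left
  exact h1.congr (Filter.Eventually.of_forall fun v => CJ_inner s v)

theorem CJ_mellin (hh : ∀ i, Good (h i)) (hg : Good h0) {s : ℂ} (hs : 0 < s.re) :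
    ∫ v : ℝ, (CJ h h0 v : ℂ) * Complex.exp (s * v) =
      (∏ i, ∫ l : ℝ, (h i l : ℂ) * Complex.exp (s * (l : ℂ))) *
        ∫ l : ℝ, (h0 l : ℂ) * Complex.exp (s * (l : ℂ)) := by
  rw [← FP_integral, ← (PQ_mp (ι := ι)).map_eq, integral_map
    (PQ_mp (ι := ι)).aemeasurable (by rw [(PQ_mp (ι := ι)).map_eq];
                                      exact (FP_int hh hg hs).aestronglyMeasurable)]
  have e : ∫ q : ℝ × (ι → ℝ), FP h h0 s (PQ q) ∂(volume.prod volume) =
      ∫ q : ℝ × (ι → ℝ), (CV h h0 q.1 q.2 : ℂ) * Complex.exp (s * q.1) ∂(volume.prod volume) :=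
    integral_congr_ae (Filter.Eventually.of_forall fun q => FP_PQ s q)
  rw [e, integral_prod _ (CQ_int hh hg hs)]
  exact integral_congr_ae (Filter.Eventually.of_forall fun v => (CJ_inner s v).symm)

/-! ### the local kernels -/

/-- the model -/
noncomputable def mfk (m c r l : ℝ) : ℝ :=
  2 * Real.exp (m * l) * Real.exp (-(c * Real.exp (r * l)))

theorem mf_eq {m c r : ℝ} (hr : 0 < r) (s : ℂ) (l : ℝ) :
    (mfk m c r l : ℂ) * Complex.exp (s * l) = 2 * KapAux.gf c ((m + s) / r) (r * l) := by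
  unfold mfk KapAux.gf
  have hr' : (r : ℂ) ≠ 0 := by exact_mod_cast hr.ne'
  have e : Complex.exp ((m + s) / r * ((r * l : ℝ) : ℂ)) =
      Complex.exp ((m * l : ℝ) : ℂ) * Complex.exp (s * l) := by
    rw [← Complex.exp_add]
    congr 1
    push_cast
    field_simp
  rw [e]
  push_cast
  ring

theorem exp_bd {a c : ℝ} (ha : 0 < a) (hc : 0 < c) (u : ℝ) :
    Real.exp (a * u) * Real.exp (-(c * Real.exp u)) ≤
      Real.exp (a * Real.log (a / c) - a) := by
  rw [← Real.exp_add, Real.exp_le_exp]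
  have h1 := Real.add_one_le_exp (u - Real.log (a / c))
  have h2 : Real.exp u = a / c * Real.exp (u - Real.log (a / c)) := by
    rw [Real.exp_sub, Real.exp_log (by positivity)]
    field_simp
  have h3 : c * Real.exp u = a * Real.exp (u - Real.log (a / c)) := by
    rw [h2]
    field_simp
  rw [h3]
  nlinarith

theorem mf_re {m r : ℝ} (hm : 0 ≤ m) (hr : 0 < r) {s : ℂ} (hs : 0 < s.re) :
    0 < (((m : ℂ) + s) / (r : ℂ)).re := by
  rw [Complex.div_ofReal_re, Complex.add_re, Complex.ofReal_re]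
  positivity

theorem mf_good {m c r : ℝ} (hm : 0 ≤ m) (hc : 0 < c) (hr : 0 < r) : Good (mfk m c r) where
  cont := by
    unfold mfk
    fun_prop
  nonneg l := by
    unfold mfk
    positivity
  bd b hb := by
    refine ⟨2 * Real.exp ((m + b) / r * Real.log ((m + b) / r / c) - (m + b) / r), fun l => ?_⟩
    have h := exp_bd (a := (m + b) / r) (by positivity) hc (r * l)
    unfold mfk
    have e : Real.exp ((m + b) / r * (r * l)) = Real.exp (m * l) * Real.exp (b * l) := by
      rw [← Real.exp_add]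
      congr 1
      field_simp
    rw [e] at h
    nlinarith
  int s hs := by
    have h := ((KapAux.gf_integrable hc (mf_re hm hr hs)).comp_mul_left' hr.ne').const_mul (2 : ℂ)
    exact h.congr (Filter.Eventually.of_forall fun l => (mf_eq hr s l).symm)

theorem mf_mellin {m c r : ℝ} (hm : 0 ≤ m) (hc : 0 < c) (hr : 0 < r) {s : ℂ} (hs : 0 < s.re) :
    ∫ l : ℝ, (mfk m c r l : ℂ) * Complex.exp (s * l) =
      2 / r * ((c : ℂ) ^ (-((m + s) / r)) * Complex.Gamma ((m + s) / r)) := by
  rw [← KapAux.gf_integral hc (mf_re hm hr hs)]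
  have h1 : ∫ l : ℝ, (mfk m c r l : ℂ) * Complex.exp (s * l) =
      2 * ∫ l : ℝ, KapAux.gf c ((m + s) / r) (r * l) := by
    rw [← integral_const_mul]
    exact integral_congr_ae (Filter.Eventually.of_forall fun l => mf_eq hr s l)
  rw [h1, Measure.integral_comp_mul_left (KapAux.gf c ((m + s) / r)) r,
    abs_of_pos (inv_pos.2 hr), Complex.real_smul]
  push_cast
  ring

end KerAux

variable (K : Type) [Field K] [NumberField K] (S : Finset (RP K))

namespace KerAux

open scoped Classical in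
/-- the Mellin transform of the local kernel -/
noncomputable def MW (w : InfinitePlace K) (s : ℂ) : ℂ :=
  if h : IsReal w then
    (if (⟨w, h⟩ : RP K) ∈ S then Complex.Gammaℝ (s + 1) else Complex.Gammaℝ s)
  else Complex.Gammaℝ s * Complex.Gammaℝ (s + 1)

theorem hw_spec (w : InfinitePlace K) : Good (hw K S w) ∧ ∀ s : ℂ, 0 < s.re →
    ∫ l : ℝ, (hw K S w l : ℂ) * Complex.exp (s * l) = MW K S w s := by
  classical
  by_cases h : IsReal w
  · by_cases hS : (⟨w, h⟩ : RP K) ∈ S
    · have e : hw K S w = mfk 1 Real.pi 2 := by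
        funext l
        unfold hw mfk
        rw [dif_pos h, if_pos hS, one_mul]
      rw [e]
      refine ⟨mf_good one_pos.le Real.pi_pos two_pos, fun s hs => ?_⟩
      rw [mf_mellin one_pos.le Real.pi_pos two_pos hs]
      unfold MW
      rw [dif_pos h, if_pos hS, Complex.Gammaℝ_def]
      push_cast
      rw [div_self two_ne_zero, one_mul, add_comm (1 : ℂ) s, neg_div]
    · have e : hw K S w = mfk 0 Real.pi 2 := by
        funext l
        unfold hw mfk
        rw [dif_pos h, if_neg hS, zero_mul, Real.exp_zero, mul_one]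
      rw [e]
      refine ⟨mf_good le_rfl Real.pi_pos two_pos, fun s hs => ?_⟩
      rw [mf_mellin le_rfl Real.pi_pos two_pos hs]
      unfold MW
      rw [dif_pos h, if_neg hS, Complex.Gammaℝ_def]
      push_cast
      rw [div_self two_ne_zero, one_mul, zero_add, neg_div]
  · have e : hw K S w = mfk 0 (2 * Real.pi) 1 := by
      funext l
      unfold hw mfk
      rw [dif_neg h, zero_mul, Real.exp_zero, mul_one, one_mul]
    rw [e]
    refine ⟨mf_good le_rfl (by positivity) one_pos, fun s hs => ?_⟩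
    rw [mf_mellin le_rfl (by positivity) one_pos hs]
    unfold MW
    rw [dif_neg h, Complex.Gammaℝ_mul_Gammaℝ_add_one, Complex.Gammaℂ_def]
    push_cast
    rw [zero_add, div_one, div_one]
    ring

theorem prod_MW (s : ℂ) : ∏ w : InfinitePlace K, MW K S w s = GF K S s := by
  classical
  rw [← Fintype.prod_subtype_mul_prod_subtype (fun w : InfinitePlace K => IsReal w)
    (fun w => MW K S w s)]
  have h1 : ∏ w : {w : InfinitePlace K // IsReal w}, MW K S w.1 s =
      Complex.Gammaℝ (s + 1) ^ S.card * Complex.Gammaℝ s ^ (nrRealPlaces K - S.card) := by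
    have e : ∀ w : {w : InfinitePlace K // IsReal w}, MW K S w.1 s =
        if w ∈ S then Complex.Gammaℝ (s + 1) else Complex.Gammaℝ s := by
      intro w
      unfold MW
      rw [dif_pos w.2]
    rw [Finset.prod_congr rfl fun w _ => e w, Finset.prod_ite, Finset.prod_const,
      Finset.prod_const]
    congr 2
    · simp
    · have h2 : (Finset.univ.filter fun w : {w : InfinitePlace K // IsReal w} => w ∉ S) =
          Finset.univ \ S := by
        ext w
        simp
      rw [h2, Finset.card_sdiff_of_subset (Finset.subset_univ _), Finset.card_univ]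
  have h3 : ∏ w : {w : InfinitePlace K // ¬ IsReal w}, MW K S w.1 s =
      (Complex.Gammaℝ s * Complex.Gammaℝ (s + 1)) ^ nrComplexPlaces K := by
    have e : ∀ w : {w : InfinitePlace K // ¬ IsReal w}, MW K S w.1 s =
        Complex.Gammaℝ s * Complex.Gammaℝ (s + 1) := by
      intro w
      unfold MW
      rw [dif_neg w.2]
    rw [Finset.prod_congr rfl fun w _ => e w, Finset.prod_const, Finset.card_univ]
    congr 1
    unfold nrComplexPlaces
    exact Fintype.card_congr (Equiv.subtypeEquivRight fun w => not_isReal_iff_isComplex)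
  rw [h1, h3]
  unfold GF
  rw [mul_pow, pow_add, pow_add]
  ring

theorem nn_pos' : (0 : ℝ) < nn K := by
  have : 0 < nn K := Module.finrank_pos
  exact_mod_cast this

open scoped Classical in
theorem prod_eq_CV (v : ℝ) (t : logSpace K) :
    ∏ w : InfinitePlace K, hw K S w ((mult w : ℝ) * (v / nn K + Real.log (sc K t w))) =
      CV (fun w : {w : InfinitePlace K // w ≠ w₀} => hw K S w.1) (hw K S w₀) v
        (t + fun w => (mult w.1 : ℝ) * (v / nn K)) := by
  unfold CV
  rw [Fintype.prod_eq_mul_prod_subtype_ne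
    (fun w : InfinitePlace K => hw K S w ((mult w : ℝ) * (v / nn K + Real.log (sc K t w)))) w₀,
    mul_comm]
  have hn := nn_pos' K
  congr 1
  · refine Finset.prod_congr rfl fun w _ => ?_
    have h1 : Real.log (sc K t w.1) = t w / mult w.1 := by
      unfold sc
      rw [dif_neg w.2, Real.log_exp]
    have h2 : (mult w.1 : ℝ) ≠ 0 := mult_coe_ne_zero
    congr 1
    rw [h1, Pi.add_apply]
    field_simp
    ring
  · have h1 : Real.log (sc K t w₀) = -(∑ v, t v) / mult (w₀ : InfinitePlace K) := by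
      unfold sc
      rw [dif_pos rfl, Real.log_exp]
    have h2 : (mult (w₀ : InfinitePlace K) : ℝ) ≠ 0 := mult_coe_ne_zero
    have h3 : ∑ w : InfinitePlace K, (mult w : ℝ) = nn K := by
      have := sum_mult_eq (K := K)
      exact_mod_cast this
    rw [Fintype.sum_eq_add_sum_subtype_ne (fun w : InfinitePlace K => (mult w : ℝ)) w₀] at h3
    congr 1
    rw [h1]
    simp only [Pi.add_apply]
    rw [Finset.sum_add_distrib, ← Finset.sum_mul]
    have h4 : ∑ w : {w : InfinitePlace K // w ≠ w₀}, (mult w.1 : ℝ) =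
        nn K - mult (w₀ : InfinitePlace K) := by linarith
    rw [h4]
    field_simp
    ring

open scoped Classical in
theorem ker_eq_CJ (v : ℝ) : ker K S v =
    CJ (fun w : {w : InfinitePlace K // w ≠ w₀} => hw K S w.1) (hw K S w₀) v := by
  unfold ker CJ
  simp only [prod_eq_CV]
  exact integral_add_right_eq_self (fun t : logSpace K =>
    CV (fun w : {w : InfinitePlace K // w ≠ w₀} => hw K S w.1) (hw K S w₀) v t) _

end KerAux

open KerAux

open scoped Classical in
theorem ker_integrable (v : ℝ) : Integrable fun t : logSpace K => ∏ w : InfinitePlace K,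
    hw K S w ((mult w : ℝ) * (v / nn K + Real.log (sc K t w))) := by
  simp only [prod_eq_CV]
  exact (CV_int (h := fun w : {w : InfinitePlace K // w ≠ w₀} => hw K S w.1)
    (fun w => (hw_spec K S w.1).1) (hw_spec K S w₀).1 v).comp_add_right _

theorem ker_nonneg (v : ℝ) : 0 ≤ ker K S v := by
  classical
  rw [ker_eq_CJ]
  exact CJ_nonneg (h := fun w : {w : InfinitePlace K // w ≠ w₀} => hw K S w.1)
    (fun w => (hw_spec K S w.1).1) (hw_spec K S w₀).1 v

theorem ker_continuous : Continuous (ker K S) := by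
  classical
  have e : ker K S = CJ (fun w : {w : InfinitePlace K // w ≠ w₀} => hw K S w.1) (hw K S w₀) :=
    funext fun v => ker_eq_CJ K S v
  rw [e]
  exact CJ_cont (h := fun w : {w : InfinitePlace K // w ≠ w₀} => hw K S w.1)
    (fun w => (hw_spec K S w.1).1) (hw_spec K S w₀).1

theorem ker_bound {b : ℝ} (hb : 0 < b) : ∃ C : ℝ, 0 < C ∧ ∀ v, ker K S v ≤ C * Real.exp (-b * v) := by
  classical
  simp only [ker_eq_CJ]
  exact CJ_bound (h := fun w : {w : InfinitePlace K // w ≠ w₀} => hw K S w.1)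
    (fun w => (hw_spec K S w.1).1) (hw_spec K S w₀).1 hb

theorem ker_mellin_integrable {s : ℂ} (hs : 0 < s.re) :
    Integrable fun v : ℝ => (ker K S v : ℂ) * Complex.exp (s * v) := by
  classical
  simp only [ker_eq_CJ]
  exact CJ_mellin_int (h := fun w : {w : InfinitePlace K // w ≠ w₀} => hw K S w.1)
    (fun w => (hw_spec K S w.1).1) (hw_spec K S w₀).1 hs

theorem ker_mellin {s : ℂ} (hs : 0 < s.re) :
    ∫ v : ℝ, (ker K S v : ℂ) * Complex.exp (s * v) = GF K S s := by
  classical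
  simp only [ker_eq_CJ]
  have h1 := CJ_mellin (h := fun w : {w : InfinitePlace K // w ≠ w₀} => hw K S w.1)
    (fun w => (hw_spec K S w.1).1) (hw_spec K S w₀).1 hs
  have h2 : ∀ w : {w : InfinitePlace K // w ≠ w₀},
      ∫ l : ℝ, (hw K S w.1 l : ℂ) * Complex.exp (s * l) = MW K S w.1 s :=
    fun w => (hw_spec K S w.1).2 s hs
  rw [h1, (hw_spec K S w₀).2 s hs, Finset.prod_congr rfl fun w _ => h2 w, mul_comm, ← prod_MW,
    Fintype.prod_eq_mul_prod_subtype_ne (fun w : InfinitePlace K => MW K S w s) w₀]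

end Pool.HRC
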