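import Pool.Agent.HRC.Theta
import Pool.Agent.HRC.Ker

/-!
# Unfolding for any number field
-/

open scoped NumberField nonZeroDivisors ENNReal
open NumberField NumberField.InfinitePlace NumberField.mixedEmbedding NumberField.Units
  NumberField.Units.dirichletUnitTheorem Pool.ZD Pool.Agent.CMZ Pool.Agent.CMZ.UnfAux
  Pool.Agent.TRF MeasureTheory

namespace Pool.HRC

set_option maxHeartbeats 600000

variable (K : Type) [Field K] [NumberField K]

open scoped Classical in
/-- Grouping an absolutely convergent sum by the fibres of a map. -/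
theorem group_sum' {X Y : Type} (f : X → Y) (p : X → ℝ≥0∞) (k : Y → ℝ) (hk : ∀ I, 0 ≤ k I)
    (w : ℕ) (c : Y → ℂ) (hc : ∀ I, ‖c I‖ ≤ 1) (hp : ∑' x, p x ≠ ⊤)
    (hfib : ∀ I, ∑' x : X, (if f x = I then 1 else 0) * p x = w * ENNReal.ofReal (k I)) :
    ∑' x : X, c (f x) * ((p x).toReal : ℂ) = ∑' I : Y, c I * ((w * k I : ℝ) : ℂ) := by
  have hpt : ∀ x, p x ≠ ⊤ := fun x => ENNReal.ne_top_of_tsum_ne_top hp x
  have hps : Summable fun x => (p x).toReal := ENNReal.summable_toReal hp
  have hfib' : ∀ I : Y, ∑' x : {x : X // f x = I}, ((p x.1).toReal : ℂ) =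
      ((w * k I : ℝ) : ℂ) := by
    intro I
    rw [← Complex.ofReal_tsum]
    congr 1
    have h0 := ENNReal.tsum_toReal_eq (f := fun x : {x : X // f x = I} => p x.1)
      (fun x => hpt x.1)
    rw [← h0]
    have h3 : ∑' x : {x : X // f x = I}, p x.1 =
        ∑' x : X, (if f x = I then 1 else 0) * p x := by
      refine (tsum_subtype {x : X | f x = I} p).trans ?_
      refine tsum_congr fun x => ?_
      by_cases hx : f x = I
      · rw [Set.indicator_of_mem (show x ∈ {x : X | f x = I} from hx), if_pos hx, one_mul]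
      · rw [Set.indicator_of_notMem (show x ∉ {x : X | f x = I} from hx), if_neg hx, zero_mul]
    rw [h3, hfib I, ENNReal.toReal_mul, ENNReal.toReal_natCast, ENNReal.toReal_ofReal (hk I)]
  have hsum : Summable fun x : X => c (f x) * ((p x).toReal : ℂ) := by
    refine Summable.of_norm_bounded hps fun x => ?_
    rw [norm_mul, Complex.norm_real, Real.norm_of_nonneg ENNReal.toReal_nonneg]
    exact mul_le_of_le_one_left ENNReal.toReal_nonneg (hc _)
  rw [← (Equiv.sigmaFiberEquiv f).tsum_eq]
  have h1 : Summable fun q : (Σ I : Y, {x : X // f x = I}) =>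
      c (f ((Equiv.sigmaFiberEquiv f) q)) *
        ((p ((Equiv.sigmaFiberEquiv f) q)).toReal : ℂ) :=
    (Equiv.sigmaFiberEquiv f).summable_iff.2 hsum
  rw [h1.tsum_sigma]
  refine tsum_congr fun I => ?_
  rw [← hfib' I, ← tsum_mul_left]
  refine tsum_congr fun x => ?_
  change c (f x.1) * _ = _
  rw [x.2]
  rfl

open scoped Classical in
/-- The general form, for a sign `ν`. -/
theorem unf_abs (J : II K) (A : ClassGroup (𝓞 K)) (hJ : ClassGroup.mk0 J = A⁻¹) (c : II K → ℂ)
    (hc : ∀ I, ‖c I‖ ≤ 1) (e : 𝓞 K → ℂ)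
    (he : ∀ (x : 𝓞 K) (I : II K), x ≠ 0 → I * J = spn K x → e x = c I)
    (Gf : mixedSpace K → ℝ) (hG0 : ∀ z, 0 ≤ Gf z) (hGc : Continuous Gf)
    (hGn : ∀ x y : mixedSpace K, (∀ w, normAtPlace w x = normAtPlace w y) → Gf x = Gf y)
    (kk : ℝ → ℝ) (hk0 : ∀ y, 0 < y → 0 ≤ kk y)
    (hH : ∀ x : mixedSpace K, mixedEmbedding.norm x ≠ 0 →
      ∫⁻ t : logSpace K, ENNReal.ofReal (Gf (sg K t * x)) =
        ENNReal.ofReal (kk (mixedEmbedding.norm x)))
    (hs : Summable fun I : Cls K A => kk (nm K I * nm K J))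
    (ν : logSpace K → logSpace K) (hν : Continuous ν)
    (hU : ∀ (h : II K → ℝ≥0∞) (Gf : mixedSpace K → ℝ≥0∞) (_ : Measurable Gf)
      (_ : ∀ x y : mixedSpace K, (∀ w, normAtPlace w x = normAtPlace w y) → Gf x = Gf y)
      (H : ℝ → ℝ≥0∞) (_ : ∀ x : mixedSpace K, mixedEmbedding.norm x ≠ 0 →
        ∫⁻ t : logSpace K, Gf (sg K t * x) = H (mixedEmbedding.norm x)),
      ∑' x : NZ K J, h (spn K (x : 𝓞 K)) *
        ∫⁻ t in FD K, Gf (sg K (ν t) * mixedEmbedding K ((x : 𝓞 K) : K)) =
        torsionOrder K * ∑' I : Cls K A, h ((I : II K) * J) * H (nm K I * nm K J))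
    (hGs : ∀ t, Summable fun x : NZ K J =>
      Gf (sg K (ν t) * mixedEmbedding K ((x : 𝓞 K) : K))) :
    IntegrableOn (fun t => ∑' x : NZ K J, e x *
        (Gf (sg K (ν t) * mixedEmbedding K ((x : 𝓞 K) : K)) : ℂ)) (FD K) ∧
    (torsionOrder K : ℂ) * ∑' I : Cls K A, c I * (kk (nm K I * nm K J) : ℂ) =
      ∫ t in FD K, ∑' x : NZ K J, e x *
        (Gf (sg K (ν t) * mixedEmbedding K ((x : 𝓞 K) : K)) : ℂ) := by
  have hcount := Gen.countable_NZ K J
  set F : NZ K J → logSpace K → ℝ := fun x t =>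
    Gf (sg K (ν t) * mixedEmbedding K ((x : 𝓞 K) : K)) with hF
  have hFc : ∀ x, Continuous (F x) := fun x =>
    hGc.comp (((continuous_sg K).comp hν).mul continuous_const)
  have hF0 : ∀ x t, 0 ≤ F x t := fun x t => hG0 _
  set pw : NZ K J → ℝ≥0∞ := fun x => ∫⁻ t in FD K, ENNReal.ofReal (F x t) with hpw
  set κ : Cls K A → ℝ := fun I => kk (nm K I * nm K J) with hκ
  have hκ0 : ∀ I, 0 ≤ κ I := fun I => hk0 _ (mul_pos (nm_pos _) (nm_pos _))
  have hUU : ∀ h : II K → ℝ≥0∞, ∑' x : NZ K J, h (spn K (x : 𝓞 K)) * pw x =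
      torsionOrder K * ∑' I : Cls K A, h ((I : II K) * J) * ENNReal.ofReal (κ I) := fun h =>
    hU h (fun z => ENNReal.ofReal (Gf z)) (ENNReal.measurable_ofReal.comp hGc.measurable)
      (fun z z' hz => by rw [hGn z z' hz]) (fun N => ENNReal.ofReal (kk N)) (fun z hz => hH z hz)
  have hpws : ∑' x, pw x ≠ ⊤ := by
    have h1 := hUU (fun _ => 1)
    simp only [one_mul] at h1
    rw [h1]
    refine ENNReal.mul_ne_top (ENNReal.natCast_ne_top _) ?_
    exact hs.tsum_ofReal_ne_top
  have hpwt : ∀ x, pw x ≠ ⊤ := fun x => ENNReal.ne_top_of_tsum_ne_top hpws x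
  have hFint : ∀ x, Integrable (F x) (volume.restrict (FD K)) := by
    intro x
    refine ⟨(hFc x).aestronglyMeasurable, ?_⟩
    rw [hasFiniteIntegral_iff_ofReal (Filter.Eventually.of_forall fun t => hF0 x t)]
    exact lt_top_iff_ne_top.2 (hpwt x)
  have hP : ∀ x, ∫ t in FD K, F x t = (pw x).toReal := by
    intro x
    rw [integral_eq_lintegral_of_nonneg_ae (Filter.Eventually.of_forall fun t => hF0 x t)
      (hFc x).aestronglyMeasurable]
  have hps : Summable fun x => (pw x).toReal := ENNReal.summable_toReal hpws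
  have hen : ∀ x : NZ K J, e x = c (Gen.cl K J A hJ x) := fun x =>
    he x _ x.2.2 (Gen.cl_spec K J A hJ x).symm
  have hen1 : ∀ x : NZ K J, ‖e x‖ ≤ 1 := fun x => by rw [hen x]; exact hc _
  have hintg : IntegrableOn (fun t => ∑' x : NZ K J, e x * (F x t : ℂ)) (FD K) := by
    have hsm : ∀ t, Summable fun x : NZ K J => e x * (F x t : ℂ) := by
      intro t
      refine Summable.of_norm_bounded (hGs t) fun x => ?_
      rw [norm_mul, Complex.norm_real, Real.norm_of_nonneg (hF0 x t)]
      exact mul_le_of_le_one_left (hF0 x t) (hen1 x)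
    refine ⟨?_, ?_⟩
    · refine aestronglyMeasurable_of_tendsto_ae (Filter.atTop : Filter (Finset (NZ K J)))
        (f := fun s t => ∑ x ∈ s, e x * (F x t : ℂ)) (fun s => ?_)
        (Filter.Eventually.of_forall fun t => (hsm t).hasSum)
      refine Continuous.aestronglyMeasurable ?_
      exact continuous_finsetSum _ fun x _ =>
        continuous_const.mul (Complex.continuous_ofReal.comp (hFc x))
    · refine lt_of_le_of_lt ?_ (lt_top_iff_ne_top.2 hpws)
      simp only [hpw]
      rw [← lintegral_tsum (f := fun (x : NZ K J) t => ENNReal.ofReal (F x t))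
        (fun x => (ENNReal.measurable_ofReal.comp (hFc x).measurable).aemeasurable)]
      refine lintegral_mono fun t => ?_
      refine enorm_tsum_le_tsum_enorm.trans (ENNReal.tsum_le_tsum fun x => ?_)
      rw [← ofReal_norm_eq_enorm, norm_mul, Complex.norm_real, Real.norm_of_nonneg (hF0 x t)]
      exact ENNReal.ofReal_le_ofReal (mul_le_of_le_one_left (hF0 x t) (hen1 x))
  refine ⟨hintg, ?_⟩
  -- exchange
  have hex : ∫ t in FD K, ∑' x : NZ K J, e x * (F x t : ℂ) =
      ∑' x : NZ K J, e x * ((pw x).toReal : ℂ) := by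
    have h1 : ∀ x : NZ K J, Integrable (fun t => e x * (F x t : ℂ)) (volume.restrict (FD K)) :=
      fun x => (hFint x).ofReal.const_mul _
    have h2 : Summable fun x : NZ K J => ∫ t in FD K, ‖e x * (F x t : ℂ)‖ := by
      refine Summable.of_nonneg_of_le (fun x => integral_nonneg fun t => norm_nonneg _)
        (fun x => ?_) hps
      rw [← hP x]
      refine integral_mono (h1 x).norm (hFint x) fun t => ?_
      simp only
      rw [norm_mul, Complex.norm_real, Real.norm_of_nonneg (hF0 x t)]
      exact mul_le_of_le_one_left (hF0 x t) (hen1 x)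
    rw [← (hasSum_integral_of_summable_integral_norm h1 h2).tsum_eq]
    refine tsum_congr fun x => ?_
    rw [integral_const_mul, integral_complex_ofReal, hP x]
  -- grouping
  have hgr : ∑' x : NZ K J, e x * ((pw x).toReal : ℂ) =
      ∑' I : Cls K A, c I * ((torsionOrder K * κ I : ℝ) : ℂ) := by
    have h1 := group_sum' (Gen.cl K J A hJ) pw κ hκ0 (torsionOrder K) (fun I => c I)
      (fun I => hc I) hpws (fun I => by
        have h2 : ∑' I' : Cls K A, (if ((I' : II K) * J = (I : II K) * J) then (1 : ℝ≥0∞) else 0) *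
            ENNReal.ofReal (κ I') = ENNReal.ofReal (κ I) := by
          rw [tsum_eq_single I]
          · simp
          · intro I' hI'
            rw [if_neg, zero_mul]
            intro h
            apply hI'
            apply Subtype.ext
            apply ii_cancel (C := J)
            rw [mul_comm, h, mul_comm]
        rw [← h2, ← hUU (fun I' => if I' = (I : II K) * J then 1 else 0)]
        refine tsum_congr fun x => ?_
        simp only [Gen.cl_eq_iff])
    rw [← h1]
    exact tsum_congr fun x => by rw [hen x]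
  change _ = ∫ t in FD K, ∑' x : NZ K J, e x * (F x t : ℂ)
  rw [hex, hgr, ← tsum_mul_left]
  refine tsum_congr fun I => ?_
  simp only [hκ]
  push_cast
  ring

variable (S : Finset (RP K))

theorem abs_PS_eq {x y : mixedSpace K} (h : ∀ w, normAtPlace w x = normAtPlace w y) :
    |PS S x| = |PS S y| := by
  unfold PS
  rw [Finset.abs_prod, Finset.abs_prod]
  refine Finset.prod_congr rfl fun w _ => ?_
  have h1 := h w.1
  rw [normAtPlace_apply_of_isReal w.2, normAtPlace_apply_of_isReal w.2] at h1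
  exact h1

theorem abs_th_eq (c : ℝ) {x y : mixedSpace K} (h : ∀ w, normAtPlace w x = normAtPlace w y) :
    |th K S c x| = |th K S c y| := by
  unfold th
  have h1 : qf K x = qf K y := by
    unfold qf
    simp only [h]
  rw [abs_mul, abs_mul, abs_mul, abs_mul, abs_PS_eq K S h, h1]

theorem continuous_th (c : ℝ) : Continuous (th K S c) := by
  unfold th PS qf
  refine ((continuous_const.mul (continuous_finsetProd _ fun w _ => ?_)).mul
    (Real.continuous_exp.comp (continuous_const.mul
      (continuous_finsetSum _ fun w _ => continuous_const.mul ?_)).neg))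
  · exact (continuous_apply w).comp continuous_fst
  · exact (mixedEmbedding.continuous_normAtPlace w).pow 2

/-- The local decomposition. -/
theorem abs_th_prod {c : ℝ} (hc : 0 < c) (t : logSpace K) (z : mixedSpace K)
    (hz : mixedEmbedding.norm z ≠ 0) :
    2 ^ Fintype.card (InfinitePlace K) * |th K S c (sg K t * z)| =
      ∏ w : InfinitePlace K, hw K S w ((mult w : ℝ) *
        ((Real.log (mixedEmbedding.norm z) + nn K / 2 * Real.log c) / nn K +
          Real.log (sc K (t + logMap z) w))) := by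
  classical
  have hn : (nn K : ℝ) ≠ 0 := by
    have : 0 < nn K := Module.finrank_pos
    exact_mod_cast this.ne'
  have hb0 : ∀ w, normAtPlace w z ≠ 0 := mixedEmbedding.norm_ne_zero_iff.1 hz
  have hbpos : ∀ w, 0 < normAtPlace w z := fun w =>
    lt_of_le_of_ne (normAtPlace_nonneg w z) (Ne.symm (hb0 w))
  have hsc : 0 < √c := Real.sqrt_pos.2 hc
  -- the exponent
  set a : InfinitePlace K → ℝ := fun w => √c * (sc K t w * normAtPlace w z) with ha
  have ha0 : ∀ w, 0 < a w := fun w => mul_pos hsc (mul_pos (sc_pos K t w) (hbpos w))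
  have hlog : ∀ w, (Real.log (mixedEmbedding.norm z) + nn K / 2 * Real.log c) / nn K +
      Real.log (sc K (t + logMap z) w) = Real.log (a w) := by
    intro w
    rw [sc_add, sc_logMap K z hz w, ha]
    simp only
    rw [Real.log_mul (sc_pos K t w).ne' (mul_ne_zero (hb0 w) (Real.exp_pos _).ne'),
      Real.log_mul (hb0 w) (Real.exp_pos _).ne', Real.log_exp,
      Real.log_mul hsc.ne' (mul_ne_zero (sc_pos K t w).ne' (hb0 w)),
      Real.log_mul (sc_pos K t w).ne' (hb0 w), Real.log_sqrt hc.le]
    field_simp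
    ring
  have hhw : ∀ w, hw K S w ((mult w : ℝ) * Real.log (a w)) =
      2 * (if h : IsReal w then (if (⟨w, h⟩ : RP K) ∈ S then a w else 1) else 1) *
        Real.exp (-(Real.pi * ((mult w : ℝ) * a w ^ 2))) := by
    intro w
    unfold hw
    rcases isReal_or_isComplex w with h | h
    · rw [dif_pos h, dif_pos h, mult_isReal ⟨w, h⟩]
      have h1 : Real.exp (((1 : ℕ) : ℝ) * Real.log (a w)) = a w := by
        rw [Nat.cast_one, one_mul, Real.exp_log (ha0 w)]
      have h2 : Real.exp (2 * (((1 : ℕ) : ℝ) * Real.log (a w))) = a w ^ 2 := by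
        rw [Nat.cast_one, one_mul, two_mul, Real.exp_add, Real.exp_log (ha0 w)]
        ring
      rw [h1, h2, Nat.cast_one, one_mul]
      split_ifs <;> ring
    · have h' : ¬ IsReal w := not_isReal_iff_isComplex.2 h
      rw [dif_neg h', dif_neg h', mult_isComplex ⟨w, h⟩]
      have h2 : Real.exp (((2 : ℕ) : ℝ) * Real.log (a w)) = a w ^ 2 := by
        rw [Real.exp_nat_mul, Real.exp_log (ha0 w)]
      rw [h2]
      push_cast
      ring_nf
  simp only [hlog, hhw]
  rw [Finset.prod_mul_distrib, Finset.prod_mul_distrib, Finset.prod_const, Finset.card_univ,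
    ← Real.exp_sum]
  have h3 : ∏ w : InfinitePlace K, (if h : IsReal w then
      (if (⟨w, h⟩ : RP K) ∈ S then a w else 1) else 1) = ∏ w ∈ S, a w.1 := by
    have h4 : ∏ w ∈ S, a w.1 = ∏ w : RP K, if w ∈ S then a w.1 else 1 := by
      rw [Finset.prod_ite_mem, Finset.univ_inter]
    rw [h4]
    have h5 := Fintype.prod_subtype_mul_prod_subtype (fun w : InfinitePlace K => IsReal w)
      (fun w => if h : IsReal w then (if (⟨w, h⟩ : RP K) ∈ S then a w else 1) else 1)
    rw [← h5]
    have h6 : ∏ w : {w : InfinitePlace K // ¬ IsReal w}, (if h : IsReal w.1 then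
      (if (⟨w.1, h⟩ : RP K) ∈ S then a w.1 else 1) else 1) = 1 :=
      Finset.prod_eq_one fun w _ => dif_neg w.2
    rw [h6, mul_one]
    exact Finset.prod_congr rfl fun w _ => dif_pos w.2
  rw [h3]
  unfold th
  have h7 : |PS S (sg K t * z)| = ∏ w ∈ S, (sc K t w.1 * normAtPlace w.1 z) := by
    unfold PS
    rw [Finset.abs_prod]
    refine Finset.prod_congr rfl fun w _ => ?_
    rw [← normAtPlace_sg_mul, normAtPlace_apply_of_isReal w.2]
    rfl
  have h8 : -(Real.pi * c * qf K (sg K t * z)) =
      ∑ w : InfinitePlace K, -(Real.pi * ((mult w : ℝ) * a w ^ 2)) := by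
    unfold qf
    rw [Finset.mul_sum, ← Finset.sum_neg_distrib]
    refine Finset.sum_congr rfl fun w _ => ?_
    rw [normAtPlace_sg_mul, ha]
    simp only
    rw [mul_pow (√c), Real.sq_sqrt hc.le]
    ring
  rw [abs_mul, abs_mul, abs_of_pos (Real.exp_pos _), abs_of_nonneg (pow_nonneg hsc.le _), h7,
    ← Finset.prod_const, ← Finset.prod_mul_distrib, h8, ← mul_assoc]

open scoped Classical in
theorem th_lint {c : ℝ} (hc : 0 < c) (z : mixedSpace K) (hz : mixedEmbedding.norm z ≠ 0) :
    ∫⁻ t : logSpace K, ENNReal.ofReal (2 ^ Fintype.card (InfinitePlace K) *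
      |th K S c (sg K t * z)|) =
      ENNReal.ofReal (ker K S (Real.log (mixedEmbedding.norm z) + nn K / 2 * Real.log c)) := by
  simp only [abs_th_prod K S hc _ z hz]
  set v : ℝ := Real.log (mixedEmbedding.norm z) + nn K / 2 * Real.log c with hv
  rw [lintegral_add_right_eq_self (μ := (volume : Measure (logSpace K)))
    (fun t : logSpace K => ENNReal.ofReal (∏ w : InfinitePlace K,
    hw K S w ((mult w : ℝ) * (v / nn K + Real.log (sc K t w))))) (logMap z)]
  unfold ker
  rw [ofReal_integral_eq_lintegral_ofReal (ker_integrable K S v)]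
  refine Filter.Eventually.of_forall fun t => Finset.prod_nonneg fun w _ => ?_
  unfold hw
  split_ifs <;> positivity

theorem ker_summable (v : ℝ) : Summable fun I : II K => ker K S (v + Real.log (nm K I)) := by
  obtain ⟨C, hC, h⟩ := ker_bound K S (b := 2) (by norm_num)
  refine Summable.of_nonneg_of_le (fun I => ker_nonneg K S _) (fun I => ?_)
    ((summable_nm K 2 (by norm_num)).mul_left (C * Real.exp (-2 * v)))
  refine (h _).trans (le_of_eq ?_)
  rw [mul_add, Real.exp_add, Real.rpow_def_of_pos (nm_pos I)]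
  ring_nf

theorem nz_th_summable (J : II K) {c : ℝ} (hc : 0 < c) (t : logSpace K) :
    Summable fun x : NZ K J => |th K S c (sg K t * mixedEmbedding K ((x : 𝓞 K) : K))| := by
  have h1 := th_summable K J S hc t 0
  set G : 𝓞 K → ℝ := fun x => |th K S c (sg K t * mixedEmbedding K ((x : 𝓞 K) : K))| with hG
  have h2 : Summable fun x : (J : Ideal (𝓞 K)) => G x := by
    refine h1.congr fun x => ?_
    rw [zero_add]
  have he : Function.Injective (fun x : NZ K J => (⟨x.1, x.2.1⟩ : (J : Ideal (𝓞 K)))) :=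
    fun x y hxy => Subtype.ext (congrArg (fun y : (J : Ideal (𝓞 K)) => (y : 𝓞 K)) hxy)
  have h3 := h2.comp_injective he
  exact h3

open scoped Classical in
/-- The unfolded sum over a class. -/
theorem class_unf (J : II K) (A : ClassGroup (𝓞 K)) (hJ : ClassGroup.mk0 J = A⁻¹) (a : II K → ℂ)
    (ha : ∀ I, ‖a I‖ ≤ 1) (e : 𝓞 K → ℂ)
    (he : ∀ (x : 𝓞 K) (I : II K), x ≠ 0 → I * J = spn K x → e x = a I) {c : ℝ} (hc : 0 < c) :
    (IntegrableOn (fun t => ∑' x : NZ K J, e x *
        ((|th K S c (sg K t * mixedEmbedding K ((x : 𝓞 K) : K))| : ℝ) : ℂ)) (FD K) ∧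
    (torsionOrder K : ℂ) * ∑' I : Cls K A, a I *
        (ker K S (Real.log (nm K J) + nn K / 2 * Real.log c + Real.log (nm K I)) : ℂ) =
      2 ^ Fintype.card (InfinitePlace K) * ∫ t in FD K, ∑' x : NZ K J, e x *
        ((|th K S c (sg K t * mixedEmbedding K ((x : 𝓞 K) : K))| : ℝ) : ℂ)) ∧
    IntegrableOn (fun t => ∑' x : NZ K J, e x *
        ((|th K S c (sg K (-t) * mixedEmbedding K ((x : 𝓞 K) : K))| : ℝ) : ℂ)) (FD K) ∧
    (torsionOrder K : ℂ) * ∑' I : Cls K A, a I *
        (ker K S (Real.log (nm K J) + nn K / 2 * Real.log c + Real.log (nm K I)) : ℂ) =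
      2 ^ Fintype.card (InfinitePlace K) * ∫ t in FD K, ∑' x : NZ K J, e x *
        ((|th K S c (sg K (-t) * mixedEmbedding K ((x : 𝓞 K) : K))| : ℝ) : ℂ) := by
  have hkk : ∀ I : Cls K A, Real.log (nm K (I : II K) * nm K J) + nn K / 2 * Real.log c =
      Real.log (nm K J) + nn K / 2 * Real.log c + Real.log (nm K I) := by
    intro I
    rw [Real.log_mul (nm_pos _).ne' (nm_pos _).ne']
    ring
  have hs : Summable fun I : Cls K A =>
      ker K S (Real.log (nm K (I : II K) * nm K J) + nn K / 2 * Real.log c) := by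
    simp only [hkk]
    exact (ker_summable K S _).comp_injective Subtype.val_injective
  have hpt : ∀ (ν : logSpace K → logSpace K) (t : logSpace K),
      2 ^ Fintype.card (InfinitePlace K) * ∑' x : NZ K J, e x *
        ((|th K S c (sg K (ν t) * mixedEmbedding K ((x : 𝓞 K) : K))| : ℝ) : ℂ) =
      ∑' x : NZ K J, e x * (((2 ^ Fintype.card (InfinitePlace K) *
        |th K S c (sg K (ν t) * mixedEmbedding K ((x : 𝓞 K) : K))| : ℝ)) : ℂ) := by
    intro ν t
    rw [← tsum_mul_left]
    refine tsum_congr fun x => ?_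
    push_cast
    ring
  have hbody : ∀ ν : logSpace K → logSpace K,
      2 ^ Fintype.card (InfinitePlace K) * ∫ t in FD K, ∑' x : NZ K J, e x *
        ((|th K S c (sg K (ν t) * mixedEmbedding K ((x : 𝓞 K) : K))| : ℝ) : ℂ) =
      ∫ t in FD K, ∑' x : NZ K J, e x * (((2 ^ Fintype.card (InfinitePlace K) *
        |th K S c (sg K (ν t) * mixedEmbedding K ((x : 𝓞 K) : K))| : ℝ)) : ℂ) := by
    intro ν
    rw [← integral_const_mul]
    exact integral_congr_ae (Filter.Eventually.of_forall fun t => hpt ν t)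
  have hint : ∀ ν : logSpace K → logSpace K,
      IntegrableOn (fun t => ∑' x : NZ K J, e x * (((2 ^ Fintype.card (InfinitePlace K) *
        |th K S c (sg K (ν t) * mixedEmbedding K ((x : 𝓞 K) : K))| : ℝ)) : ℂ)) (FD K) →
      IntegrableOn (fun t => ∑' x : NZ K J, e x *
        ((|th K S c (sg K (ν t) * mixedEmbedding K ((x : 𝓞 K) : K))| : ℝ) : ℂ)) (FD K) := by
    intro ν h
    have h1 := h.const_mul ((2 : ℂ) ^ Fintype.card (InfinitePlace K))⁻¹
    refine h1.congr (Filter.Eventually.of_forall fun t => ?_)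
    simp only
    rw [← hpt ν t, ← mul_assoc, inv_mul_cancel₀ (pow_ne_zero _ two_ne_zero), one_mul]
  have main := fun (ν : logSpace K → logSpace K) (hν : Continuous ν) hU =>
    unf_abs K J A hJ a ha e he
      (fun z => 2 ^ Fintype.card (InfinitePlace K) * |th K S c z|) (fun z => by positivity)
      (continuous_const.mul (continuous_th K S c).abs)
      (fun x y hxy => by rw [abs_th_eq K S c hxy])
      (fun N => ker K S (Real.log N + nn K / 2 * Real.log c)) (fun _ _ => ker_nonneg K S _)
      (fun z hz => th_lint K S hc z hz) hs ν hν hU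
      (fun t => (nz_th_summable K S J hc (ν t)).mul_left _)
  simp only [hkk] at main
  constructor
  · rw [hbody (fun t => t)]
    have h1 := main (fun t => t) continuous_id
      (fun h Gf _ hGn H hH => unfoldW K J A hJ h Gf hGn H hH)
    exact ⟨hint _ h1.1, h1.2⟩
  · rw [hbody (fun t => -t)]
    have h1 := main (fun t => -t) continuous_neg
      (fun h Gf hG hGn H hH => unfoldW_neg K J A hJ h Gf hG hGn H hH)
    exact ⟨hint _ h1.1, h1.2⟩

end Pool.HRC
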