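import Pool.Agent.HRC.Defs

/-!
# Gauss sums of primitive ray class characters

PROOF. `G_J(z) = ∑_ρ f(sec ρ) e(Tr(sec(ρ) z)/n₀)`, `z ∈ J'`, does not depend on the section
(two representatives in `J` of the same class differ by an element of `m J`, and
`Tr(m J J') ⊆ n₀ ℤ` because `m J J' 𝔇 = (n₀)`).
(1) `(z) = I' J'`, `I'` not prime to `m`: let `P` be a prime dividing `I'` and `m`, `D = m / P`,
`b ≡ 1 (mod D)` with `f(b) ≠ 0, 1`; `ρ ↦ b ρ` gives `G(z) = f(b) ∑ f(a) e(Tr(a b z)/n₀)` and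
`b z - z ∈ D P J' = m J'`, so `G(z) = f(b) G(z)`, `G(z) = 0`.
(2) Choose `j ∈ J` with `j ≡ 1 (mod m)`, `(j) = J₁ J`, `J₁` prime to `m`; with the section `j a`:
`G_J(z) = τ(j z / n₀)`, `τ(y) = ∑_{a mod m} f(a) e(Tr(a y))` for `y ∈ K` with `B_y = y m 𝔇` integral
prime to `m`. Claim: `τ(y) χ(B_y) sgn(y) = ω` does not depend on `y`. For `y₁, y₂` choose
`c ∈ B₁` with `c ≡ 1 (mod m)`, `(c) = C B₁`, then `C B₂ = (d)`, `d = c y₂ / y₁ ∈ 𝓞`, `d y₁ = c y₂`;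
`τ(y₂) = τ(c y₂)`, `τ(y₁) = f(d) τ(d y₁)`, `χ(C) χ(B₁) = sgn(c)`, `χ(C) χ(B₂) = f(d) sgn(d)`.
(`B_y` for `y = j z/n₀` is `J₁ I'`, and `χ(J₁) χ(J) = sgn(j)`.)
-/

open scoped NumberField nonZeroDivisors
open NumberField NumberField.InfinitePlace NumberField.mixedEmbedding NumberField.Units
  NumberField.Units.dirichletUnitTheorem Pool.ZD Pool.Agent.CMZ

namespace Pool.HRC

set_option linter.unusedSectionVars false

variable {K : Type} [Field K] [NumberField K] {m : II K} {χ : II K → ℂ} {S : Finset (RP K)}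
  {f : 𝓞 K → ℂ}

/-! ### The exponential -/

/-- `e(t / n)` -/
private noncomputable def gep (n : ℕ) (t : ℤ) : ℂ :=
  Complex.exp (2 * Real.pi * Complex.I * (t : ℂ) / (n : ℂ))

private theorem gep_zero (n : ℕ) : gep n 0 = 1 := by simp [gep]

private theorem gep_congr {n : ℕ} (hn : 0 < n) {s t : ℤ} (h : (n : ℤ) ∣ s - t) :
    gep n s = gep n t := by
  obtain ⟨k, hk⟩ := h
  have h1 : (s : ℂ) = t + n * k := by
    have : s = t + n * k := by linarith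
    rw [this]
    push_cast
    ring
  have hnc : (n : ℂ) ≠ 0 := by exact_mod_cast hn.ne'
  unfold gep
  rw [Complex.exp_eq_exp_iff_exists_int]
  refine ⟨k, ?_⟩
  rw [h1]
  field_simp

private theorem gep_cross {n₁ n₂ : ℕ} (h1 : 0 < n₁) (h2 : 0 < n₂) {s t : ℤ}
    (h : (n₂ : ℤ) * s = n₁ * t) : gep n₁ s = gep n₂ t := by
  have h1c : (n₁ : ℂ) ≠ 0 := by exact_mod_cast h1.ne'
  have h2c : (n₂ : ℂ) ≠ 0 := by exact_mod_cast h2.ne'
  have hc : (n₂ : ℂ) * s = n₁ * t := by exact_mod_cast h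
  unfold gep
  congr 1
  rw [div_eq_div_iff h1c h2c]
  linear_combination (2 * Real.pi * Complex.I) * hc

/-! ### The trace -/

/-- If `A 𝔇` is divisible by `n` then the traces of the elements of `A` are. -/
private theorem tr_dvd_of_mem {A B : Ideal (𝓞 K)} {n : ℕ} (hn : 0 < n)
    (h : A * differentIdeal ℤ (𝓞 K) = B * Ideal.span {(n : 𝓞 K)}) {w : 𝓞 K} (hw : w ∈ A) :
    (n : ℤ) ∣ Algebra.trace ℤ (𝓞 K) w := by
  have h2 : FractionalIdeal.dual ℤ ℚ (1 : FractionalIdeal (𝓞 K)⁰ K) ≠ 0 :=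
    FractionalIdeal.dual_ne_zero ℤ ℚ one_ne_zero
  have h1 : (A : FractionalIdeal (𝓞 K)⁰ K) =
      FractionalIdeal.spanSingleton (𝓞 K)⁰ (n : K) *
        ((B : FractionalIdeal (𝓞 K)⁰ K) *
          FractionalIdeal.dual ℤ ℚ (1 : FractionalIdeal (𝓞 K)⁰ K)) := by
    have h3 : ((A * differentIdeal ℤ (𝓞 K) : Ideal (𝓞 K)) : FractionalIdeal (𝓞 K)⁰ K) =
        B * FractionalIdeal.spanSingleton (𝓞 K)⁰ (n : K) := by
      rw [h, FractionalIdeal.coeIdeal_mul, FractionalIdeal.coeIdeal_span_singleton]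
      simp
    rw [mul_comm (B : FractionalIdeal (𝓞 K)⁰ K), ← mul_assoc,
      mul_comm _ (B : FractionalIdeal (𝓞 K)⁰ K)]
    rw [mul_comm (FractionalIdeal.spanSingleton (𝓞 K)⁰ (n : K)), ← mul_assoc,
      mul_comm ((B : FractionalIdeal (𝓞 K)⁰ K)) _, mul_assoc, ← h3, FractionalIdeal.coeIdeal_mul,
      coeIdeal_differentIdeal ℤ ℚ K (𝓞 K), mul_comm, mul_assoc, inv_mul_cancel₀ h2, mul_one]
  have h4 : (w : K) ∈ (A : FractionalIdeal (𝓞 K)⁰ K) := by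
    rw [FractionalIdeal.mem_coeIdeal]
    exact ⟨w, hw, rfl⟩
  rw [h1, FractionalIdeal.mem_singleton_mul] at h4
  obtain ⟨η, hη, h5⟩ := h4
  have hle : (B : FractionalIdeal (𝓞 K)⁰ K) *
      FractionalIdeal.dual ℤ ℚ (1 : FractionalIdeal (𝓞 K)⁰ K) ≤
      FractionalIdeal.dual ℤ ℚ (1 : FractionalIdeal (𝓞 K)⁰ K) := by
    calc (B : FractionalIdeal (𝓞 K)⁰ K) *
          FractionalIdeal.dual ℤ ℚ (1 : FractionalIdeal (𝓞 K)⁰ K) ≤
        1 * FractionalIdeal.dual ℤ ℚ (1 : FractionalIdeal (𝓞 K)⁰ K) :=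
          mul_le_mul_left FractionalIdeal.coeIdeal_le_one _
      _ = _ := one_mul _
  have hη' := hle hη
  rw [FractionalIdeal.mem_dual (one_ne_zero : (1 : FractionalIdeal (𝓞 K)⁰ K) ≠ 0)] at hη'
  have h6 := hη' 1 (FractionalIdeal.one_mem_one _)
  rw [Algebra.traceForm_apply, mul_one] at h6
  obtain ⟨z, hz⟩ := h6
  refine ⟨z, ?_⟩
  have h7 : ((Algebra.trace ℤ (𝓞 K) w : ℤ) : ℚ) = ((n * z : ℤ) : ℚ) := by
    rw [Algebra.coe_trace_int, h5]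
    have h8 : (n : K) * η = (n : ℚ) • η := by
      rw [Algebra.smul_def]; simp
    rw [h8, map_smul, ← hz]
    push_cast
    simp
  exact_mod_cast h7

/-! ### Signs -/

private theorem PS_mul (x y : 𝓞 K) : PS S (mixedEmbedding K ((x * y : 𝓞 K) : K)) =
    PS S (mixedEmbedding K (x : K)) * PS S (mixedEmbedding K (y : K)) := by
  unfold PS
  rw [← Finset.prod_mul_distrib]
  refine Finset.prod_congr rfl fun w _ => ?_
  have h : ((x * y : 𝓞 K) : K) = (x : K) * (y : K) := rfl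
  rw [h, map_mul]
  rfl

private theorem sgn_mul (x y : 𝓞 K) : sgn S (x * y) = sgn S x * sgn S y := by
  unfold sgn
  rw [PS_mul, sign_mul]
  push_cast
  rfl

private theorem PS_ne_zero {x : 𝓞 K} (hx : x ≠ 0) : PS S (mixedEmbedding K (x : K)) ≠ 0 := by
  unfold PS
  refine Finset.prod_ne_zero_iff.2 fun w _ => ?_
  rw [mixedEmbedding_apply_isReal]
  rw [map_ne_zero]
  exact fun h => hx (RingOfIntegers.ext h)

private theorem sgn_sq {x : 𝓞 K} (hx : x ≠ 0) : sgn S x * sgn S x = 1 := by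
  have h := PS_ne_zero (S := S) hx
  unfold sgn
  rcases lt_or_gt_of_ne h with h1 | h1
  · rw [sign_neg h1]; simp
  · rw [sign_pos h1]; simp

private theorem sgn_nat {n : ℕ} (hn : 0 < n) : sgn S ((n : 𝓞 K)) = 1 := by
  have h : 0 < PS S (mixedEmbedding K ((n : 𝓞 K) : K)) := by
    unfold PS
    refine Finset.prod_pos fun w _ => ?_
    rw [mixedEmbedding_apply_isReal]
    simp only [map_natCast]
    exact_mod_cast hn
  unfold sgn
  rw [sign_pos h]; simp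

/-! ### Coprime ideals -/

private theorem exists_elt {B : Ideal (𝓞 K)} (hB0 : B ≠ ⊥) (hB : IsCoprime B (m : Ideal (𝓞 K))) :
    ∃ c ∈ B, c ≠ 0 ∧ c - 1 ∈ (m : Ideal (𝓞 K)) := by
  obtain ⟨i, hi, j, hj, hij⟩ := Ideal.isCoprime_iff_exists.1 hB
  by_cases h0 : i = 0
  · rw [h0, zero_add] at hij
    rw [hij] at hj
    have htop : (m : Ideal (𝓞 K)) = ⊤ := (Ideal.eq_top_iff_one _).2 hj
    obtain ⟨c, hc, hc0⟩ := Submodule.exists_mem_ne_zero_of_ne_bot hB0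
    exact ⟨c, hc, hc0, by rw [htop]; exact Submodule.mem_top⟩
  · refine ⟨i, hi, h0, ?_⟩
    have : i - 1 = -j := by rw [← hij]; ring
    rw [this]
    exact neg_mem hj

private theorem coprime_of_sub_one {c : 𝓞 K} (h : c - 1 ∈ (m : Ideal (𝓞 K))) :
    IsCoprime (Ideal.span {c}) (m : Ideal (𝓞 K)) :=
  Ideal.isCoprime_iff_exists.2 ⟨c, Ideal.mem_span_singleton_self c, 1 - c, by
    have : 1 - c = -(c - 1) := by ring
    rw [this]
    exact neg_mem h, by ring⟩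

/-- a complementary divisor of a principal ideal -/
private theorem exists_compl {B : II K} {c : 𝓞 K} (hc : c ∈ (B : Ideal (𝓞 K))) (hc0 : c ≠ 0) :
    ∃ C : II K, spn K c = B * C := by
  have h1 : (B : Ideal (𝓞 K)) ∣ Ideal.span {c} := by
    rw [Ideal.dvd_span_singleton]
    exact hc
  obtain ⟨C, hC⟩ := h1
  have hC0 : C ≠ 0 := by
    rintro rfl
    rw [mul_zero, Ideal.zero_eq_bot, Ideal.span_singleton_eq_bot] at hC
    exact hc0 hC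
  refine ⟨⟨C, mem_nonZeroDivisors_of_ne_zero hC0⟩, Subtype.ext ?_⟩
  rw [coe_spn hc0, hC]
  rfl

/-! ### Substitutions in the Gauss sum -/

section sums

variable [Fintype (𝓞 K ⧸ (m : Ideal (𝓞 K)))]

private theorem shift (h : HC K m χ S f) {J : Ideal (𝓞 K)}
    {sec : 𝓞 K ⧸ (m : Ideal (𝓞 K)) → 𝓞 K}
    (hsec : ∀ ρ, sec ρ ∈ J ∧ Ideal.Quotient.mk (m : Ideal (𝓞 K)) (sec ρ) = ρ) (E : 𝓞 K → ℂ)
    (hE : ∀ x ∈ J, ∀ y ∈ J, x - y ∈ (m : Ideal (𝓞 K)) → E x = E y) {b : 𝓞 K} (hb : f b ≠ 0) :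
    ∑ ρ, f (sec ρ) * E (sec ρ) = f b * ∑ ρ, f (sec ρ) * E (b * sec ρ) := by
  obtain ⟨i, hi, j, hj, hij⟩ := Ideal.isCoprime_iff_exists.1 ((h.fne_iff b).1 hb)
  obtain ⟨c, rfl⟩ := Ideal.mem_span_singleton'.1 hi
  set q := Ideal.Quotient.mk (m : Ideal (𝓞 K)) with hq
  have h1 : q c * q b = 1 := by
    have h2 : q (c * b + j) = 1 := by rw [hij, map_one]
    rwa [map_add, map_mul, (Ideal.Quotient.eq_zero_iff_mem).2 hj, add_zero] at h2
  let u : (𝓞 K ⧸ (m : Ideal (𝓞 K)))ˣ := ⟨q b, q c, by rw [mul_comm]; exact h1, h1⟩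
  have h2 : ∑ ρ, f (sec ρ) * E (sec ρ) =
      ∑ ρ, f (sec (u * ρ)) * E (sec (u * ρ)) :=
    (Equiv.sum_comp (Units.mulLeft u) fun ρ => f (sec ρ) * E (sec ρ)).symm
  rw [h2, Finset.mul_sum]
  refine Finset.sum_congr rfl fun ρ _ => ?_
  have h3 : sec (u * ρ) - b * sec ρ ∈ (m : Ideal (𝓞 K)) := by
    rw [← Ideal.Quotient.eq_zero_iff_mem, map_sub, map_mul, (hsec _).2, (hsec ρ).2]
    exact sub_self _
  rw [h.fper _ _ h3, h.fmul, hE _ (hsec _).1 _ (J.mul_mem_left b (hsec ρ).1) h3]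
  ring

private theorem gau_eq (sec : 𝓞 K ⧸ (m : Ideal (𝓞 K)) → 𝓞 K) (n : ℕ) (z : 𝓞 K) :
    gau K m f sec n z = ∑ ρ, f (sec ρ) *
      (fun y => gep n (Algebra.trace ℤ (𝓞 K) (y * z))) (sec ρ) := rfl

private theorem per {A J : Ideal (𝓞 K)} {n : ℕ} {z : 𝓞 K}
    (hA : ∀ w ∈ A, (n : ℤ) ∣ Algebra.trace ℤ (𝓞 K) w) (hn : 0 < n)
    (hz : ∀ x ∈ J, x ∈ (m : Ideal (𝓞 K)) → x * z ∈ A) :
    ∀ x ∈ J, ∀ y ∈ J, x - y ∈ (m : Ideal (𝓞 K)) →
      gep n (Algebra.trace ℤ (𝓞 K) (x * z)) = gep n (Algebra.trace ℤ (𝓞 K) (y * z)) := by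
  intro x hx y hy hxy
  refine gep_congr hn ?_
  rw [← map_sub, ← sub_mul]
  exact hA _ (hz _ (sub_mem hx hy) hxy)

end sums

theorem gauss_zero (h : HC K m χ S f) [Fintype (𝓞 K ⧸ (m : Ideal (𝓞 K)))]
    (hm : (m : Ideal (𝓞 K)) ≠ 1) {J : II K} {sec : 𝓞 K ⧸ (m : Ideal (𝓞 K)) → 𝓞 K}
    (hsec : IsSec K m J sec) (n₀ : ℕ) : gau K m f sec n₀ 0 = 0 := by
  obtain ⟨b, -, hb0, hb1⟩ := h.prim 1 (one_dvd _) (Ne.symm hm)
  have h1 := shift h hsec (fun y => gep n₀ (Algebra.trace ℤ (𝓞 K) (y * 0)))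
    (fun x _ y _ _ => by simp) hb0
  have h2 : gau K m f sec n₀ 0 = f b * gau K m f sec n₀ 0 := by
    conv_lhs => rw [gau_eq, h1]
    rw [gau_eq]
    simp only [mul_zero]
  have h3 : (1 - f b) * gau K m f sec n₀ 0 = 0 := by
    rw [sub_mul, one_mul, ← h2, sub_self]
  exact (mul_eq_zero.1 h3).resolve_left (sub_ne_zero.2 (Ne.symm hb1))

/-- The sum vanishes if `I'` is not prime to `m`. -/
private theorem gauss_nc (h : HC K m χ S f) [Fintype (𝓞 K ⧸ (m : Ideal (𝓞 K)))]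
    {J J' : II K} {n₀ : ℕ} (hJ : IsCoprime (J : Ideal (𝓞 K)) (m : Ideal (𝓞 K)))
    (hd : IsDual K m J J' n₀) {sec : 𝓞 K ⧸ (m : Ideal (𝓞 K)) → 𝓞 K} (hsec : IsSec K m J sec)
    {z : 𝓞 K} (hz : z ∈ (J' : Ideal (𝓞 K))) (hz0 : z ≠ 0) {I' : II K} (hI : spn K z = I' * J')
    (hnc : ¬ IsCoprime (I' : Ideal (𝓞 K)) (m : Ideal (𝓞 K))) : gau K m f sec n₀ z = 0 := by
  obtain ⟨hn, hdual⟩ := hd
  rw [Submonoid.coe_mul] at hdual
  -- traces
  have htr : ∀ w ∈ (J' : Ideal (𝓞 K)) * ((m : Ideal (𝓞 K)) * (J : Ideal (𝓞 K))),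
      (n₀ : ℤ) ∣ Algebra.trace ℤ (𝓞 K) w := fun w hw => by
    refine tr_dvd_of_mem (B := 1) hn ?_ hw
    rw [one_mul, ← hdual]
    ring
  -- the prime
  have hne : (I' : Ideal (𝓞 K)) ⊔ (m : Ideal (𝓞 K)) ≠ ⊤ := fun h => hnc (Ideal.isCoprime_iff_sup_eq.2 h)
  obtain ⟨P, hP, hle⟩ := Ideal.exists_le_maximal _ hne
  obtain ⟨hPI, hPm⟩ := sup_le_iff.1 hle
  obtain ⟨D, hD⟩ := Ideal.dvd_iff_le.2 hPm
  have hm0 : (m : Ideal (𝓞 K)) ≠ 0 := nonZeroDivisors.coe_ne_zero m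
  have hDm : D ≠ m := by
    intro h1
    rw [h1] at hD
    have h2 : (1 : Ideal (𝓞 K)) * m = P * m := by rw [one_mul]; exact hD
    have h3 := mul_right_cancel₀ hm0 h2
    exact hP.ne_top (by rw [← h3, Ideal.one_eq_top])
  obtain ⟨b, hbD, hb0, hb1⟩ := h.prim D ⟨P, by rw [mul_comm]; exact hD⟩ hDm
  have hzI : z ∈ (I' : Ideal (𝓞 K)) * (J' : Ideal (𝓞 K)) := by
    have h1 : (spn K z : Ideal (𝓞 K)) = I' * J' := by rw [hI]; rfl
    rw [← h1, coe_spn hz0]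
    exact Ideal.mem_span_singleton_self z
  have hzP : z ∈ P * (J' : Ideal (𝓞 K)) := Ideal.mul_mono_left hPI hzI
  have hJm : ∀ x ∈ (J : Ideal (𝓞 K)), x ∈ (m : Ideal (𝓞 K)) →
      x * z ∈ (J' : Ideal (𝓞 K)) * ((m : Ideal (𝓞 K)) * (J : Ideal (𝓞 K))) := by
    intro x hx hxm
    rw [mul_comm x z]
    refine Ideal.mul_mem_mul hz ?_
    have h1 : (m : Ideal (𝓞 K)) * (J : Ideal (𝓞 K)) = (m : Ideal (𝓞 K)) ⊓ J :=
      Ideal.mul_eq_inf_of_isCoprime hJ.symm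
    rw [h1]
    exact ⟨hxm, hx⟩
  have h1 := shift h hsec (fun y => gep n₀ (Algebra.trace ℤ (𝓞 K) (y * z)))
    (per htr hn hJm) hb0
  have h2 : gau K m f sec n₀ z = f b * gau K m f sec n₀ z := by
    conv_lhs => rw [gau_eq, h1]
    rw [gau_eq]
    congr 1
    refine Finset.sum_congr rfl fun ρ _ => ?_
    congr 1
    refine gep_congr hn ?_
    rw [← map_sub]
    refine htr _ ?_
    have h3 : b * sec ρ * z - sec ρ * z = (b - 1) * sec ρ * z := by ring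
    have h4 : (J' : Ideal (𝓞 K)) * ((m : Ideal (𝓞 K)) * (J : Ideal (𝓞 K))) =
        D * (J : Ideal (𝓞 K)) * (P * (J' : Ideal (𝓞 K))) := by
      rw [hD]; ring
    rw [h3, h4]
    exact Ideal.mul_mem_mul (Ideal.mul_mem_mul hbD (hsec ρ).1) hzP
  have h3 : (1 - f b) * gau K m f sec n₀ z = 0 := by
    rw [sub_mul, one_mul, ← h2, sub_self]
  exact (mul_eq_zero.1 h3).resolve_left (sub_ne_zero.2 (Ne.symm hb1))

/-- `B = (x / n) m 𝔇` is integral and prime to `m`. -/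
private def Dat (m : II K) (x : 𝓞 K) (n : ℕ) (B : II K) : Prop :=
  x ≠ 0 ∧ 0 < n ∧ (B : Ideal (𝓞 K)) * Ideal.span {(n : 𝓞 K)} =
    Ideal.span {x} * ((m : Ideal (𝓞 K)) * differentIdeal ℤ (𝓞 K)) ∧
    IsCoprime (B : Ideal (𝓞 K)) (m : Ideal (𝓞 K))

private theorem gau_mul (h : HC K m χ S f) [Fintype (𝓞 K ⧸ (m : Ideal (𝓞 K)))]
    {s : 𝓞 K ⧸ (m : Ideal (𝓞 K)) → 𝓞 K}
    (hs : ∀ ρ, Ideal.Quotient.mk (m : Ideal (𝓞 K)) (s ρ) = ρ) {x : 𝓞 K} {n : ℕ} {B : II K}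
    (hD : Dat m x n B) {d : 𝓞 K} (hd : f d ≠ 0) :
    gau K m f s n x = f d * gau K m f s n (d * x) := by
  have htr : ∀ w ∈ Ideal.span {x} * (m : Ideal (𝓞 K)),
      (n : ℤ) ∣ Algebra.trace ℤ (𝓞 K) w := fun w hw =>
    tr_dvd_of_mem hD.2.1 (B := (B : Ideal (𝓞 K))) (by rw [hD.2.2.1]; ring) hw
  have h1 := shift h (J := ⊤) (sec := s) (fun ρ => ⟨Submodule.mem_top, hs ρ⟩)
    (fun y => gep n (Algebra.trace ℤ (𝓞 K) (y * x)))
    (per htr hD.2.1 (fun y _ hy => by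
      rw [mul_comm y x]
      exact Ideal.mul_mem_mul (Ideal.mem_span_singleton_self x) hy)) hd
  rw [gau_eq, h1, gau_eq]
  congr 1
  refine Finset.sum_congr rfl fun ρ _ => ?_
  have h2 : d * s ρ * x = s ρ * (d * x) := by ring
  simp only [h2]

/-- `τ(y) χ(B_y) sgn(y)` does not depend on `y`. -/
private theorem gau_const (h : HC K m χ S f) [Fintype (𝓞 K ⧸ (m : Ideal (𝓞 K)))]
    {s : 𝓞 K ⧸ (m : Ideal (𝓞 K)) → 𝓞 K}
    (hs : ∀ ρ, Ideal.Quotient.mk (m : Ideal (𝓞 K)) (s ρ) = ρ) {x₁ x₂ : 𝓞 K} {n₁ n₂ : ℕ}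
    {B₁ B₂ : II K} (hD1 : Dat m x₁ n₁ B₁) (hD2 : Dat m x₂ n₂ B₂) :
    gau K m f s n₁ x₁ * χ B₁ * (sgn S x₁ : ℂ) = gau K m f s n₂ x₂ * χ B₂ * (sgn S x₂ : ℂ) := by
  obtain ⟨hx1, hn1, he1, hc1⟩ := hD1
  obtain ⟨hx2, hn2, he2, hc2⟩ := hD2
  obtain ⟨c, hcB, hc0, hcm⟩ := exists_elt (nonZeroDivisors.coe_ne_zero B₁) hc1
  obtain ⟨C, hC⟩ := exists_compl hcB hc0
  have hCi : Ideal.span {c} = (B₁ : Ideal (𝓞 K)) * (C : Ideal (𝓞 K)) := by
    rw [← coe_spn hc0, hC]; rfl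
  have hCm : IsCoprime (C : Ideal (𝓞 K)) (m : Ideal (𝓞 K)) := by
    have h1 := coprime_of_sub_one hcm
    rw [hCi] at h1
    exact h1.of_mul_left_right
  have hn1K : ((n₁ : 𝓞 K)) ≠ 0 := Nat.cast_ne_zero.2 hn1.ne'
  have hn2K : ((n₂ : 𝓞 K)) ≠ 0 := Nat.cast_ne_zero.2 hn2.ne'
  have hid : Ideal.span {c * x₂ * (n₁ : 𝓞 K)} =
      Ideal.span {(n₂ : 𝓞 K) * x₁} * ((C : Ideal (𝓞 K)) * (B₂ : Ideal (𝓞 K))) := by
    have e1 : Ideal.span {c * x₂ * (n₁ : 𝓞 K)} =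
        Ideal.span {c} * Ideal.span {x₂} * Ideal.span {(n₁ : 𝓞 K)} := by
      rw [Ideal.span_singleton_mul_span_singleton, Ideal.span_singleton_mul_span_singleton]
    have e2 : Ideal.span {(n₂ : 𝓞 K) * x₁} =
        Ideal.span {(n₂ : 𝓞 K)} * Ideal.span {x₁} := by
      rw [Ideal.span_singleton_mul_span_singleton]
    rw [e1, e2, hCi]
    calc (B₁ : Ideal (𝓞 K)) * (C : Ideal (𝓞 K)) * Ideal.span {x₂} * Ideal.span {(n₁ : 𝓞 K)} =
        (C : Ideal (𝓞 K)) * Ideal.span {x₂} *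
          ((B₁ : Ideal (𝓞 K)) * Ideal.span {(n₁ : 𝓞 K)}) := by ring
      _ = (C : Ideal (𝓞 K)) * Ideal.span {x₁} *
          (Ideal.span {x₂} * ((m : Ideal (𝓞 K)) * differentIdeal ℤ (𝓞 K))) := by rw [he1]; ring
      _ = (C : Ideal (𝓞 K)) * Ideal.span {x₁} *
          ((B₂ : Ideal (𝓞 K)) * Ideal.span {(n₂ : 𝓞 K)}) := by rw [he2]
      _ = _ := by ring
  have hdvd : (n₂ : 𝓞 K) * x₁ ∣ c * x₂ * (n₁ : 𝓞 K) := by
    rw [← Ideal.mem_span_singleton, ← Ideal.dvd_span_singleton]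
    exact ⟨_, hid⟩
  obtain ⟨d, hd⟩ := hdvd
  have hd0 : d ≠ 0 := by
    rintro rfl
    rw [mul_zero] at hd
    exact mul_ne_zero (mul_ne_zero hc0 hx2) hn1K hd
  have hdi : spn K d = C * B₂ := by
    refine Subtype.ext ?_
    rw [coe_spn hd0]
    have h1 : Ideal.span {(n₂ : 𝓞 K) * x₁} ≠ 0 := by
      rw [Ne, Ideal.zero_eq_bot, Ideal.span_singleton_eq_bot]
      exact mul_ne_zero hn2K hx1
    refine mul_left_cancel₀ h1 ?_
    rw [Ideal.span_singleton_mul_span_singleton, ← hd]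
    exact hid
  have hfd : f d ≠ 0 := by
    rw [h.fne_iff, ← coe_spn hd0, hdi]
    exact IsCoprime.mul_left hCm hc2
  have hfc : f c = 1 := by rw [h.fper c 1 hcm, h.fone]
  have hfc0 : f c ≠ 0 := by rw [hfc]; exact one_ne_zero
  have hg1 := gau_mul h hs ⟨hx1, hn1, he1, hc1⟩ hfd
  have hg2 := gau_mul h hs ⟨hx2, hn2, he2, hc2⟩ hfc0
  rw [hfc, one_mul] at hg2
  have hg3 : gau K m f s n₁ (d * x₁) = gau K m f s n₂ (c * x₂) := by
    rw [gau_eq, gau_eq]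
    refine Finset.sum_congr rfl fun ρ _ => ?_
    congr 1
    refine gep_cross hn1 hn2 ?_
    have e1 : (n₂ : 𝓞 K) * (s ρ * (d * x₁)) = (n₁ : 𝓞 K) * (s ρ * (c * x₂)) := by
      linear_combination (- s ρ) * hd
    have e2 : ∀ (n : ℕ) (x : 𝓞 K), Algebra.trace ℤ (𝓞 K) ((n : 𝓞 K) * x) =
        (n : ℤ) * Algebra.trace ℤ (𝓞 K) x := by
      intro n x
      have h1 : (n : 𝓞 K) * x = (n : ℤ) • x := by rw [zsmul_eq_mul]; push_cast; ring
      rw [h1, map_zsmul, smul_eq_mul]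
    rw [← e2, ← e2, e1]
  rw [hg3, ← hg2] at hg1
  -- signs
  have hsg : sgn S x₁ * sgn S d = sgn S c * sgn S x₂ := by
    have h1 := congrArg (sgn S) hd
    rw [sgn_mul, sgn_mul, sgn_mul, sgn_mul, sgn_nat hn1, sgn_nat hn2] at h1
    linarith
  have hsg2 : sgn S c * sgn S x₁ = sgn S d * sgn S x₂ := by
    have h1 := sgn_sq (S := S) hx1
    have h2 := sgn_sq (S := S) hx2
    calc sgn S c * sgn S x₁ = (sgn S c * sgn S x₂) * (sgn S x₂ * sgn S x₁) := by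
          linear_combination (-(sgn S c * sgn S x₁)) * h2
      _ = (sgn S x₁ * sgn S d) * (sgn S x₂ * sgn S x₁) := by rw [hsg]
      _ = sgn S d * sgn S x₂ := by linear_combination (sgn S d * sgn S x₂) * h1
  have hsgc : (sgn S c : ℂ) * sgn S x₁ = sgn S d * sgn S x₂ := by exact_mod_cast hsg2
  have hχc : χ B₁ * χ C = (sgn S c : ℂ) := by
    rw [← h.mul, ← hC, h.spn c hc0, hfc, one_mul]
  have hχd : χ C * χ B₂ = f d * (sgn S d : ℂ) := by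
    rw [← h.mul, ← hdi, h.spn d hd0]
  have hχC : χ C ≠ 0 := (h.ne_iff C).2 hCm
  refine mul_right_cancel₀ hχC ?_
  calc gau K m f s n₁ x₁ * χ B₁ * (sgn S x₁ : ℂ) * χ C =
      gau K m f s n₁ x₁ * (χ B₁ * χ C) * (sgn S x₁ : ℂ) := by ring
    _ = f d * gau K m f s n₂ x₂ * ((sgn S c : ℂ) * sgn S x₁) := by rw [hχc, hg1]; ring
    _ = gau K m f s n₂ x₂ * (f d * (sgn S d : ℂ)) * (sgn S x₂ : ℂ) := by rw [hsgc]; ring
    _ = gau K m f s n₂ x₂ * (χ C * χ B₂) * (sgn S x₂ : ℂ) := by rw [hχd]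
    _ = _ := by ring

theorem gauss (h : HC K m χ S f) [Fintype (𝓞 K ⧸ (m : Ideal (𝓞 K)))] :
    ∃ ω : ℂ, ∀ (J J' : II K) (n₀ : ℕ), IsCoprime (J : Ideal (𝓞 K)) (m : Ideal (𝓞 K)) →
      IsDual K m J J' n₀ → ∀ sec : 𝓞 K ⧸ (m : Ideal (𝓞 K)) → 𝓞 K, IsSec K m J sec →
      ∀ z ∈ (J' : Ideal (𝓞 K)), z ≠ 0 → ∀ I' : II K, spn K z = I' * J' →
        gau K m f sec n₀ z = ω * χ J * (sgn S z : ℂ) * (starRingEnd ℂ) (χ I') := by
  classical
  obtain ⟨s, hs⟩ : ∃ s : 𝓞 K ⧸ (m : Ideal (𝓞 K)) → 𝓞 K,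
      ∀ ρ, Ideal.Quotient.mk (m : Ideal (𝓞 K)) (s ρ) = ρ :=
    ⟨Function.surjInv Ideal.Quotient.mk_surjective,
      Function.surjInv_eq Ideal.Quotient.mk_surjective⟩
  obtain ⟨ω, hω⟩ : ∃ ω : ℂ, ∀ (x : 𝓞 K) (n : ℕ) (B : II K), Dat m x n B →
      gau K m f s n x * χ B * (sgn S x : ℂ) = ω := by
    by_cases hex : ∃ (x : 𝓞 K) (n : ℕ) (B : II K), Dat m x n B
    · obtain ⟨x0, n0, B0, hD0⟩ := hex
      exact ⟨_, fun x n B hD => gau_const h hs hD hD0⟩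
    · push Not at hex
      exact ⟨0, fun x n B hD => absurd hD (hex x n B)⟩
  refine ⟨ω, fun J J' n₀ hJ hd sec hsec z hz hz0 I' hI => ?_⟩
  by_cases hnc : IsCoprime (I' : Ideal (𝓞 K)) (m : Ideal (𝓞 K))
  swap
  · have h0 : χ I' = 0 := by
      by_contra h1
      exact hnc ((h.ne_iff I').1 h1)
    rw [gauss_nc h hJ hd hsec hz hz0 hI hnc, h0, map_zero, mul_zero]
  obtain ⟨hn, hdual⟩ := hd
  rw [Submonoid.coe_mul] at hdual
  obtain ⟨j, hjJ, hj0, hjm⟩ := exists_elt (nonZeroDivisors.coe_ne_zero J) hJ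
  obtain ⟨J₁, hJ1⟩ := exists_compl hjJ hj0
  have hJi : Ideal.span {j} = (J : Ideal (𝓞 K)) * (J₁ : Ideal (𝓞 K)) := by
    rw [← coe_spn hj0, hJ1]; rfl
  have hJ1m : IsCoprime (J₁ : Ideal (𝓞 K)) (m : Ideal (𝓞 K)) := by
    have h1 := coprime_of_sub_one hjm
    rw [hJi] at h1
    exact h1.of_mul_left_right
  have hzi : Ideal.span {z} = (I' : Ideal (𝓞 K)) * (J' : Ideal (𝓞 K)) := by
    rw [← coe_spn hz0, hI]; rfl
  have hD : Dat m (j * z) n₀ (J₁ * I') := by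
    refine ⟨mul_ne_zero hj0 hz0, hn, ?_, ?_⟩
    · rw [← Ideal.span_singleton_mul_span_singleton, hJi, hzi, ← hdual, Submonoid.coe_mul]
      ring
    · rw [Submonoid.coe_mul]
      exact IsCoprime.mul_left hJ1m hnc
  have htr : ∀ w ∈ (J' : Ideal (𝓞 K)) * ((m : Ideal (𝓞 K)) * (J : Ideal (𝓞 K))),
      (n₀ : ℤ) ∣ Algebra.trace ℤ (𝓞 K) w := fun w hw => by
    refine tr_dvd_of_mem (B := 1) hn ?_ hw
    rw [one_mul, ← hdual]
    ring
  have hJm : ∀ x ∈ (J : Ideal (𝓞 K)), x ∈ (m : Ideal (𝓞 K)) →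
      x * z ∈ (J' : Ideal (𝓞 K)) * ((m : Ideal (𝓞 K)) * (J : Ideal (𝓞 K))) := by
    intro x hx hxm
    rw [mul_comm x z]
    refine Ideal.mul_mem_mul hz ?_
    have h1 : (m : Ideal (𝓞 K)) * (J : Ideal (𝓞 K)) = (m : Ideal (𝓞 K)) ⊓ J :=
      Ideal.mul_eq_inf_of_isCoprime hJ.symm
    rw [h1]
    exact ⟨hxm, hx⟩
  have hgau : gau K m f sec n₀ z = gau K m f s n₀ (j * z) := by
    rw [gau_eq, gau_eq]
    refine Finset.sum_congr rfl fun ρ _ => ?_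
    have h1 : sec ρ - j * s ρ ∈ (m : Ideal (𝓞 K)) := by
      have h2 : sec ρ - j * s ρ = (sec ρ - s ρ) - (j - 1) * s ρ := by ring
      rw [h2]
      refine sub_mem ?_ (Ideal.mul_mem_right _ _ hjm)
      rw [← Ideal.Quotient.eq_zero_iff_mem, map_sub, (hsec ρ).2, hs, sub_self]
    have h2 : j * s ρ - s ρ ∈ (m : Ideal (𝓞 K)) := by
      have h3 : j * s ρ - s ρ = (j - 1) * s ρ := by ring
      rw [h3]
      exact Ideal.mul_mem_right _ _ hjm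
    have h4 := per htr hn hJm (sec ρ) (hsec ρ).1 (j * s ρ) (Ideal.mul_mem_right _ _ hjJ) h1
    have h5 : j * s ρ * z = s ρ * (j * z) := by ring
    rw [h.fper _ _ h1, h.fper _ _ h2]
    simp only
    rw [h4, h5]
  have hval := hω _ _ _ hD
  have hχj : χ J * χ J₁ = (sgn S j : ℂ) := by
    rw [← h.mul, ← hJ1, h.spn j hj0, h.fper j 1 hjm, h.fone, one_mul]
  have hI1 : χ I' * (starRingEnd ℂ) (χ I') = 1 := by
    have h1 := h.norm I' ((h.ne_iff I').2 hnc)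
    rw [Complex.mul_conj, Complex.normSq_eq_norm_sq, h1]
    simp
  have hsj : (sgn S j : ℂ) * sgn S j = 1 := by exact_mod_cast sgn_sq (S := S) hj0
  have hsz : (sgn S z : ℂ) * sgn S z = 1 := by exact_mod_cast sgn_sq (S := S) hz0
  have hsm : (sgn S (j * z) : ℂ) = sgn S j * sgn S z := by exact_mod_cast sgn_mul (S := S) j z
  rw [hgau, ← hval, h.mul, hsm]
  calc gau K m f s n₀ (j * z) = gau K m f s n₀ (j * z) * ((sgn S j : ℂ) * sgn S j) *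
        ((sgn S z : ℂ) * sgn S z) * (χ I' * (starRingEnd ℂ) (χ I')) := by
        rw [hsj, hsz, hI1]; ring
    _ = gau K m f s n₀ (j * z) * ((χ J * χ J₁) * sgn S j) *
        ((sgn S z : ℂ) * sgn S z) * (χ I' * (starRingEnd ℂ) (χ I')) := by
        rw [hχj]
    _ = _ := by ring

end Pool.HRC
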