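import Pool.Agent.HRC.Unf
import Pool.Agent.HRC.ThetaF
import Pool.Agent.HRC.Gauss
import Pool.Agent.CMZ.FuncEq

/-!
# The functional equation for the sums over a class
-/

open scoped NumberField nonZeroDivisors
open NumberField NumberField.InfinitePlace NumberField.mixedEmbedding NumberField.Units
  NumberField.Units.dirichletUnitTheorem Pool.ZD Pool.Agent.CMZ Pool.Agent.CMZ.UnfAux
  MeasureTheory

namespace Pool.HRC

set_option maxHeartbeats 1000000

variable {K : Type} [Field K] [NumberField K] {m : II K} {χ : II K → ℂ} {S : Finset (RP K)}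
  {f : 𝓞 K → ℂ}

/-- Every ideal class contains an ideal prime to `m`. -/
theorem exists_coprime_class (m : II K) (A : ClassGroup (𝓞 K)) :
    ∃ J : II K, ClassGroup.mk0 J = A ∧ IsCoprime (J : Ideal (𝓞 K)) (m : Ideal (𝓞 K)) := by
  by_cases hm : (m : Ideal (𝓞 K)) = 1
  · obtain ⟨J, hJ⟩ := ClassGroup.mk0_surjective A
    refine ⟨J, hJ, ?_⟩
    rw [hm]
    exact isCoprime_one_right
  obtain ⟨I, hI⟩ := ClassGroup.mk0_surjective A⁻¹
  have hI0 : (I : Ideal (𝓞 K)) ≠ 0 := nonZeroDivisors.coe_ne_zero I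
  have hm0 : (m : Ideal (𝓞 K)) ≠ 0 := nonZeroDivisors.coe_ne_zero m
  obtain ⟨a, ha⟩ := IsDedekindDomain.exists_sup_span_eq
    (J := (I : Ideal (𝓞 K))) (I := (m : Ideal (𝓞 K)) * (I : Ideal (𝓞 K))) Ideal.mul_le_right
    (mul_ne_zero hm0 hI0)
  have haI : a ∈ (I : Ideal (𝓞 K)) := by
    rw [← ha]
    exact Ideal.mem_sup_right (Ideal.mem_span_singleton_self a)
  have ha0 : a ≠ 0 := by
    rintro rfl
    rw [Ideal.span_singleton_eq_bot.2 rfl, sup_bot_eq] at ha
    have : (m : Ideal (𝓞 K)) * (I : Ideal (𝓞 K)) = 1 * I := by rw [ha, one_mul]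
    exact hm (mul_right_cancel₀ hI0 this)
  obtain ⟨J, hJ⟩ := FuncEqAux.exists_cofactor (I : Ideal (𝓞 K)) haI ha0
  refine ⟨J, ?_, ?_⟩
  · have h1 : ClassGroup.mk0 (J * I) = 1 := by
      rw [ClassGroup.mk0_eq_one_iff]
      rw [Submonoid.coe_mul, hJ]
      exact ⟨⟨a, rfl⟩⟩
    rw [map_mul, hI] at h1
    exact (eq_of_mul_inv_eq_one h1)
  · rw [Ideal.isCoprime_iff_sup_eq]
    rw [← hJ] at ha
    have h1 : ((J : Ideal (𝓞 K)) ⊔ (m : Ideal (𝓞 K))) * (I : Ideal (𝓞 K)) = 1 * I := by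
      rw [Ideal.sup_mul, sup_comm, ha, one_mul]
    have h2 := mul_right_cancel₀ hI0 h1
    rw [h2, Ideal.one_eq_top]

/-- The sum over a class. -/
noncomputable def ZA (S : Finset (RP K)) (a : II K → ℂ) (A : ClassGroup (𝓞 K)) (v : ℝ) : ℂ :=
  ∑' I : Cls K A, a I * (ker K S (v + Real.log (nm K I)) : ℂ)

theorem HC.chi_conj (h : HC K m χ S f) {J : II K}
    (hJ : IsCoprime (J : Ideal (𝓞 K)) (m : Ideal (𝓞 K))) :
    (starRingEnd ℂ) (χ J) * χ J = 1 := by
  have h1 := h.norm J ((h.ne_iff J).2 hJ)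
  rw [mul_comm, Complex.mul_conj, Complex.normSq_eq_norm_sq, h1]
  simp

theorem class_eq (h : HC K m χ S f) : ∃ ω V : ℂ, ∀ A : ClassGroup (𝓞 K), ∃ J : II K,
    IsCoprime (J : Ideal (𝓞 K)) (m : Ideal (𝓞 K)) ∧ ClassGroup.mk0 J = A⁻¹ ∧ ∀ v : ℝ,
      (torsionOrder K : ℂ) * ZA S χ A v + V * e0 m S * (starRingEnd ℂ) (χ J) =
        ((Real.exp (-v) / (nm K m * √|(discr K : ℝ)|) : ℝ) : ℂ) * (-Complex.I) ^ S.card *
          (ω * ((torsionOrder K : ℂ) * ZA S (fun I => (starRingEnd ℂ) (χ I))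
            (A⁻¹ * ClassGroup.mk0 (m * dI K)) (-v - Real.log (DM K m))) +
            V * e0 m S * (starRingEnd ℂ) (χ J)) := by
  classical
  have hfin : Finite (𝓞 K ⧸ (m : Ideal (𝓞 K))) :=
    Ideal.finiteQuotientOfFreeOfNeBot _ (nonZeroDivisors.coe_ne_zero m)
  have : Fintype (𝓞 K ⧸ (m : Ideal (𝓞 K))) := Fintype.ofFinite _
  obtain ⟨ω, hω⟩ := gauss h
  refine ⟨ω, 2 ^ Fintype.card (InfinitePlace K) * (volume.real (FD K) : ℂ), fun A => ?_⟩
  obtain ⟨J, hJA, hJ⟩ := exists_coprime_class m A⁻¹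
  refine ⟨J, hJ, hJA, fun v => ?_⟩
  -- the dual ideal
  set M : II K := m * J * dI K with hM
  set n₀ : ℕ := Ideal.absNorm (M : Ideal (𝓞 K)) with hn₀def
  have hn₀ : 0 < n₀ := by
    rw [hn₀def, Nat.pos_iff_ne_zero, Ne, Ideal.absNorm_eq_zero_iff]
    exact nonZeroDivisors.coe_ne_zero _
  have hn₀0 : ((n₀ : ℕ) : 𝓞 K) ≠ 0 := by exact_mod_cast hn₀.ne'
  obtain ⟨J', hJ'⟩ := FuncEqAux.exists_cofactor (M : Ideal (𝓞 K)) (Ideal.absNorm_mem _) hn₀0
  have hd : IsDual K m J J' n₀ := ⟨hn₀, hJ'⟩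
  have hJJ2 : J' * (m * J * dI K) = spn K (n₀ : 𝓞 K) := by
    apply Subtype.ext
    rw [coe_spn hn₀0]
    exact hJ'
  have hD : (0 : ℝ) < |(discr K : ℝ)| := abs_pos.2 (by exact_mod_cast discr_ne_zero K)
  have hnorm : nm K J' * (nm K m * nm K J * |(discr K : ℝ)|) = (n₀ : ℝ) ^ nn K := by
    rw [← nm_dI K, ← nmul, ← nmul, ← nmul, hJJ2]
    unfold nm
    rw [coe_spn hn₀0, Ideal.absNorm_span_singleton]
    have h1 : Algebra.norm ℤ ((n₀ : ℕ) : 𝓞 K) = (n₀ : ℤ) ^ nn K := by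
      have h2 := Algebra.norm_algebraMap_of_basis (RingOfIntegers.basis K) (n₀ : ℤ)
      rw [← Module.finrank_eq_card_basis (RingOfIntegers.basis K), RingOfIntegers.rank] at h2
      rw [← h2]
      simp
    rw [h1]
    simp
  have hJ'A : ClassGroup.mk0 J' = (A⁻¹ * ClassGroup.mk0 (m * dI K))⁻¹ := by
    have h1 : ClassGroup.mk0 (J' * (m * J * dI K)) = 1 := by
      rw [hJJ2, ClassGroup.mk0_eq_one_iff, coe_spn hn₀0]
      exact ⟨⟨_, rfl⟩⟩
    rw [map_mul, map_mul, map_mul, hJA] at h1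
    have h2 := eq_inv_of_mul_eq_one_left h1
    rw [h2, map_mul]
    congr 1
    rw [mul_comm (ClassGroup.mk0 m) A⁻¹, mul_assoc]
  have hmp : 0 < nm K m := nm_pos m
  have hJp : 0 < nm K J := nm_pos J
  have hJp' : 0 < nm K J' := nm_pos J'
  have hn₀R : (0 : ℝ) < n₀ := by exact_mod_cast hn₀
  have hnn : (0 : ℝ) < nn K := by
    have : 0 < nn K := Module.finrank_pos
    exact_mod_cast this
  -- the parameters
  set c : ℝ := Real.exp ((v - Real.log (nm K J)) * (2 / nn K)) with hcdef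
  have hc : 0 < c := Real.exp_pos _
  have hlogc : Real.log (nm K J) + nn K / 2 * Real.log c = v := by
    rw [hcdef, Real.log_exp]
    field_simp
    ring
  have hsq : √c ^ nn K = Real.exp v / nm K J := by
    have h1 : √c = Real.exp ((v - Real.log (nm K J)) / nn K) := by
      rw [Real.sqrt_eq_iff_mul_self_eq (hc.le) (Real.exp_pos _).le, ← Real.exp_add, hcdef]
      congr 1
      ring
    rw [h1, ← Real.exp_nat_mul, mul_div_cancel₀ _ hnn.ne', Real.exp_sub, Real.exp_log hJp]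
  set c' : ℝ := 1 / (c * (n₀ : ℝ) ^ 2) with hc'def
  have hc' : 0 < c' := by positivity
  have hlogc' : Real.log (nm K J') + nn K / 2 * Real.log c' = -v - Real.log (DM K m) := by
    have h1 : Real.log c' = -Real.log c - 2 * Real.log n₀ := by
      rw [hc'def, one_div, Real.log_inv, Real.log_mul hc.ne' (pow_ne_zero _ hn₀R.ne'),
        Real.log_pow]
      push_cast
      ring
    have h2 := congrArg Real.log hnorm
    rw [Real.log_mul hJp'.ne' (by positivity), Real.log_mul (by positivity) hD.ne',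
      Real.log_mul hmp.ne' hJp.ne', Real.log_pow] at h2
    have h3 : Real.log (DM K m) = Real.log |(discr K : ℝ)| + Real.log (nm K m) := by
      unfold DM
      rw [Real.log_mul hD.ne' hmp.ne']
    rw [h1, h3]
    have h4 : (nn K : ℝ) / 2 * Real.log c = v - Real.log (nm K J) := by linarith
    have h5 : (nn K : ℝ) / 2 * (-Real.log c - 2 * Real.log n₀) =
        -(nn K / 2 * Real.log c) - nn K * Real.log n₀ := by ring
    rw [h5, h4, ← h2]
    ring
  -- the unfolding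
  have hcls := fun (I : II K) => h.chi_norm_le I
  have U1 := (class_unf K S J A hJA χ hcls
    (fun x => (starRingEnd ℂ) (χ J) * χ (spn K x)) (fun x I hx hI => by
      rw [← hI, h.mul, mul_comm (χ I), ← mul_assoc, h.chi_conj hJ, one_mul]) hc).1
  have U2 := (class_unf K S J' (A⁻¹ * ClassGroup.mk0 (m * dI K)) hJ'A
    (fun I => (starRingEnd ℂ) (χ I)) (fun I => by rw [RCLike.norm_conj]; exact hcls I)
    (fun z => if hz : z ∈ (J' : Ideal (𝓞 K)) ∧ z ≠ 0 then (starRingEnd ℂ) (χ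
      (Pool.Agent.TRF.Gen.cl K J' (A⁻¹ * ClassGroup.mk0 (m * dI K)) hJ'A ⟨z, hz⟩)) else 0)
    (fun x I hx hI => by
      have hxJ : x ∈ (J' : Ideal (𝓞 K)) := by
        have h1 : x ∈ ((spn K x : II K) : Ideal (𝓞 K)) := by
          rw [coe_spn hx]
          exact Ideal.mem_span_singleton_self x
        rw [← hI, Submonoid.coe_mul] at h1
        exact Ideal.mul_le_right h1
      rw [dif_pos ⟨hxJ, hx⟩]
      have h2 := Pool.Agent.TRF.Gen.cl_spec K J' (A⁻¹ * ClassGroup.mk0 (m * dI K)) hJ'A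
        ⟨x, hxJ, hx⟩
      have h3 : (Pool.Agent.TRF.Gen.cl K J' (A⁻¹ * ClassGroup.mk0 (m * dI K)) hJ'A
          ⟨x, hxJ, hx⟩ : II K) = I := by
        apply ii_cancel (C := J')
        rw [mul_comm, ← h2, ← hI, mul_comm]
      rw [h3]) hc').2
  rw [hlogc] at U1
  rw [hlogc'] at U2
  obtain ⟨sec, hsec⟩ := exists_sec m hJ
  set F1 : logSpace K → ℂ := fun t => ∑' x : NZ K J, χ (spn K x) *
        ((|th K S c (sg K t * mixedEmbedding K ((x : 𝓞 K) : K))| : ℝ) : ℂ) with hF1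
  set F2 : logSpace K → ℂ := fun t => ∑' z : NZ K J', (starRingEnd ℂ)
      (χ (Pool.Agent.TRF.Gen.cl K J' (A⁻¹ * ClassGroup.mk0 (m * dI K)) hJ'A z)) *
          ((|th K S c' (sg K (-t) * mixedEmbedding K ((z : 𝓞 K) : K))| : ℝ) : ℂ) with hF2
  have hU1 : (fun t => ∑' x : NZ K J, (starRingEnd ℂ) (χ J) * χ (spn K x) *
        ((|th K S c (sg K t * mixedEmbedding K ((x : 𝓞 K) : K))| : ℝ) : ℂ)) =
      fun t => (starRingEnd ℂ) (χ J) * F1 t := by
    funext t
    rw [hF1]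
    simp only
    rw [← tsum_mul_left]
    exact tsum_congr fun x => by ring
  have hU2 : (fun t => ∑' x : NZ K J', (if hz : (x : 𝓞 K) ∈ (J' : Ideal (𝓞 K)) ∧ (x : 𝓞 K) ≠ 0 then
      (starRingEnd ℂ) (χ
      (Pool.Agent.TRF.Gen.cl K J' (A⁻¹ * ClassGroup.mk0 (m * dI K)) hJ'A ⟨x, hz⟩)) else 0) *
        ((|th K S c' (sg K (-t) * mixedEmbedding K ((x : 𝓞 K) : K))| : ℝ) : ℂ)) = F2 := by
    funext t
    rw [hF2]
    refine tsum_congr fun x => ?_
    rw [dif_pos x.2]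
  have E1 : (torsionOrder K : ℂ) * ZA S χ A v =
      2 ^ Fintype.card (InfinitePlace K) * ((starRingEnd ℂ) (χ J) * ∫ t in FD K, F1 t) := by
    unfold ZA
    rw [U1.2]
    congr 1
    rw [← integral_const_mul ((starRingEnd ℂ) (χ J)) F1]
    exact congrArg (fun g : logSpace K → ℂ => ∫ t in FD K, g t) hU1
  have E2 : (torsionOrder K : ℂ) * ZA S (fun I => (starRingEnd ℂ) (χ I))
      (A⁻¹ * ClassGroup.mk0 (m * dI K)) (-v - Real.log (DM K m)) =
      2 ^ Fintype.card (InfinitePlace K) * ∫ t in FD K, F2 t := by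
    unfold ZA
    rw [U2.2]
    congr 1
    exact congrArg (fun g : logSpace K → ℂ => ∫ t in FD K, g t) hU2
  have I2 : IntegrableOn F2 (FD K) := by
    have h1 := U2.1
    rw [hU2] at h1
    exact h1
  -- the theta transformation
  set C₀ : ℂ := ((Real.exp (-v) / (nm K m * √|(discr K : ℝ)|) : ℝ) : ℂ) *
    (-Complex.I) ^ S.card with hC₀
  have hT : ∀ t, F1 t = C₀ * (ω * χ J * F2 t + e0 m S) - e0 m S := by
    intro t
    have h1 := theta_F h hJ hd hsec (fun hm n₀ => gauss_zero h hm hsec n₀)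
      (fun z : NZ K J' => (Pool.Agent.TRF.Gen.cl K J'
        (A⁻¹ * ClassGroup.mk0 (m * dI K)) hJ'A z : II K))
      (fun z => hω J J' n₀ hJ hd sec hsec z z.2.1 z.2.2 _
        (Pool.Agent.TRF.Gen.cl_spec K J' _ hJ'A z)) hc t
    have h2 : ((√c ^ nn K * nm K (m * J) * √|(discr K : ℝ)| : ℝ) : ℂ)⁻¹ =
        ((Real.exp (-v) / (nm K m * √|(discr K : ℝ)|) : ℝ) : ℂ) := by
      rw [← Complex.ofReal_inv]
      congr 1
      rw [hsq, nmul, Real.exp_neg]
      have : 0 < √|(discr K : ℝ)| := Real.sqrt_pos.2 hD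
      field_simp
    rw [h2, ← hC₀] at h1
    rw [← h1]
    ring
  have hV : volume (FD K) ≠ ⊤ := by
    have hb : Bornology.IsBounded (FD K) := ZSpan.fundamentalDomain_isBounded _
    exact hb.measure_lt_top.ne
  have hT2 : ∫ t in FD K, F1 t = C₀ * (ω * χ J * ∫ t in FD K, F2 t) +
      (volume.real (FD K) : ℂ) * (C₀ * e0 m S - e0 m S) := by
    have h1 : ∫ t in FD K, F1 t = ∫ t in FD K, ((C₀ * (ω * χ J)) * F2 t +
        (C₀ * e0 m S - e0 m S)) := by
      refine integral_congr_ae (Filter.Eventually.of_forall fun t => ?_)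
      simp only
      rw [hT t]
      ring
    rw [h1, integral_add (I2.const_mul _) (integrable_const_iff.2 (Or.inr ⟨by
      rw [Measure.restrict_apply_univ]; exact lt_top_iff_ne_top.2 hV⟩)), integral_const_mul,
      setIntegral_const, Complex.real_smul]
    ring
  rw [E1, E2, hT2]
  have hcc := h.chi_conj hJ
  linear_combination (2 ^ Fintype.card (InfinitePlace K) * C₀ * ω * ∫ t in FD K, F2 t) * hcc

end Pool.HRC
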