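import Pool.Agent.TRF.Unf

/-!
# L-functions of ray class characters of number fields: common definitions

`K` is any number field, `χ` a primitive character of a narrow ray class group modulo the integral
ideal `m` (with sign characters at a set `S` of real places). Library HRC, architect helper72.
-/

open scoped NumberField nonZeroDivisors
open NumberField NumberField.InfinitePlace NumberField.mixedEmbedding NumberField.Units
  NumberField.Units.dirichletUnitTheorem Pool.ZD Pool.Agent.CMZ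

namespace Pool.HRC

noncomputable section

variable (K : Type) [Field K] [NumberField K]

/-- `x` is totally positive. (No condition if `K` has no real embedding.) -/
def TotPos (x : 𝓞 K) : Prop := ∀ φ : K →+* ℝ, 0 < φ (x : K)

/-- `χ` is a character of the narrow ray class group of `K` modulo `m`, as a function on the ideals
of `𝓞 K`: it is completely multiplicative, nonzero exactly at the nonzero ideals prime to `m`, and
trivial on the ray, the ideals `(x)`, `x ≠ 0`, with `x ≡ 1 (mod m)` totally positive. -/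
structure IsRayClassChar (m : Ideal (𝓞 K)) (χ : Ideal (𝓞 K) → ℂ) : Prop where
  map_one : χ 1 = 1
  map_mul : ∀ I J : Ideal (𝓞 K), χ (I * J) = χ I * χ J
  ne_zero_iff : ∀ I : Ideal (𝓞 K), χ I ≠ 0 ↔ I ≠ ⊥ ∧ IsCoprime I m
  map_ray : ∀ x : 𝓞 K, x ≠ 0 → x - 1 ∈ m → TotPos K x → χ (Ideal.span {x}) = 1

/-- The finite part of the conductor of `χ` is exactly `m`: `χ` does not come from a proper
divisor `D` of `m`. -/
def IsPrim (m : Ideal (𝓞 K)) (χ : Ideal (𝓞 K) → ℂ) : Prop :=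
  ∀ D : Ideal (𝓞 K), D ∣ m → D ≠ m →
    ∃ x : 𝓞 K, x ≠ 0 ∧ x - 1 ∈ D ∧ TotPos K x ∧ χ (Ideal.span {x}) ≠ 0 ∧
      χ (Ideal.span {x}) ≠ 1

/-- The real places. -/
abbrev RP : Type := {w : InfinitePlace K // IsReal w}

variable {K} in
/-- The product of the coordinates at the real places of `S`. -/
def PS (S : Finset (RP K)) (z : mixedSpace K) : ℝ := ∏ w ∈ S, z.1 w

variable {K} in
/-- The product of the signs of `x` at the real places of `S`. -/
def sgn (S : Finset (RP K)) (x : 𝓞 K) : ℝ :=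
  ((SignType.sign (PS S (mixedEmbedding K (x : K))) : SignType) : ℝ)

/-- The quadratic form `∑ |x_w|²` (real places) `+ 2 ∑ |x_w|²` (complex places). -/
def qf (z : mixedSpace K) : ℝ := ∑ w : InfinitePlace K, (mult w : ℝ) * normAtPlace w z ^ 2

/-- The working form of a primitive ray class character modulo `m` with sign set `S`:
`χ((x)) = f(x) sgn_S(x)`, `f` a primitive character modulo `m`. -/
structure HC (m : II K) (χ : II K → ℂ) (S : Finset (RP K)) (f : 𝓞 K → ℂ) : Prop where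
  one : χ 1 = 1
  mul : ∀ I J, χ (I * J) = χ I * χ J
  ne_iff : ∀ I : II K, χ I ≠ 0 ↔ IsCoprime (I : Ideal (𝓞 K)) (m : Ideal (𝓞 K))
  norm : ∀ I, χ I ≠ 0 → ‖χ I‖ = 1
  fone : f 1 = 1
  fmul : ∀ x y, f (x * y) = f x * f y
  fper : ∀ x y, x - y ∈ (m : Ideal (𝓞 K)) → f x = f y
  fne_iff : ∀ x, f x ≠ 0 ↔ IsCoprime (Ideal.span {x}) (m : Ideal (𝓞 K))
  fnorm : ∀ x, f x ≠ 0 → ‖f x‖ = 1
  spn : ∀ x, x ≠ 0 → χ (spn K x) = f x * sgn S x
  prim : ∀ D : Ideal (𝓞 K), D ∣ (m : Ideal (𝓞 K)) → D ≠ m → ∃ b : 𝓞 K, b - 1 ∈ D ∧ f b ≠ 0 ∧ f b ≠ 1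

/-- Representatives in `J` of the residue classes modulo `m`. -/
def IsSec (m J : II K) (sec : 𝓞 K ⧸ (m : Ideal (𝓞 K)) → 𝓞 K) : Prop :=
  ∀ ρ, sec ρ ∈ (J : Ideal (𝓞 K)) ∧ Ideal.Quotient.mk (m : Ideal (𝓞 K)) (sec ρ) = ρ

/-- `J' (m J 𝔇) = (n₀)`: the lattice `n₀⁻¹ J'` is dual to `m J` under the trace. -/
def IsDual (m J J' : II K) (n₀ : ℕ) : Prop :=
  0 < n₀ ∧ (J' : Ideal (𝓞 K)) * (((m * J : II K) : Ideal (𝓞 K)) * differentIdeal ℤ (𝓞 K)) =
    Ideal.span {(n₀ : 𝓞 K)}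

/-- The Gauss sum `∑_ρ f(ρ) e(Tr(sec(ρ) z) / n₀)`. -/
def gau (m : II K) [Fintype (𝓞 K ⧸ (m : Ideal (𝓞 K)))] (f : 𝓞 K → ℂ)
    (sec : 𝓞 K ⧸ (m : Ideal (𝓞 K)) → 𝓞 K) (n₀ : ℕ) (z : 𝓞 K) : ℂ :=
  ∑ ρ, f (sec ρ) * Complex.exp (2 * Real.pi * Complex.I *
    ((Algebra.trace ℤ (𝓞 K) (sec ρ * z) : ℤ) : ℂ) / (n₀ : ℂ))

/-- The conductor `|d_K| N(m)`. -/
def DM (m : II K) : ℝ := |(discr K : ℝ)| * nm K m

/-! ### The kernel -/

open Classical in
/-- The local kernel at the infinite place `w` (additive variable). -/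
def hw (S : Finset (RP K)) (w : InfinitePlace K) (l : ℝ) : ℝ :=
  if h : IsReal w then
    (if (⟨w, h⟩ : RP K) ∈ S then 2 * Real.exp l else 2) * Real.exp (-(Real.pi * Real.exp (2 * l)))
  else 2 * Real.exp (-(2 * Real.pi * Real.exp l))

open scoped Classical in
/-- The kernel (additive variable): `ker(v) = ∫ ∏_w h_w(mult(w) (v/n + log sc_w(t))) dt`. -/
def ker (S : Finset (RP K)) (v : ℝ) : ℝ :=
  ∫ t : logSpace K, ∏ w : InfinitePlace K,
    hw K S w ((mult w : ℝ) * (v / nn K + Real.log (sc K t w)))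

/-- The gamma factor `Γ_ℝ(s)^(r₁ - |S| + r₂) Γ_ℝ(s+1)^(|S| + r₂)`. -/
def GF (S : Finset (RP K)) (s : ℂ) : ℂ :=
  Complex.Gammaℝ s ^ (nrRealPlaces K - S.card + nrComplexPlaces K) *
    Complex.Gammaℝ (s + 1) ^ (S.card + nrComplexPlaces K)

/-- `g(v) = e^(v/2) ∑ χ(I) ker(v + log N I - (log D)/2)`. -/
def gg (m : II K) (χ : II K → ℂ) (S : Finset (RP K)) (v : ℝ) : ℂ :=
  (Real.exp (v / 2) : ℂ) * ∑' I : II K, χ I *
    (ker K S (v + Real.log (nm K I) - Real.log (DM K m) / 2) : ℂ)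

/-- The completed L-function `D^(s/2) GF(s) L(s,χ)`. -/
def LamX (m : II K) (χ : II K → ℂ) (S : Finset (RP K)) (s : ℂ) : ℂ :=
  ∫ v : ℝ, gg K m χ S v * Complex.exp ((s - 1 / 2) * v)

/-- The L-function. -/
def LX (m : II K) (χ : II K → ℂ) (S : Finset (RP K)) (s : ℂ) : ℂ :=
  LamX K m χ S s * (DM K m : ℂ) ^ (-s / 2) * (GF K S s)⁻¹

end

end Pool.HRC
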