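import Pool.Agent.HRC.Defs
import Pool.Agent.TRF.Grow

/-!
# Gamma factors

PROOF. As in `Pool/Agent/TRF/Grow.lean` (`ratio_bound`, `inv_Gammaℝ_bound`, `Gammaℝ_conj`): for the factor
`Γ_ℝ(s)` use `Complex.inv_Gammaℝ_one_sub`, for `Γ_ℝ(s+1)` use `Complex.inv_Gammaℝ_two_sub` (sine in place of
cosine); the number of factors is `n = r₁ + 2 r₂` because `|S| ≤ r₁`.
-/

open scoped NumberField nonZeroDivisors
open NumberField NumberField.InfinitePlace NumberField.mixedEmbedding NumberField.Units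
  NumberField.Units.dirichletUnitTheorem Pool.ZD Pool.Agent.CMZ

namespace Pool.HRC

set_option linter.unusedSectionVars false

open Complex in
/-- `|Γ_ℂ(3/2 + iτ)| cosh(πτ/2)` grows linearly. -/
theorem Gam_cosh : ∃ C : ℝ, 0 < C ∧ ∀ τ : ℝ,
    ‖Complex.Gammaℂ (3 / 2 + τ * I)‖ * Real.cosh (Real.pi * τ / 2) ≤ C * (1 + |τ|) := by
  have hpi := Real.pi_pos
  set c : ℝ := ‖(2 : ℂ) * (2 * Real.pi : ℂ) ^ (-(3 / 2 : ℂ))‖ with hc
  refine ⟨(c + 1) * Real.pi, by positivity, fun τ => ?_⟩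
  have h1 : ‖Gammaℂ (3 / 2 + τ * I)‖ = c * ‖Complex.Gamma (3 / 2 + τ * I)‖ := by
    rw [Gammaℂ_def, norm_mul, hc]
    congr 1
    have h2 : (2 * Real.pi : ℂ) = ((2 * Real.pi : ℝ) : ℂ) := by push_cast; ring
    rw [norm_mul, norm_mul, h2, Complex.norm_cpow_eq_rpow_re_of_pos (by positivity),
      Complex.norm_cpow_eq_rpow_re_of_pos (by positivity)]
    congr 2
    simp
  have h4 : ‖Complex.Gamma (3 / 2 + τ * I)‖ * Real.cosh (Real.pi * τ / 2) ≤
      Real.pi * (1 + |τ|) := by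
    have h5 := Pool.Agent.TRF.norm_Gamma_three_half_sq τ
    have h6 := Pool.Agent.TRF.cosh_sq_le (Real.pi * τ)
    have hch : 0 < Real.cosh (Real.pi * τ) := Real.cosh_pos _
    have hch2 : 0 < Real.cosh (Real.pi * τ / 2) := Real.cosh_pos _
    have h7 : (‖Complex.Gamma (3 / 2 + τ * I)‖ * Real.cosh (Real.pi * τ / 2)) ^ 2 ≤
        (Real.pi * (1 + |τ|)) ^ 2 := by
      rw [mul_pow, h5]
      have e1 : (1 / 4 + τ ^ 2) * (Real.pi / Real.cosh (Real.pi * τ)) *
          Real.cosh (Real.pi * τ / 2) ^ 2 ≤ (1 / 4 + τ ^ 2) * Real.pi := by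
        have : Real.pi / Real.cosh (Real.pi * τ) * Real.cosh (Real.pi * τ / 2) ^ 2 ≤ Real.pi := by
          rw [div_mul_eq_mul_div, div_le_iff₀ hch]
          exact mul_le_mul_of_nonneg_left h6 hpi.le
        calc (1 / 4 + τ ^ 2) * (Real.pi / Real.cosh (Real.pi * τ)) *
          Real.cosh (Real.pi * τ / 2) ^ 2 = (1 / 4 + τ ^ 2) * (Real.pi / Real.cosh (Real.pi * τ) *
          Real.cosh (Real.pi * τ / 2) ^ 2) := by ring
          _ ≤ _ := mul_le_mul_of_nonneg_left this (by positivity)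
      refine e1.trans ?_
      have e2 : τ ^ 2 = |τ| ^ 2 := (sq_abs τ).symm
      have e3 : 0 ≤ |τ| := abs_nonneg τ
      have e4 : 3 < Real.pi := Real.pi_gt_three
      rw [e2, mul_pow]
      have e5 : 1 / 4 + |τ| ^ 2 ≤ (1 + |τ|) ^ 2 := by nlinarith
      have e6 : Real.pi ≤ Real.pi ^ 2 := by nlinarith
      calc (1 / 4 + |τ| ^ 2) * Real.pi ≤ (1 + |τ|) ^ 2 * Real.pi ^ 2 :=
            mul_le_mul e5 e6 hpi.le (by positivity)
        _ = Real.pi ^ 2 * (1 + |τ|) ^ 2 := by ring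
    exact (pow_le_pow_iff_left₀ (by positivity) (by positivity) two_ne_zero).1 h7
  rw [h1]
  have hc0 : 0 ≤ c := norm_nonneg _
  calc c * ‖Complex.Gamma (3 / 2 + τ * I)‖ * Real.cosh (Real.pi * τ / 2)
      = c * (‖Complex.Gamma (3 / 2 + τ * I)‖ * Real.cosh (Real.pi * τ / 2)) := by ring
    _ ≤ c * (Real.pi * (1 + |τ|)) := by gcongr
    _ ≤ (c + 1) * Real.pi * (1 + |τ|) := by
      have : 0 ≤ Real.pi * (1 + |τ|) := by positivity
      nlinarith

open Complex in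
theorem norm_sin_le (s : ℂ) : ‖Complex.sin s‖ ≤ Real.cosh s.im := by
  have h1 : Complex.sin s = (Complex.exp (-s * I) - Complex.exp (s * I)) * I / 2 := rfl
  rw [h1, norm_div, norm_mul, Complex.norm_I, mul_one, Real.cosh_eq]
  have h2 : ‖Complex.exp (s * I)‖ = Real.exp (-s.im) := by
    rw [Complex.norm_exp]; simp
  have h3 : ‖Complex.exp (-s * I)‖ = Real.exp s.im := by
    rw [Complex.norm_exp]; simp
  have h4 := norm_sub_le (Complex.exp (-s * I)) (Complex.exp (s * I))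
  rw [h2, h3] at h4
  have h5 : ‖(2 : ℂ)‖ = 2 := by simp
  rw [h5]
  linarith

open Complex in
/-- the two ratios of gamma factors on the line `Re s = -1/2` -/
theorem Gam_ratio : ∃ C : ℝ, 0 < C ∧ ∀ s : ℂ, s.re = -(1 / 2) →
    ‖Gammaℝ (1 - (starRingEnd ℂ) s)‖ * ‖(Gammaℝ s)⁻¹‖ ≤ C * (1 + |s.im|) ∧
    ‖Gammaℝ (1 - (starRingEnd ℂ) s + 1)‖ * ‖(Gammaℝ (s + 1))⁻¹‖ ≤ C * (1 + |s.im|) := by
  obtain ⟨C, hC, h⟩ := Gam_cosh
  refine ⟨C, hC, fun s hs => ?_⟩
  set z : ℂ := 1 - s with hz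
  have hzre : z.re = 3 / 2 := by
    rw [hz, Complex.sub_re, Complex.one_re, hs]
    norm_num
  have hzim : z.im = -s.im := by
    rw [hz, Complex.sub_im, Complex.one_im, zero_sub]
  have hze : z = 3 / 2 + ((-s.im : ℝ) : ℂ) * I := by
    apply Complex.ext
    · rw [hzre]; simp
    · rw [hzim]; simp
  have hzn : ∀ n : ℕ, z ≠ -(n : ℂ) := by
    intro n hn
    have h1 := congrArg Complex.re hn
    rw [hzre] at h1
    simp only [Complex.neg_re, Complex.natCast_re] at h1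
    have h2 : (0 : ℝ) ≤ n := Nat.cast_nonneg n
    linarith
  have hG := h (-s.im)
  rw [← hze, abs_neg] at hG
  have him : ((Real.pi : ℂ) * z / 2).im = Real.pi * (-s.im) / 2 := by
    have : (Real.pi : ℂ) * z / 2 = ((Real.pi / 2 : ℝ) : ℂ) * z := by push_cast; ring
    rw [this, Complex.im_ofReal_mul, hzim]
    ring
  have hcos : ‖Complex.cos ((Real.pi : ℂ) * z / 2)‖ ≤ Real.cosh (Real.pi * (-s.im) / 2) := by
    rw [← him]
    exact Pool.Agent.TRF.norm_cos_le _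
  have hsin : ‖Complex.sin ((Real.pi : ℂ) * z / 2)‖ ≤ Real.cosh (Real.pi * (-s.im) / 2) := by
    rw [← him]
    exact norm_sin_le _
  have hc1 : 1 - (starRingEnd ℂ) s = (starRingEnd ℂ) z := by
    rw [hz, map_sub, map_one]
  have hc2 : (starRingEnd ℂ) z + 1 = (starRingEnd ℂ) (z + 1) := by
    rw [map_add, map_one]
  rw [hc1, hc2, Pool.Agent.TRF.Gammaℝ_conj, Pool.Agent.TRF.Gammaℝ_conj, Complex.norm_conj,
    Complex.norm_conj]
  have hne1 : Gammaℝ z ≠ 0 := Complex.Gammaℝ_ne_zero_of_re_pos (by rw [hzre]; norm_num)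
  have hne2 : Gammaℝ (z + 1) ≠ 0 := Complex.Gammaℝ_ne_zero_of_re_pos (by
    rw [Complex.add_re, hzre, Complex.one_re]; norm_num)
  have e1 := Complex.inv_Gammaℝ_one_sub hzn
  have e2 := Complex.inv_Gammaℝ_two_sub hzn
  have hz1 : 1 - z = s := by rw [hz]; ring
  have hz2 : 2 - z = s + 1 := by rw [hz]; ring
  rw [hz1] at e1
  rw [hz2] at e2
  constructor
  · calc ‖Gammaℝ z‖ * ‖(Gammaℝ s)⁻¹‖ = ‖Gammaℂ z‖ * ‖Complex.cos ((Real.pi : ℂ) * z / 2)‖ := by
          rw [e1, norm_mul, norm_mul, norm_inv]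
          have : ‖Gammaℝ z‖ ≠ 0 := norm_ne_zero_iff.2 hne1
          field_simp
      _ ≤ ‖Gammaℂ z‖ * Real.cosh (Real.pi * (-s.im) / 2) :=
          mul_le_mul_of_nonneg_left hcos (norm_nonneg _)
      _ ≤ _ := hG
  · calc ‖Gammaℝ (z + 1)‖ * ‖(Gammaℝ (s + 1))⁻¹‖
        = ‖Gammaℂ z‖ * ‖Complex.sin ((Real.pi : ℂ) * z / 2)‖ := by
          rw [e2, norm_mul, norm_mul, norm_inv]
          have : ‖Gammaℝ (z + 1)‖ ≠ 0 := norm_ne_zero_iff.2 hne2
          field_simp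
      _ ≤ ‖Gammaℂ z‖ * Real.cosh (Real.pi * (-s.im) / 2) :=
          mul_le_mul_of_nonneg_left hsin (norm_nonneg _)
      _ ≤ _ := hG

open Complex in
theorem Gam_inv_bound : ∃ C : ℝ, 1 ≤ C ∧ ∀ s : ℂ, -(1 / 2) ≤ s.re → s.re ≤ 5 / 2 →
    ‖(Gammaℝ s)⁻¹‖ ≤ C * Real.exp (3 * |s.im|) := by
  obtain ⟨C, hC⟩ := @CLine.inv_Gamma_bound
  have hC0 : 0 ≤ C := by
    have h := hC 1 (by norm_num) (by norm_num)
    rw [Complex.Gamma_one] at h
    by_contra hneg
    push Not at hneg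
    have h2 : C * Real.exp (Real.pi * |(1 : ℂ).im|) < 0 :=
      mul_neg_of_neg_of_pos hneg (Real.exp_pos _)
    have h3 : (0 : ℝ) ≤ ‖(1 : ℂ)⁻¹‖ := norm_nonneg _
    linarith
  refine ⟨32 * (C + 1), by linarith, fun s h1 h2 => ?_⟩
  have hpi := Real.pi_pos
  set z : ℂ := s / 2 with hz
  have hzre : z.re = s.re / 2 := by simp [hz]
  have hzim : z.im = s.im / 2 := by simp [hz]
  have e1 : ‖(Complex.Gamma z)⁻¹‖ ≤ (2 * (1 + |s.im|)) * (C * Real.exp (Real.pi * |s.im| / 2)) := by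
    have h3 := Complex.one_div_Gamma_eq_self_mul_one_div_Gamma_add_one z
    rw [h3, norm_mul]
    have h4 := hC (z + 1) (by simp [hzre]; linarith) (by simp [hzre]; linarith)
    have h5 : ‖z‖ ≤ 2 * (1 + |s.im|) := by
      have h6 := Complex.norm_le_abs_re_add_abs_im z
      have h7 : |z.re| ≤ 2 := by rw [hzre, abs_le]; constructor <;> linarith
      have h8 : |z.im| ≤ |s.im| := by
        rw [hzim, abs_div]
        have : |(2 : ℝ)| = 2 := by norm_num
        rw [this]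
        have := abs_nonneg s.im
        linarith
      have := abs_nonneg s.im
      linarith
    have h9 : Real.pi * |(z + 1).im| = Real.pi * |s.im| / 2 := by
      simp [hzim, abs_div]
      ring
    rw [h9] at h4
    exact mul_le_mul h5 h4 (norm_nonneg _) (by positivity)
  have e2 : ‖((Real.pi : ℂ) ^ (-s / 2))⁻¹‖ ≤ 16 := by
    rw [norm_inv, Complex.norm_cpow_eq_rpow_re_of_pos hpi, ← Real.rpow_neg hpi.le]
    have h3 : -(-s / 2).re ≤ 2 := by
      simp
      linarith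
    calc Real.pi ^ (-(-s / 2).re) ≤ Real.pi ^ (2 : ℝ) :=
          Real.rpow_le_rpow_of_exponent_le (by linarith [Real.pi_gt_three]) h3
      _ ≤ 16 := by
          rw [Real.rpow_two]
          have := Real.pi_le_four
          nlinarith
  rw [Gammaℝ_def, mul_inv, norm_mul]
  have e3 : (1 + |s.im|) * Real.exp (Real.pi * |s.im| / 2) ≤ Real.exp (3 * |s.im|) := by
    have h3 : 1 + |s.im| ≤ Real.exp |s.im| := by
      have := Real.add_one_le_exp |s.im|
      linarith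
    calc (1 + |s.im|) * Real.exp (Real.pi * |s.im| / 2)
        ≤ Real.exp |s.im| * Real.exp (Real.pi * |s.im| / 2) := by gcongr
      _ = Real.exp (|s.im| + Real.pi * |s.im| / 2) := by rw [Real.exp_add]
      _ ≤ _ := by
        apply Real.exp_le_exp.2
        have := Real.pi_le_four
        nlinarith [abs_nonneg s.im]
  calc ‖((Real.pi : ℂ) ^ (-s / 2))⁻¹‖ * ‖(Complex.Gamma (s / 2))⁻¹‖
      ≤ 16 * ((2 * (1 + |s.im|)) * (C * Real.exp (Real.pi * |s.im| / 2))) := by gcongr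
    _ = 32 * C * ((1 + |s.im|) * Real.exp (Real.pi * |s.im| / 2)) := by ring
    _ ≤ 32 * C * Real.exp (3 * |s.im|) := by gcongr
    _ ≤ 32 * (C + 1) * Real.exp (3 * |s.im|) := by
      have := Real.exp_pos (3 * |s.im|)
      nlinarith

variable (K : Type) [Field K] [NumberField K] (S : Finset (RP K))

theorem card_S_le : S.card ≤ nrRealPlaces K := by
  classical
  exact Finset.card_le_univ S

theorem exponents : (nrRealPlaces K - S.card + nrComplexPlaces K) + (S.card + nrComplexPlaces K)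
    = nn K := by
  have h1 := card_S_le K S
  have h2 := card_add_two_mul_card_eq_rank K
  show _ = Module.finrank ℚ K
  omega

theorem GF_ne_zero {s : ℂ} (hs : 0 < s.re) : GF K S s ≠ 0 := by
  unfold GF
  exact mul_ne_zero (pow_ne_zero _ (Complex.Gammaℝ_ne_zero_of_re_pos hs))
    (pow_ne_zero _ (Complex.Gammaℝ_ne_zero_of_re_pos (by
      rw [Complex.add_re, Complex.one_re]; linarith)))

theorem GF_inv (s : ℂ) : (GF K S s)⁻¹ =
    (Complex.Gammaℝ s)⁻¹ ^ (nrRealPlaces K - S.card + nrComplexPlaces K) *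
      (Complex.Gammaℝ (s + 1))⁻¹ ^ (S.card + nrComplexPlaces K) := by
  unfold GF
  rw [mul_inv, inv_pow, inv_pow]

theorem GF_inv_differentiable : Differentiable ℂ fun s => (GF K S s)⁻¹ := by
  simp only [GF_inv]
  exact (Complex.differentiable_Gammaℝ_inv.pow _).mul
    ((Complex.differentiable_Gammaℝ_inv.comp (differentiable_id.add_const (1 : ℂ))).pow _)

theorem GF_conj (s : ℂ) : GF K S ((starRingEnd ℂ) s) = (starRingEnd ℂ) (GF K S s) := by
  unfold GF
  have h : (starRingEnd ℂ) s + 1 = (starRingEnd ℂ) (s + 1) := by rw [map_add, map_one]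
  rw [h, Pool.Agent.TRF.Gammaℝ_conj, Pool.Agent.TRF.Gammaℝ_conj, map_mul, map_pow, map_pow]

theorem GF_ratio : ∃ C : ℝ, 0 < C ∧ ∀ s : ℂ, s.re = -(1 / 2) →
    ‖GF K S (1 - (starRingEnd ℂ) s)‖ * ‖(GF K S s)⁻¹‖ ≤ C * (1 + |s.im|) ^ nn K := by
  obtain ⟨C, hC, h⟩ := Gam_ratio
  refine ⟨C ^ nn K, by positivity, fun s hs => ?_⟩
  obtain ⟨h1, h2⟩ := h s hs
  rw [GF_inv, ← mul_pow]
  unfold GF
  rw [norm_mul, norm_mul, norm_pow, norm_pow, norm_pow, norm_pow]
  calc _ = (‖Complex.Gammaℝ (1 - (starRingEnd ℂ) s)‖ * ‖(Complex.Gammaℝ s)⁻¹‖) ^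
        (nrRealPlaces K - S.card + nrComplexPlaces K) *
      (‖Complex.Gammaℝ (1 - (starRingEnd ℂ) s + 1)‖ * ‖(Complex.Gammaℝ (s + 1))⁻¹‖) ^
        (S.card + nrComplexPlaces K) := by
        rw [mul_pow, mul_pow]; ring
    _ ≤ (C * (1 + |s.im|)) ^ (nrRealPlaces K - S.card + nrComplexPlaces K) *
        (C * (1 + |s.im|)) ^ (S.card + nrComplexPlaces K) := by
        gcongr
    _ = (C * (1 + |s.im|)) ^ nn K := by rw [← pow_add, exponents]

theorem GF_inv_bound : ∃ C M : ℝ, 0 < C ∧ 0 < M ∧ ∀ s : ℂ, -(1 / 2) ≤ s.re → s.re ≤ 3 / 2 →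
    ‖(GF K S s)⁻¹‖ ≤ C * Real.exp (M * |s.im|) := by
  obtain ⟨C, hC, h⟩ := Gam_inv_bound
  refine ⟨C ^ nn K, 3 * (nn K + 1), by positivity, by positivity, fun s h1 h2 => ?_⟩
  have b1 := h s h1 (by linarith)
  have b2 := h (s + 1) (by rw [Complex.add_re, Complex.one_re]; linarith)
    (by rw [Complex.add_re, Complex.one_re]; linarith)
  have him : (s + 1).im = s.im := by rw [Complex.add_im, Complex.one_im, add_zero]
  rw [him] at b2
  rw [GF_inv, norm_mul, norm_pow, norm_pow]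
  calc _ ≤ (C * Real.exp (3 * |s.im|)) ^ (nrRealPlaces K - S.card + nrComplexPlaces K) *
        (C * Real.exp (3 * |s.im|)) ^ (S.card + nrComplexPlaces K) := by gcongr
    _ = C ^ nn K * Real.exp (3 * |s.im|) ^ nn K := by rw [← pow_add, exponents, mul_pow]
    _ = C ^ nn K * Real.exp (nn K * (3 * |s.im|)) := by rw [← Real.exp_nat_mul]
    _ ≤ _ := by
        have : 0 ≤ |s.im| := abs_nonneg _
        refine mul_le_mul_of_nonneg_left (Real.exp_le_exp.2 ?_) (by positivity)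
        nlinarith

end Pool.HRC
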