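import Pool.Agent.HRC.ClassEq
import Pool.Agent.HRC.Gam
import Pool.Agent.CMZ.LFun

/-!
# The L-function: continuation, functional equation, Dirichlet series
-/

open scoped NumberField nonZeroDivisors
open NumberField NumberField.InfinitePlace NumberField.mixedEmbedding NumberField.Units
  NumberField.Units.dirichletUnitTheorem Pool.ZD Pool.Agent.CMZ MeasureTheory

namespace Pool.HRC

set_option maxHeartbeats 1000000

variable {K : Type} [Field K] [NumberField K] {m : II K} {χ : II K → ℂ} {S : Finset (RP K)}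
  {f : 𝓞 K → ℂ}

theorem DM_pos (m : II K) : 0 < DM K m := by
  unfold DM
  have hD : (0 : ℝ) < |(discr K : ℝ)| := abs_pos.2 (by exact_mod_cast discr_ne_zero K)
  exact mul_pos hD (nm_pos m)

/-- The total sum. -/
noncomputable def tot (S : Finset (RP K)) (a : II K → ℂ) (v : ℝ) : ℂ :=
  ∑' I : II K, a I * (ker K S (v + Real.log (nm K I)) : ℂ)

theorem tot_summable (S : Finset (RP K)) {a : II K → ℂ} (ha : ∀ I, ‖a I‖ ≤ 1) (v : ℝ) :
    Summable fun I : II K => a I * (ker K S (v + Real.log (nm K I)) : ℂ) := by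
  refine Summable.of_norm_bounded (ker_summable K S v) fun I => ?_
  rw [norm_mul, Complex.norm_real, Real.norm_of_nonneg (ker_nonneg K S _)]
  exact mul_le_of_le_one_left (ker_nonneg K S _) (ha I)

theorem tot_eq_sum (S : Finset (RP K)) {a : II K → ℂ} (ha : ∀ I, ‖a I‖ ≤ 1) (v : ℝ) :
    tot S a v = ∑ A : ClassGroup (𝓞 K), ZA S a A v := by
  unfold tot ZA
  exact Pool.Agent.TRF.tsum_cls K _ (tot_summable S ha v)

theorem tot_conj (S : Finset (RP K)) (a : II K → ℂ) (v : ℝ) :
    tot S (fun I => (starRingEnd ℂ) (a I)) v = (starRingEnd ℂ) (tot S a v) := by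
  unfold tot
  rw [Complex.conj_tsum]
  refine tsum_congr fun I => ?_
  rw [map_mul, Complex.conj_ofReal]

theorem gg_eq_tot (m : II K) (χ : II K → ℂ) (S : Finset (RP K)) (v : ℝ) :
    gg K m χ S v = (Real.exp (v / 2) : ℂ) * tot S χ (v - Real.log (DM K m) / 2) := by
  unfold gg tot
  congr 1
  refine tsum_congr fun I => ?_
  congr 3
  ring

/-- The correction term vanishes for nontrivial characters. -/
theorem sum_conj_zero (h : HC K m χ S f) (hχ : ∃ I, χ I ≠ 0 ∧ χ I ≠ 1)
    (J : ClassGroup (𝓞 K) → II K) (hJA : ∀ A, ClassGroup.mk0 (J A) = A⁻¹) :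
    e0 m S * ∑ A, (starRingEnd ℂ) (χ (J A)) = 0 := by
  classical
  unfold e0
  split_ifs with hmS
  · obtain ⟨hm, hS⟩ := hmS
    obtain ⟨I₀, hI0, hI1⟩ := hχ
    have hx : ∀ x : 𝓞 K, x ≠ 0 → χ (spn K x) = 1 := by
      intro x hx
      rw [h.spn x hx]
      have h1 : f x = 1 := by
        rw [← h.fone]
        apply h.fper
        rw [hm, Ideal.one_eq_top]
        exact Submodule.mem_top
      have h2 : sgn S x = 1 := by
        subst hS
        unfold sgn PS
        simp
      rw [h1, h2]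
      simp
    have hcl : ∀ I I' : II K, ClassGroup.mk0 I = ClassGroup.mk0 I' → χ I = χ I' := by
      intro I I' hII
      obtain ⟨x, y, hx0, hy0, hxy⟩ := ClassGroup.mk0_eq_mk0_iff.1 hII
      have h1 : spn K x * I = spn K y * I' := by
        apply Subtype.ext
        rw [Submonoid.coe_mul, Submonoid.coe_mul, coe_spn hx0, coe_spn hy0]
        exact hxy
      have h2 := congrArg χ h1
      rw [h.mul, h.mul, hx x hx0, hx y hy0, one_mul, one_mul] at h2
      exact h2
    set B := ClassGroup.mk0 I₀ with hB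
    have h1 : ∀ A, χ (J (A * B⁻¹)) = χ (J A) * χ I₀ := by
      intro A
      rw [← h.mul]
      apply hcl
      rw [hJA, map_mul, hJA, mul_inv, inv_inv]
    have h2 : ∑ A, (starRingEnd ℂ) (χ (J A)) =
        (∑ A, (starRingEnd ℂ) (χ (J A))) * (starRingEnd ℂ) (χ I₀) := by
      conv_lhs => rw [← Equiv.sum_comp (Equiv.mulRight B⁻¹)]
      rw [Finset.sum_mul]
      refine Finset.sum_congr rfl fun A _ => ?_
      show (starRingEnd ℂ) (χ (J (A * B⁻¹))) = _
      rw [h1, map_mul]
    have h3 : (∑ A, (starRingEnd ℂ) (χ (J A))) * (1 - (starRingEnd ℂ) (χ I₀)) = 0 := by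
      rw [mul_sub, mul_one, ← h2, sub_self]
    rcases mul_eq_zero.1 h3 with h4 | h4
    · rw [h4, mul_zero]
    · exfalso
      apply hI1
      have h5 : (starRingEnd ℂ) (χ I₀) = 1 := (sub_eq_zero.1 h4).symm
      have h6 := congrArg (starRingEnd ℂ) h5
      rwa [Complex.conj_conj, map_one] at h6
  · rw [zero_mul]

/-- The functional equation, with an undetermined constant. -/
theorem gg_eq (h : HC K m χ S f) (hχ : ∃ I, χ I ≠ 0 ∧ χ I ≠ 1) : ∃ W : ℂ, ∀ v,
    gg K m χ S v = W * (starRingEnd ℂ) (gg K m χ S (-v)) := by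
  classical
  obtain ⟨ω, V, hc⟩ := class_eq h
  choose J hJ hJA hv using hc
  have hD := DM_pos m
  have hw : (torsionOrder K : ℂ) ≠ 0 := by exact_mod_cast torsionOrder_ne_zero K
  have h0 := sum_conj_zero h hχ J hJA
  have htot : ∀ v, tot S χ v = ((Real.exp (-v) / (nm K m * √|(discr K : ℝ)|) : ℝ) : ℂ) *
      (-Complex.I) ^ S.card * ω * (starRingEnd ℂ) (tot S χ (-v - Real.log (DM K m))) := by
    intro v
    apply mul_left_cancel₀ hw
    have h1 : (torsionOrder K : ℂ) * tot S χ v = ∑ A, ((torsionOrder K : ℂ) * ZA S χ A v +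
        V * e0 m S * (starRingEnd ℂ) (χ (J A))) := by
      rw [Finset.sum_add_distrib, ← Finset.mul_sum, ← Finset.mul_sum, mul_assoc V, h0, mul_zero,
        add_zero, tot_eq_sum S h.chi_norm_le]
    rw [h1, Finset.sum_congr rfl fun A _ => hv A v, ← Finset.mul_sum, Finset.sum_add_distrib,
      ← Finset.mul_sum, ← Finset.mul_sum, ← Finset.mul_sum, mul_assoc V, h0, mul_zero, add_zero]
    have h2 : ∑ A : ClassGroup (𝓞 K), ZA S (fun I => (starRingEnd ℂ) (χ I))
        (A⁻¹ * ClassGroup.mk0 (m * dI K)) (-v - Real.log (DM K m)) =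
        (starRingEnd ℂ) (tot S χ (-v - Real.log (DM K m))) := by
      rw [← tot_conj, tot_eq_sum S (fun I => by
        rw [RCLike.norm_conj]; exact h.chi_norm_le I)]
      let e : ClassGroup (𝓞 K) ≃ ClassGroup (𝓞 K) :=
        (Equiv.inv _).trans (Equiv.mulRight (ClassGroup.mk0 (m * dI K)))
      exact e.sum_comp (fun A => ZA S (fun I => (starRingEnd ℂ) (χ I)) A
        (-v - Real.log (DM K m)))
    rw [h2]
    ring
  refine ⟨((Real.exp (Real.log (DM K m) / 2) / (nm K m * √|(discr K : ℝ)|) : ℝ) : ℂ) *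
      (-Complex.I) ^ S.card * ω, fun v => ?_⟩
  rw [gg_eq_tot, gg_eq_tot, htot, map_mul, Complex.conj_ofReal]
  have e1 : -(v - Real.log (DM K m) / 2) - Real.log (DM K m) = -v - Real.log (DM K m) / 2 := by
    ring
  have e2 : Real.exp (-(v - Real.log (DM K m) / 2)) =
      Real.exp (-v / 2) * Real.exp (-v / 2) * Real.exp (Real.log (DM K m) / 2) := by
    rw [← Real.exp_add, ← Real.exp_add]
    congr 1
    ring
  have e3 : Real.exp (v / 2) * Real.exp (-v / 2) = 1 := by
    rw [← Real.exp_add]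
    have : v / 2 + -v / 2 = 0 := by ring
    rw [this, Real.exp_zero]
  have e3' : (Real.exp (v / 2) : ℂ) * (Real.exp (-v / 2) : ℂ) = 1 := by
    rw [← Complex.ofReal_mul, e3, Complex.ofReal_one]
  rw [e1, e2]
  generalize (starRingEnd ℂ) (tot S χ (-v - Real.log (DM K m) / 2)) = T
  push_cast at e3' ⊢
  linear_combination (Complex.exp (-v / 2) * Complex.exp (Real.log (DM K m) / 2) /
    (nm K m * √|(discr K : ℝ)|) * (-Complex.I) ^ S.card * ω * T) * e3'

theorem gg_continuous (h : HC K m χ S f) : Continuous (gg K m χ S) := by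
  obtain ⟨C, hC, hb⟩ := ker_bound K S (b := 2) (by norm_num)
  have hcont : ∀ V : ℝ, ContinuousOn
      (fun v : ℝ => ∑' I : II K, χ I *
        (ker K S (v + Real.log (nm K I) - Real.log (DM K m) / 2) : ℂ)) (Set.Ioi V) := by
    intro V
    refine continuousOn_tsum (u := fun I : II K => (C * Real.exp (-2 * V + Real.log (DM K m))) *
      nm K I ^ (-2 : ℝ)) (fun I => ?_) ((summable_nm K 2 (by norm_num)).mul_left _)
      (fun I v hv => ?_)
    · refine Continuous.continuousOn (continuous_const.mul (Complex.continuous_ofReal.comp ?_))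
      exact (ker_continuous K S).comp (by fun_prop)
    · have hv' : V < v := hv
      rw [norm_mul, Complex.norm_real, Real.norm_of_nonneg (ker_nonneg K S _)]
      refine (mul_le_of_le_one_left (ker_nonneg K S _) (h.chi_norm_le I)).trans
        ((hb _).trans ?_)
      rw [mul_assoc, Real.rpow_def_of_pos (nm_pos I), ← Real.exp_add]
      refine mul_le_mul_of_nonneg_left (Real.exp_le_exp.2 ?_) hC.le
      linarith
  rw [continuous_iff_continuousAt]
  intro v
  unfold gg
  refine ContinuousAt.mul ?_ ((hcont (v - 1)).continuousAt (Ioi_mem_nhds (by linarith)))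
  exact (Complex.continuous_ofReal.comp (Real.continuous_exp.comp
    (continuous_id.div_const 2))).continuousAt

theorem gg_decay_pos (h : HC K m χ S f) (b : ℝ) :
    ∃ C : ℝ, 0 < C ∧ ∀ v : ℝ, 0 ≤ v → ‖gg K m χ S v‖ ≤ C * Real.exp (-(b * v)) := by
  set b' : ℝ := |b| + 2 with hb'
  have hb0 : 0 < b' := by positivity
  obtain ⟨C, hC, hb⟩ := ker_bound K S hb0
  have hsum := summable_nm K b' (by rw [hb']; linarith [abs_nonneg b])
  set Z : ℝ := ∑' I : II K, nm K I ^ (-b') with hZ
  have hZ0 : 0 ≤ Z := tsum_nonneg fun I => (Real.rpow_pos_of_pos (nm_pos I) _).le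
  refine ⟨C * Real.exp (b' * (Real.log (DM K m) / 2)) * (Z + 1), by positivity, fun v hv => ?_⟩
  have e0 : ‖gg K m χ S v‖ ≤ Real.exp (v / 2) *
      (C * Real.exp (b' * (Real.log (DM K m) / 2)) * Real.exp (-(b' * v)) * Z) := by
    unfold gg
    rw [norm_mul, Complex.norm_real, Real.norm_of_nonneg (Real.exp_pos _).le]
    refine mul_le_mul_of_nonneg_left ?_ (Real.exp_pos _).le
    refine tsum_of_norm_bounded (hsum.hasSum.mul_left _) fun I => ?_
    rw [norm_mul, Complex.norm_real, Real.norm_of_nonneg (ker_nonneg K S _)]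
    refine (mul_le_of_le_one_left (ker_nonneg K S _) (h.chi_norm_le I)).trans ((hb _).trans ?_)
    rw [Real.rpow_def_of_pos (nm_pos I), mul_assoc, mul_assoc, ← Real.exp_add, ← Real.exp_add]
    refine mul_le_mul_of_nonneg_left (Real.exp_le_exp.2 (le_of_eq ?_)) hC.le
    ring
  refine e0.trans ?_
  have e1 : Real.exp (v / 2) * Real.exp (-(b' * v)) ≤ Real.exp (-(b * v)) := by
    rw [← Real.exp_add, Real.exp_le_exp, hb']
    nlinarith [abs_nonneg b, le_abs_self b, mul_nonneg (sub_nonneg.2 (le_abs_self b)) hv]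
  calc Real.exp (v / 2) *
      (C * Real.exp (b' * (Real.log (DM K m) / 2)) * Real.exp (-(b' * v)) * Z)
      = C * Real.exp (b' * (Real.log (DM K m) / 2)) * Z *
        (Real.exp (v / 2) * Real.exp (-(b' * v))) := by ring
    _ ≤ C * Real.exp (b' * (Real.log (DM K m) / 2)) * (Z + 1) * Real.exp (-(b * v)) := by
        gcongr
        linarith

theorem gg_decay (h : HC K m χ S f) (hχ : ∃ I, χ I ≠ 0 ∧ χ I ≠ 1) (b : ℝ) :
    ∃ C : ℝ, 0 < C ∧ ∀ v : ℝ, ‖gg K m χ S v‖ ≤ C * Real.exp (-(b * |v|)) := by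
  obtain ⟨C, hC, hd⟩ := gg_decay_pos h b
  obtain ⟨W, hW⟩ := gg_eq h hχ
  have hW0 := norm_nonneg W
  refine ⟨C * (1 + ‖W‖), by positivity, fun v => ?_⟩
  rcases le_total 0 v with hv | hv
  · rw [abs_of_nonneg hv]
    refine (hd v hv).trans ?_
    gcongr
    nlinarith
  · rw [abs_of_nonpos hv, hW v, norm_mul, RCLike.norm_conj]
    have h1 := hd (-v) (by linarith)
    calc ‖W‖ * ‖gg K m χ S (-v)‖ ≤ ‖W‖ * (C * Real.exp (-(b * -v))) := by gcongr
      _ ≤ C * (1 + ‖W‖) * Real.exp (-(b * -v)) := by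
        have : 0 < Real.exp (-(b * -v)) := Real.exp_pos _
        nlinarith [mul_pos hC this]

theorem LamX_differentiable (h : HC K m χ S f) (hχ : ∃ I, χ I ≠ 0 ∧ χ I ≠ 1) :
    Differentiable ℂ (LamX K m χ S) := by
  have h1 := LFaux.laplace_differentiable (gg_continuous h) (gg_decay h hχ)
  exact h1.comp (f := fun s : ℂ => s - 1 / 2) (by fun_prop)

theorem LX_differentiable (h : HC K m χ S f) (hχ : ∃ I, χ I ≠ 0 ∧ χ I ≠ 1) :
    Differentiable ℂ (LX K m χ S) := by
  have hD : (DM K m : ℂ) ≠ 0 := by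
    exact_mod_cast (DM_pos m).ne'
  unfold LX
  refine Differentiable.mul (Differentiable.mul (LamX_differentiable h hχ) ?_) ?_
  · intro s
    exact DifferentiableAt.const_cpow (by fun_prop) (Or.inl hD)
  · exact GF_inv_differentiable K S

theorem term_integral {s : ℂ} (hs : 0 < s.re) (a : ℝ) :
    (Integrable fun v : ℝ => (ker K S (v + a) : ℂ) * Complex.exp (s * v)) ∧
    ∫ v : ℝ, (ker K S (v + a) : ℂ) * Complex.exp (s * v) =
      Complex.exp (-(s * a)) * GF K S s := by
  have h0 : ∀ v : ℝ, (ker K S (v + a) : ℂ) * Complex.exp (s * v) =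
      Complex.exp (-(s * a)) * ((ker K S (v + a) : ℂ) * Complex.exp (s * ((v + a : ℝ) : ℂ))) := by
    intro v
    rw [mul_left_comm, ← Complex.exp_add]
    congr 2
    push_cast
    ring
  simp only [h0]
  constructor
  · exact ((ker_mellin_integrable K S hs).comp_add_right a).const_mul _
  · rw [integral_const_mul]
    congr 1
    rw [← ker_mellin K S hs]
    exact integral_add_right_eq_self
      (fun v : ℝ => (ker K S v : ℂ) * Complex.exp (s * (v : ℂ))) a

theorem LamX_eq (h : HC K m χ S f) {s : ℂ} (hs : 1 < s.re) :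
    LamX K m χ S s = ∑' I : II K, χ I * (((nm K I / √(DM K m) : ℝ) : ℂ) ^ (-s) * GF K S s) := by
  have hcount : Countable (II K) := LFaux.countable_II K
  have hD0 := DM_pos m
  have hD : 0 < √(DM K m) := Real.sqrt_pos.2 hD0
  have hs0 : 0 < s.re := by linarith
  set a : II K → ℝ := fun I => Real.log (nm K I) - Real.log (DM K m) / 2 with ha
  have ha' : ∀ I, a I = Real.log (nm K I / √(DM K m)) := fun I => by
    rw [ha, Real.log_div (nm_pos I).ne' hD.ne', Real.log_sqrt hD0.le]
  have hint : ∀ I : II K, Integrable fun v : ℝ =>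
      χ I * ((ker K S (v + a I) : ℂ) * Complex.exp (s * v)) :=
    fun I => (term_integral hs0 (a I)).1.const_mul _
  have hnorm : ∀ I : II K, ∀ v : ℝ,
      ‖χ I * ((ker K S (v + a I) : ℂ) * Complex.exp (s * v))‖ ≤
        ker K S (v + a I) * Real.exp (s.re * v) := by
    intro I v
    rw [norm_mul, norm_mul, Complex.norm_real,
      Real.norm_of_nonneg (ker_nonneg K S _), Complex.norm_exp]
    have h1 : (s * v).re = s.re * v := by simp
    rw [h1]
    exact mul_le_of_le_one_left (mul_nonneg (ker_nonneg K S _) (Real.exp_pos _).le)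
      (h.chi_norm_le I)
  have hre : 0 < ((s.re : ℝ) : ℂ).re := by rw [Complex.ofReal_re]; exact hs0
  have hri : Integrable fun v : ℝ => ker K S v * Real.exp (s.re * v) := by
    have h1 := (ker_mellin_integrable K S hre).norm
    refine h1.congr (Filter.Eventually.of_forall fun v => ?_)
    simp only
    rw [norm_mul, Complex.norm_real, Real.norm_of_nonneg (ker_nonneg K S _), Complex.norm_exp]
    simp
  set Q : ℝ := ∫ v : ℝ, ker K S v * Real.exp (s.re * v) with hQ
  have hval : ∀ b : ℝ, (Integrable fun v : ℝ => ker K S (v + b) * Real.exp (s.re * v)) ∧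
      ∫ v : ℝ, ker K S (v + b) * Real.exp (s.re * v) = Real.exp (-(s.re * b)) * Q := by
    intro b
    have h0 : ∀ v : ℝ, ker K S (v + b) * Real.exp (s.re * v) =
        Real.exp (-(s.re * b)) * (ker K S (v + b) * Real.exp (s.re * (v + b))) := by
      intro v
      rw [mul_left_comm, ← Real.exp_add]
      congr 2
      ring
    simp only [h0]
    constructor
    · exact (hri.comp_add_right b).const_mul _
    · rw [integral_const_mul]
      congr 1
      exact integral_add_right_eq_self (fun v : ℝ => ker K S v * Real.exp (s.re * v)) b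
  have hsum : Summable fun I : II K => ∫ v : ℝ,
      ‖χ I * ((ker K S (v + a I) : ℂ) * Complex.exp (s * v))‖ := by
    have h1 : Summable fun I : II K => nm K I ^ (-s.re) * (√(DM K m) ^ s.re * Q) :=
      (summable_nm K s.re hs).mul_right _
    refine Summable.of_nonneg_of_le (fun I => integral_nonneg fun v => norm_nonneg _)
      (fun I => ?_) h1
    refine (integral_mono (hint I).norm (hval (a I)).1 (hnorm I)).trans (le_of_eq ?_)
    rw [(hval (a I)).2, ← mul_assoc]
    congr 1
    rw [ha', Real.log_div (nm_pos I).ne' hD.ne', Real.rpow_def_of_pos (nm_pos I),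
      Real.rpow_def_of_pos hD, ← Real.exp_add]
    congr 1
    ring
  have hmain := integral_tsum_of_summable_integral_norm hint hsum
  have hLam : LamX K m χ S s = ∫ v : ℝ, ∑' I : II K,
      χ I * ((ker K S (v + a I) : ℂ) * Complex.exp (s * v)) := by
    unfold LamX gg
    refine integral_congr_ae (Filter.Eventually.of_forall fun v => ?_)
    simp only
    rw [← tsum_mul_left, ← tsum_mul_right]
    refine tsum_congr fun I => ?_
    have h6 : Complex.exp (s * v) = (Real.exp (v / 2) : ℂ) * Complex.exp ((s - 1 / 2) * v) := by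
      rw [Complex.ofReal_exp, ← Complex.exp_add]
      congr 1
      push_cast
      ring
    have h7 : v + Real.log (nm K I) - Real.log (DM K m) / 2 = v + a I := by
      rw [ha]
      ring
    rw [h6, h7]
    ring
  rw [hLam, ← hmain]
  refine tsum_congr fun I => ?_
  rw [integral_const_mul, (term_integral hs0 (a I)).2, ha']
  congr 2
  have hpos : 0 < nm K I / √(DM K m) := div_pos (nm_pos I) hD
  rw [Complex.cpow_def_of_ne_zero (by exact_mod_cast hpos.ne'), ← Complex.ofReal_log hpos.le]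
  congr 1
  ring

theorem series_summable (h : HC K m χ S f) {s : ℂ} (hs : 1 < s.re) :
    Summable fun I : II K => ‖χ I * (nm K I : ℂ) ^ (-s)‖ := by
  refine Summable.of_nonneg_of_le (fun I => norm_nonneg _) (fun I => ?_) (summable_nm K s.re hs)
  rw [norm_mul, Complex.norm_cpow_eq_rpow_re_of_pos (nm_pos I), Complex.neg_re]
  exact mul_le_of_le_one_left (Real.rpow_pos_of_pos (nm_pos I) _).le (h.chi_norm_le I)

theorem LX_eq (h : HC K m χ S f) {s : ℂ} (hs : 1 < s.re) :
    LX K m χ S s = ∑' I : II K, χ I * (nm K I : ℂ) ^ (-s) := by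
  have hs0 : 0 < s.re := by linarith
  have hD0 : 0 < DM K m := DM_pos m
  have hD : 0 < √(DM K m) := Real.sqrt_pos.2 hD0
  have hG : GF K S s ≠ 0 := GF_ne_zero K S hs0
  unfold LX
  rw [LamX_eq h hs, ← tsum_mul_right, ← tsum_mul_right]
  refine tsum_congr fun I => ?_
  have h1 : ((nm K I / √(DM K m) : ℝ) : ℂ) ^ (-s) =
      (nm K I : ℂ) ^ (-s) / ((√(DM K m) : ℝ) : ℂ) ^ (-s) := by
    rw [Complex.ofReal_div, Complex.div_cpow_ofReal_nonneg (nm_pos I).le hD.le]
  have h2 : ((√(DM K m) : ℝ) : ℂ) ^ (-s) = (DM K m : ℂ) ^ (-s / 2) := by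
    have h5 : (DM K m : ℂ) = ((√(DM K m) : ℝ) : ℂ) ^ 2 := by
      rw [← Complex.ofReal_pow, Real.sq_sqrt hD0.le]
    rw [h5, ← Complex.cpow_nat_mul']
    · congr 1
      push_cast
      ring
    · rw [Complex.arg_ofReal_of_nonneg hD.le]
      simpa using Real.pi_pos
    · rw [Complex.arg_ofReal_of_nonneg hD.le]
      simpa using Real.pi_pos.le
  have h3 : (DM K m : ℂ) ^ (-s / 2) ≠ 0 := by
    rw [Ne, Complex.cpow_eq_zero_iff]
    rintro ⟨h, -⟩
    exact hD0.ne' (by exact_mod_cast h)
  rw [h1, h2]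
  generalize (DM K m : ℂ) ^ (-s / 2) = X at *
  generalize GF K S s = Z at *
  field_simp

theorem LX_hasSum (h : HC K m χ S f) {s : ℂ} (hs : 1 < s.re) :
    HasSum (fun I : II K => χ I * (nm K I : ℂ) ^ (-s)) (LX K m χ S s) := by
  rw [LX_eq h hs]
  exact (series_summable h hs).of_norm.hasSum

/-- The completed L-function from the L-function. -/
theorem LamX_of_LX {s : ℂ} (hs : 0 < s.re) :
    LamX K m χ S s = (DM K m : ℂ) ^ (s / 2) * GF K S s * LX K m χ S s := by
  have hD0 : (DM K m : ℂ) ≠ 0 := by exact_mod_cast (DM_pos m).ne'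
  have hG : GF K S s ≠ 0 := GF_ne_zero K S hs
  unfold LX
  have h8 : (DM K m : ℂ) ^ (s / 2) * (DM K m : ℂ) ^ (-s / 2) = 1 := by
    rw [← Complex.cpow_add _ _ hD0]
    have : s / 2 + -s / 2 = 0 := by ring
    rw [this, Complex.cpow_zero]
  calc LamX K m χ S s = LamX K m χ S s * ((DM K m : ℂ) ^ (s / 2) * (DM K m : ℂ) ^ (-s / 2)) *
        (GF K S s * (GF K S s)⁻¹) := by
        rw [h8, mul_inv_cancel₀ hG, mul_one, mul_one]
    _ = _ := by ring

/-- `L(s) ≠ 0` for some real `s > 1`. -/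
theorem exists_LX_ne (h : HC K m χ S f) : ∃ s : ℂ, 1 < s.re ∧ LX K m χ S s ≠ 0 := by
  classical
  have hs2 := summable_nm K 2 (by norm_num)
  set Z : ℝ := ∑' I : II K, nm K I ^ (-2 : ℝ) with hZ
  have hZ0 : 0 ≤ Z := tsum_nonneg fun I => (Real.rpow_pos_of_pos (nm_pos I) _).le
  obtain ⟨N, hN⟩ := pow_unbounded_of_one_lt Z (one_lt_two (α := ℝ))
  set σ : ℝ := N + 2 with hσ
  have hσ1 : 1 < σ := by
    have : (0 : ℝ) ≤ N := Nat.cast_nonneg N
    linarith
  refine ⟨(σ : ℂ), by simpa using hσ1, fun h0 => ?_⟩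
  have h1 := LX_hasSum h (s := (σ : ℂ)) (by simpa using hσ1)
  rw [h0] at h1
  have h2 : ∑' I : II K, (if I = 1 then 0 else χ I * (nm K I : ℂ) ^ (-(σ : ℂ))) = -1 := by
    have h3 := h1.summable.tsum_eq_add_tsum_ite (1 : II K)
    rw [h1.tsum_eq] at h3
    have h4 : nm K (1 : II K) = 1 := by
      unfold nm
      simp
    rw [h.one, h4] at h3
    simp only [Complex.ofReal_one, Complex.one_cpow, mul_one] at h3
    linear_combination -h3
  have h5 : ‖(-1 : ℂ)‖ ≤ Z * (2 ^ N)⁻¹ := by
    rw [← h2]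
    refine tsum_of_norm_bounded (hs2.hasSum.mul_right _) fun I => ?_
    split_ifs with hI
    · rw [norm_zero]
      have := Real.rpow_pos_of_pos (nm_pos I) (-2 : ℝ)
      positivity
    · rw [norm_mul, Complex.norm_cpow_eq_rpow_re_of_pos (nm_pos I)]
      refine (mul_le_of_le_one_left (Real.rpow_pos_of_pos (nm_pos I) _).le
        (h.chi_norm_le I)).trans ?_
      have h6 : (-(σ : ℂ)).re = -2 + -(N : ℝ) := by
        rw [hσ]
        simp
      rw [h6, Real.rpow_add (nm_pos I), Real.rpow_neg (nm_pos I).le (N : ℝ), Real.rpow_natCast]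
      have h7 : 2 ≤ nm K I := by
        unfold nm
        have h8 : Ideal.absNorm (I : Ideal (𝓞 K)) ≠ 1 := by
          intro h9
          rw [Ideal.absNorm_eq_one_iff] at h9
          apply hI
          apply Subtype.ext
          rw [h9, Submonoid.coe_one, Ideal.one_eq_top]
        have h10 : Ideal.absNorm (I : Ideal (𝓞 K)) ≠ 0 := by
          rw [Ne, Ideal.absNorm_eq_zero_iff]
          exact nonZeroDivisors.coe_ne_zero I
        have h11 : 2 ≤ Ideal.absNorm (I : Ideal (𝓞 K)) := by omega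
        exact_mod_cast h11
      have := Real.rpow_pos_of_pos (nm_pos I) (-2 : ℝ)
      gcongr
  rw [norm_neg, norm_one] at h5
  have h6 : (0 : ℝ) < 2 ^ N := by positivity
  rw [← div_eq_mul_inv, le_div_iff₀ h6] at h5
  linarith

/-- The functional equation with its constant of absolute value one. -/
theorem gg_eq' (h : HC K m χ S f) (hχ : ∃ I, χ I ≠ 0 ∧ χ I ≠ 1) : ∃ W : ℂ, ‖W‖ = 1 ∧ ∀ v,
    gg K m χ S v = W * (starRingEnd ℂ) (gg K m χ S (-v)) := by
  obtain ⟨W, hW⟩ := gg_eq h hχ
  refine ⟨W, ?_, hW⟩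
  obtain ⟨s, hs, hne⟩ := exists_LX_ne h
  have h1 : LamX K m χ S s ≠ 0 := by
    rw [LamX_of_LX (by linarith)]
    refine mul_ne_zero (mul_ne_zero ?_ (GF_ne_zero K S (by linarith))) hne
    rw [Ne, Complex.cpow_eq_zero_iff]
    rintro ⟨h0, -⟩
    exact (DM_pos m).ne' (by exact_mod_cast h0)
  have h2 : ∃ v, gg K m χ S v ≠ 0 := by
    by_contra hno
    push Not at hno
    apply h1
    unfold LamX
    simp [hno]
  obtain ⟨v, hv⟩ := h2
  have h3 := hW v
  rw [hW (-v), neg_neg, map_mul, Complex.conj_conj, ← mul_assoc, Complex.mul_conj] at h3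
  have h4 : (Complex.normSq W : ℂ) = 1 := by
    apply mul_right_cancel₀ hv
    rw [← h3, one_mul]
  have h5 : Complex.normSq W = 1 := by exact_mod_cast h4
  rw [Complex.normSq_eq_norm_sq] at h5
  have h0 := norm_nonneg W
  nlinarith

/-- The functional equation of the completed L-function. -/
theorem LamX_eq_conj {W : ℂ}
    (hW : ∀ v, gg K m χ S v = W * (starRingEnd ℂ) (gg K m χ S (-v))) (s : ℂ) :
    LamX K m χ S s = W * (starRingEnd ℂ) (LamX K m χ S (1 - (starRingEnd ℂ) s)) := by
  unfold LamX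
  rw [← integral_conj, ← integral_const_mul, ← integral_neg_eq_self]
  refine integral_congr_ae (Filter.Eventually.of_forall fun v => ?_)
  simp only
  rw [hW (-v), neg_neg, map_mul, ← Complex.exp_conj, mul_assoc]
  congr 3
  rw [map_mul, map_sub, map_sub, Complex.conj_conj, Complex.conj_ofReal]
  have h2 : (starRingEnd ℂ) (1 / 2 : ℂ) = 1 / 2 := by
    rw [map_div₀, map_one]
    congr 1
    exact Complex.conj_ofReal 2
  rw [h2, map_one]
  push_cast
  ring

/-- The rotated completed L-function is real on the critical line. -/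
theorem LamX_real (h : HC K m χ S f) (hχ : ∃ I, χ I ≠ 0 ∧ χ I ≠ 1) : ∃ ω : ℂ, ‖ω‖ = 1 ∧
    ∀ t : ℝ, (ω * LamX K m χ S (1 / 2 + t * Complex.I)).im = 0 := by
  obtain ⟨W, hW1, hW⟩ := gg_eq' h hχ
  obtain ⟨ω, hω⟩ := IsAlgClosed.exists_pow_nat_eq ((starRingEnd ℂ) W) (n := 2) (by norm_num)
  have hω1 : ‖ω‖ = 1 := by
    have h1 : ‖ω‖ ^ 2 = 1 := by rw [← norm_pow, hω, RCLike.norm_conj, hW1]
    have h0 := norm_nonneg ω
    nlinarith
  refine ⟨ω, hω1, fun t => ?_⟩
  have hωω : (starRingEnd ℂ) ω * ω = 1 := by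
    rw [mul_comm, Complex.mul_conj, Complex.normSq_eq_norm_sq, hω1]
    norm_num
  have hWW : (starRingEnd ℂ) W * W = 1 := by
    rw [mul_comm, Complex.mul_conj, Complex.normSq_eq_norm_sq, hW1]
    norm_num
  set z : ℂ := 1 / 2 + t * Complex.I with hz
  have hzz : 1 - (starRingEnd ℂ) z = z := by
    rw [hz, map_add, map_mul, Complex.conj_I, Complex.conj_ofReal]
    have h2 : (starRingEnd ℂ) (1 / 2 : ℂ) = 1 / 2 := by
      rw [map_div₀, map_one]
      congr 1
      exact Complex.conj_ofReal 2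
    rw [h2]
    ring
  have hfe := LamX_eq_conj hW z
  rw [hzz] at hfe
  have hconj : (starRingEnd ℂ) (LamX K m χ S z) = (starRingEnd ℂ) W * LamX K m χ S z := by
    calc (starRingEnd ℂ) (LamX K m χ S z) =
          ((starRingEnd ℂ) W * W) * (starRingEnd ℂ) (LamX K m χ S z) := by
          rw [hWW, one_mul]
      _ = (starRingEnd ℂ) W * (W * (starRingEnd ℂ) (LamX K m χ S z)) := by ring
      _ = _ := by rw [← hfe]
  rw [← Complex.conj_eq_iff_im, map_mul, hconj, ← hω]
  calc (starRingEnd ℂ) ω * (ω ^ 2 * LamX K m χ S z)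
      = ((starRingEnd ℂ) ω * ω) * (ω * LamX K m χ S z) := by ring
    _ = ω * LamX K m χ S z := by rw [hωω, one_mul]

end Pool.HRC
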