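import Pool.Agent.CMZ.Poisson

/-!
# Poisson summation for a Gaussian times a product of orthogonal linear forms
-/

open scoped InnerProductSpace
open MeasureTheory

namespace Pool.HRC

/-- a power times a Gaussian -/
private theorem pow_gauss_bd {c : ℝ} (hc : 0 < c) (m : ℕ) : ∃ C : ℝ, 0 ≤ C ∧ ∀ t : ℝ, 0 ≤ t →
    t ^ m * Real.exp (-(c * t ^ 2)) ≤ C * Real.exp (-(c / 2 * t ^ 2)) := by
  refine ⟨1 + m.factorial * (2 / c) ^ m, by positivity, fun t ht => ?_⟩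
  have h1 := Real.pow_div_factorial_le_exp (c / 2 * t ^ 2) (by positivity) m
  have h2 : 1 ≤ Real.exp (c / 2 * t ^ 2) := Real.one_le_exp (by positivity)
  have h3 : t ^ m ≤ 1 + (t ^ 2) ^ m := by
    have h4 : 0 ≤ t ^ m := pow_nonneg ht m
    have h5 : (t ^ 2) ^ m = (t ^ m) ^ 2 := by rw [← pow_mul, ← pow_mul, mul_comm]
    rw [h5]
    nlinarith [sq_nonneg (t ^ m - 1)]
  have h6 : (t ^ 2) ^ m ≤ m.factorial * (2 / c) ^ m * Real.exp (c / 2 * t ^ 2) := by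
    have h7 : (t ^ 2) ^ m = m.factorial * (2 / c) ^ m * ((c / 2 * t ^ 2) ^ m / m.factorial) := by
      rw [mul_pow, div_pow, div_pow]
      have : (m.factorial : ℝ) ≠ 0 := by positivity
      field_simp
    rw [h7]
    exact mul_le_mul_of_nonneg_left h1 (by positivity)
  have h8 : t ^ m ≤ (1 + m.factorial * (2 / c) ^ m) * Real.exp (c / 2 * t ^ 2) := by
    rw [add_mul, one_mul]
    linarith
  have h9 : Real.exp (-(c / 2 * t ^ 2)) = Real.exp (c / 2 * t ^ 2) * Real.exp (-(c * t ^ 2)) := by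
    rw [← Real.exp_add]
    congr 1
    ring
  rw [h9, ← mul_assoc]
  exact mul_le_mul_of_nonneg_right h8 (Real.exp_nonneg _)

private theorem abs_prod_inner_le {E : Type} [NormedAddCommGroup E] [InnerProductSpace ℝ E]
    {κ : Type} (S : Finset κ) (u : κ → E) (y : E) :
    |∏ i ∈ S, ⟪y, u i⟫_ℝ| ≤ (∏ i ∈ S, ‖u i‖) * ‖y‖ ^ S.card := by
  rw [Finset.abs_prod]
  calc ∏ i ∈ S, |⟪y, u i⟫_ℝ| ≤ ∏ i ∈ S, (‖u i‖ * ‖y‖) := by
        refine Finset.prod_le_prod (fun i _ => abs_nonneg _) fun i _ => ?_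
        rw [mul_comm]
        exact abs_real_inner_le_norm y (u i)
    _ = (∏ i ∈ S, ‖u i‖) * ‖y‖ ^ S.card := by
        rw [Finset.prod_mul_distrib, Finset.prod_const]

theorem poly_summable {ι : Type} [Fintype ι] {E : Type} [NormedAddCommGroup E]
    [InnerProductSpace ℝ E] [FiniteDimensional ℝ E] (B : Module.Basis ι ℝ E) {c : ℝ} (hc : 0 < c)
    (v : E) {κ : Type} (S : Finset κ) (u : κ → E) : Summable fun k : ι → ℤ =>
      |∏ i ∈ S, ⟪(∑ i, (k i : ℝ) • B i) + v, u i⟫_ℝ| *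
        Real.exp (-(c * ‖(∑ i, (k i : ℝ) • B i) + v‖ ^ 2)) := by
  obtain ⟨C, hC, hb⟩ := pow_gauss_bd hc S.card
  have hs := (Pool.Agent.CMZ.gauss_summable B (half_pos hc) v).mul_left ((∏ i ∈ S, ‖u i‖) * C)
  refine Summable.of_nonneg_of_le (fun k => mul_nonneg (abs_nonneg _) (Real.exp_nonneg _))
    (fun k => ?_) hs
  have h1 := abs_prod_inner_le S u ((∑ i, (k i : ℝ) • B i) + v)
  have h2 := hb ‖(∑ i, (k i : ℝ) • B i) + v‖ (norm_nonneg _)
  have h3 : 0 ≤ ∏ i ∈ S, ‖u i‖ := Finset.prod_nonneg fun i _ => norm_nonneg _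
  calc |∏ i ∈ S, ⟪(∑ i, (k i : ℝ) • B i) + v, u i⟫_ℝ| *
        Real.exp (-(c * ‖(∑ i, (k i : ℝ) • B i) + v‖ ^ 2))
      ≤ ((∏ i ∈ S, ‖u i‖) * ‖(∑ i, (k i : ℝ) • B i) + v‖ ^ S.card) *
        Real.exp (-(c * ‖(∑ i, (k i : ℝ) • B i) + v‖ ^ 2)) :=
        mul_le_mul_of_nonneg_right h1 (Real.exp_nonneg _)
    _ = (∏ i ∈ S, ‖u i‖) * (‖(∑ i, (k i : ℝ) • B i) + v‖ ^ S.card *
        Real.exp (-(c * ‖(∑ i, (k i : ℝ) • B i) + v‖ ^ 2))) := by ring
    _ ≤ (∏ i ∈ S, ‖u i‖) * (C * Real.exp (-(c / 2 * ‖(∑ i, (k i : ℝ) • B i) + v‖ ^ 2))) :=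
        mul_le_mul_of_nonneg_left h2 h3
    _ = _ := by ring

section deriv

variable {E : Type} [NormedAddCommGroup E] [InnerProductSpace ℝ E]

private theorem gauss_line (a w : E) (s : ℝ) :
    HasDerivAt (fun s : ℝ => Real.exp (-(Real.pi * ‖a + s • w‖ ^ 2)))
      (Real.exp (-(Real.pi * ‖a + s • w‖ ^ 2)) * (-(2 * Real.pi * ⟪a + s • w, w⟫_ℝ))) s := by
  have h1 : HasDerivAt (fun s : ℝ => a + s • w) w s := by
    have h2 := ((hasDerivAt_id s).smul_const w).const_add a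
    simpa using h2
  have h3 : HasDerivAt (fun s : ℝ => ‖a + s • w‖ ^ 2) (2 * ⟪a + s • w, w⟫_ℝ) s := h1.norm_sq
  have h4 := ((h3.const_mul Real.pi).neg).exp
  refine h4.congr_deriv ?_
  show Real.exp (-(Real.pi * ‖a + s • w‖ ^ 2)) * -(Real.pi * (2 * ⟪a + s • w, w⟫_ℝ)) = _
  ring

private theorem sq_low (a w : E) {s : ℝ} (hs : |s| ≤ 1) :
    ‖a‖ ^ 2 / 2 - ‖w‖ ^ 2 ≤ ‖a + s • w‖ ^ 2 := by
  have h1 := Pool.Agent.CMZ.PO.sq_half a (s • w)
  have h2 : ‖s • w‖ ^ 2 ≤ ‖w‖ ^ 2 := by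
    rw [norm_smul, Real.norm_eq_abs, mul_pow]
    have h3 : |s| ^ 2 ≤ 1 := pow_le_one₀ (abs_nonneg s) hs
    nlinarith [sq_nonneg ‖w‖]
  linarith

private theorem left_deriv {α : Type} (X : α → E) (w : E) (p : α → ℝ)
    (h0 : Summable fun k => |p k| * Real.exp (-(Real.pi * ‖X k‖ ^ 2)))
    (h1 : Summable fun k => |p k| * Real.exp (-(Real.pi / 2 * ‖X k‖ ^ 2)))
    (h2 : Summable fun k => |p k * ⟪X k, w⟫_ℝ| * Real.exp (-(Real.pi / 2 * ‖X k‖ ^ 2))) :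
    HasDerivAt (fun s : ℝ => ∑' k, p k * Real.exp (-(Real.pi * ‖X k + s • w‖ ^ 2)))
      (∑' k, p k * (Real.exp (-(Real.pi * ‖X k‖ ^ 2)) * (-(2 * Real.pi * ⟪X k, w⟫_ℝ)))) 0 := by
  have hu := (h2.add (h1.mul_left (‖w‖ ^ 2))).mul_left
    (2 * Real.pi * Real.exp (Real.pi * ‖w‖ ^ 2))
  have key := hasDerivAt_tsum_of_isPreconnected
    (g := fun k (s : ℝ) => p k * Real.exp (-(Real.pi * ‖X k + s • w‖ ^ 2)))
    (g' := fun k (s : ℝ) => p k * (Real.exp (-(Real.pi * ‖X k + s • w‖ ^ 2)) *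
      (-(2 * Real.pi * ⟪X k + s • w, w⟫_ℝ)))) (y₀ := (0 : ℝ)) (y := (0 : ℝ))
    (t := Set.Ioo (-1 : ℝ) 1) hu isOpen_Ioo isPreconnected_Ioo
    (fun k s _ => (gauss_line (X k) w s).const_mul (p k)) ?_ ⟨by norm_num, one_pos⟩ ?_
    ⟨by norm_num, one_pos⟩
  · refine key.congr_deriv ?_
    simp only [zero_smul, add_zero]
  · intro k s hs
    have hs1 : |s| ≤ 1 := abs_le.2 ⟨hs.1.le, hs.2.le⟩
    have h3 : Real.exp (-(Real.pi * ‖X k + s • w‖ ^ 2)) ≤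
        Real.exp (Real.pi * ‖w‖ ^ 2) * Real.exp (-(Real.pi / 2 * ‖X k‖ ^ 2)) := by
      rw [← Real.exp_add]
      apply Real.exp_le_exp.2
      have h4 := mul_le_mul_of_nonneg_left (sq_low (X k) w hs1) Real.pi_pos.le
      linarith
    have h5 : |⟪X k + s • w, w⟫_ℝ| ≤ |⟪X k, w⟫_ℝ| + ‖w‖ ^ 2 := by
      rw [inner_add_left, inner_smul_left]
      refine (abs_add_le _ _).trans ?_
      have h6 : |(starRingEnd ℝ) s * ⟪w, w⟫_ℝ| ≤ ‖w‖ ^ 2 := by
        rw [real_inner_self_eq_norm_sq, abs_mul, abs_of_nonneg (sq_nonneg ‖w‖)]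
        have h7 : |(starRingEnd ℝ) s| = |s| := by simp
        rw [h7]
        nlinarith [sq_nonneg ‖w‖]
      linarith
    rw [Real.norm_eq_abs, abs_mul, abs_mul, abs_neg, abs_mul,
      abs_of_pos (by positivity : 0 < 2 * Real.pi), Real.abs_exp]
    have hp := abs_nonneg (p k)
    have he := Real.exp_nonneg (-(Real.pi * ‖X k + s • w‖ ^ 2))
    have hq := abs_nonneg ⟪X k + s • w, w⟫_ℝ
    calc |p k| * (Real.exp (-(Real.pi * ‖X k + s • w‖ ^ 2)) *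
          (2 * Real.pi * |⟪X k + s • w, w⟫_ℝ|))
        ≤ |p k| * ((Real.exp (Real.pi * ‖w‖ ^ 2) * Real.exp (-(Real.pi / 2 * ‖X k‖ ^ 2))) *
          (2 * Real.pi * (|⟪X k, w⟫_ℝ| + ‖w‖ ^ 2))) := by
          refine mul_le_mul_of_nonneg_left ?_ hp
          refine mul_le_mul h3 (mul_le_mul_of_nonneg_left h5 (by positivity)) (by positivity)
            (by positivity)
      _ = 2 * Real.pi * Real.exp (Real.pi * ‖w‖ ^ 2) *
          (|p k * ⟪X k, w⟫_ℝ| * Real.exp (-(Real.pi / 2 * ‖X k‖ ^ 2)) +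
          ‖w‖ ^ 2 * (|p k| * Real.exp (-(Real.pi / 2 * ‖X k‖ ^ 2)))) := by
          rw [abs_mul]
          ring
  · simp only [zero_smul, add_zero]
    refine Summable.of_norm ?_
    refine h0.congr fun k => ?_
    rw [Real.norm_eq_abs, abs_mul, Real.abs_exp]

private theorem right_deriv {α : Type} (Y : α → E) (v w : E) (p : α → ℝ)
    (h0 : Summable fun k => |p k|) (h1 : Summable fun k => |p k * ⟪Y k, w⟫_ℝ|) :
    HasDerivAt (fun s : ℝ => ∑' k, (p k : ℂ) *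
        Complex.exp (2 * Real.pi * Complex.I * (⟪Y k, v + s • w⟫_ℝ : ℂ)))
      (∑' k, (p k : ℂ) * (Complex.exp (2 * Real.pi * Complex.I * (⟪Y k, v⟫_ℝ : ℂ)) *
        (2 * Real.pi * Complex.I * (⟪Y k, w⟫_ℝ : ℂ)))) 0 := by
  have hexp : ∀ (t : ℝ), ‖Complex.exp (2 * Real.pi * Complex.I * (t : ℂ))‖ = 1 := by
    intro t
    have e : (2 * Real.pi * Complex.I * (t : ℂ)) = ((2 * Real.pi * t : ℝ) : ℂ) * Complex.I := by
      push_cast
      ring
    rw [e, Complex.norm_exp_ofReal_mul_I]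
  have hline : ∀ (k : α) (s : ℝ), HasDerivAt (fun s : ℝ => (p k : ℂ) *
        Complex.exp (2 * Real.pi * Complex.I * (⟪Y k, v + s • w⟫_ℝ : ℂ)))
      ((p k : ℂ) * (Complex.exp (2 * Real.pi * Complex.I * (⟪Y k, v + s • w⟫_ℝ : ℂ)) *
        (2 * Real.pi * Complex.I * (⟪Y k, w⟫_ℝ : ℂ)))) s := by
    intro k s
    have h2 : HasDerivAt (fun s : ℝ => ⟪Y k, v + s • w⟫_ℝ) ⟪Y k, w⟫_ℝ s := by
      have h3 : (fun s : ℝ => ⟪Y k, v + s • w⟫_ℝ) = fun s : ℝ => ⟪Y k, v⟫_ℝ + s * ⟪Y k, w⟫_ℝ := by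
        funext s
        rw [inner_add_right, inner_smul_right]
      rw [h3]
      have h4 := ((hasDerivAt_id s).mul_const ⟪Y k, w⟫_ℝ).const_add ⟪Y k, v⟫_ℝ
      simpa using h4
    have h5 := ((h2.ofReal_comp.const_mul (2 * Real.pi * Complex.I)).cexp).const_mul (p k : ℂ)
    exact h5
  have hu := h1.mul_left (2 * Real.pi)
  have key := hasDerivAt_tsum_of_isPreconnected
    (g := fun k (s : ℝ) => (p k : ℂ) *
        Complex.exp (2 * Real.pi * Complex.I * (⟪Y k, v + s • w⟫_ℝ : ℂ)))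
    (g' := fun k (s : ℝ) => (p k : ℂ) *
      (Complex.exp (2 * Real.pi * Complex.I * (⟪Y k, v + s • w⟫_ℝ : ℂ)) *
        (2 * Real.pi * Complex.I * (⟪Y k, w⟫_ℝ : ℂ)))) (y₀ := (0 : ℝ)) (y := (0 : ℝ))
    (t := Set.univ) hu isOpen_univ isPreconnected_univ
    (fun k s _ => hline k s) ?_ (Set.mem_univ _) ?_ (Set.mem_univ _)
  · refine key.congr_deriv ?_
    simp only [zero_smul, add_zero]
  · intro k s _
    rw [norm_mul, norm_mul, hexp, one_mul, norm_mul, Complex.norm_real, Complex.norm_real]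
    have h6 : ‖(2 * Real.pi * Complex.I : ℂ)‖ = 2 * Real.pi := by
      rw [norm_mul, Complex.norm_I, mul_one, norm_mul, Complex.norm_real, Complex.norm_ofNat,
        Real.norm_eq_abs, abs_of_pos Real.pi_pos]
    rw [h6, Real.norm_eq_abs, Real.norm_eq_abs, abs_mul]
    apply le_of_eq
    ring
  · refine Summable.of_norm ?_
    refine h0.congr fun k => ?_
    rw [norm_mul, hexp, mul_one, Complex.norm_real, Real.norm_eq_abs]

end deriv

theorem poly_poisson {ι : Type} [Fintype ι] [DecidableEq ι] {E : Type} [NormedAddCommGroup E]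
    [InnerProductSpace ℝ E] [FiniteDimensional ℝ E] [MeasurableSpace E] [BorelSpace E]
    (B B' : Module.Basis ι ℝ E) (hB : ∀ i j, ⟪B' i, B j⟫_ℝ = if i = j then 1 else 0)
    {κ : Type} (S : Finset κ) (u : κ → E) (hu : ∀ i ∈ S, ∀ j ∈ S, i ≠ j → ⟪u i, u j⟫_ℝ = 0)
    (v : E) :
    (∑' k : ι → ℤ, (((∏ i ∈ S, ⟪(∑ i, (k i : ℝ) • B i) + v, u i⟫_ℝ) *
        Real.exp (-(Real.pi * ‖(∑ i, (k i : ℝ) • B i) + v‖ ^ 2)) : ℝ) : ℂ)) =
      (((volume (ZSpan.fundamentalDomain B)).toReal)⁻¹ : ℂ) * (-Complex.I) ^ S.card *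
        ∑' l : ι → ℤ, (((∏ i ∈ S, ⟪∑ i, (l i : ℝ) • B' i, u i⟫_ℝ) *
          Real.exp (-(Real.pi * ‖∑ i, (l i : ℝ) • B' i‖ ^ 2)) : ℝ) : ℂ) *
          Complex.exp (2 * Real.pi * Complex.I * (⟪∑ i, (l i : ℝ) • B' i, v⟫_ℝ : ℂ)) := by
  classical
  induction S using Finset.induction_on generalizing v with
  | empty =>
    have h := Pool.Agent.CMZ.gauss_poisson B B' hB v
    simp only [Finset.prod_empty, one_mul, Finset.card_empty, pow_zero, mul_one]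
    exact h
  | insert j S hj ih =>
    have hu' : ∀ i ∈ S, ∀ i' ∈ S, i ≠ i' → ⟪u i, u i'⟫_ℝ = 0 := fun i hi i' hi' =>
      hu i (Finset.mem_insert_of_mem hi) i' (Finset.mem_insert_of_mem hi')
    have hju : ∀ i ∈ S, ⟪u j, u i⟫_ℝ = 0 := fun i hi =>
      hu j (Finset.mem_insert_self j S) i (Finset.mem_insert_of_mem hi)
        (by rintro rfl; exact hj hi)
    obtain ⟨X, hX⟩ : ∃ X : (ι → ℤ) → E, ∀ k, X k = ∑ i, (k i : ℝ) • B i := ⟨_, fun _ => rfl⟩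
    obtain ⟨Y, hY⟩ : ∃ Y : (ι → ℤ) → E, ∀ k, Y k = ∑ i, (k i : ℝ) • B' i := ⟨_, fun _ => rfl⟩
    obtain ⟨P, hPd⟩ : ∃ P : E → ℝ, ∀ y, P y = ∏ i ∈ S, ⟪y, u i⟫_ℝ := ⟨_, fun _ => rfl⟩
    obtain ⟨c, hc⟩ : ∃ c : ℂ, c = (((volume (ZSpan.fundamentalDomain B)).toReal)⁻¹ : ℂ) *
      (-Complex.I) ^ S.card := ⟨_, rfl⟩
    simp only [← hX, ← hY, ← hPd, ← hc] at ih
    have hPw : ∀ (y : E) (s : ℝ), P (y + s • u j) = P y := by
      intro y s
      rw [hPd, hPd]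
      refine Finset.prod_congr rfl fun i hi => ?_
      rw [inner_add_left, inner_smul_left, hju i hi, mul_zero, add_zero]
    have hins : ∀ y : E, ∏ i ∈ insert j S, ⟪y, u i⟫_ℝ = P y * ⟪y, u j⟫_ℝ := by
      intro y
      rw [Finset.prod_insert hj, hPd, mul_comm]
    -- summability
    have s1 : ∀ a : ℝ, 0 < a → Summable fun k => |P (X k + v)| *
        Real.exp (-(a * ‖X k + v‖ ^ 2)) := by
      intro a ha
      have h := poly_summable B ha v S u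
      simpa only [← hX, ← hPd] using h
    have s2 : ∀ a : ℝ, 0 < a → Summable fun k => |P (X k + v) * ⟪X k + v, u j⟫_ℝ| *
        Real.exp (-(a * ‖X k + v‖ ^ 2)) := by
      intro a ha
      have h := poly_summable B ha v (insert j S) u
      simpa only [← hX, hins] using h
    have t1 : Summable fun k => |P (Y k) * Real.exp (-(Real.pi * ‖Y k‖ ^ 2))| := by
      have h := poly_summable B' Real.pi_pos (0 : E) S u
      simp only [add_zero, ← hY, ← hPd] at h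
      refine h.congr fun k => ?_
      rw [abs_mul, Real.abs_exp]
    have t2 : Summable fun k => |P (Y k) * Real.exp (-(Real.pi * ‖Y k‖ ^ 2)) *
        ⟪Y k, u j⟫_ℝ| := by
      have h := poly_summable B' Real.pi_pos (0 : E) (insert j S) u
      simp only [add_zero, ← hY, hins] at h
      refine h.congr fun k => ?_
      rw [abs_mul, abs_mul, abs_mul, Real.abs_exp]
      ring
    -- the two derivatives
    have hl := (left_deriv (fun k => X k + v) (u j) (fun k => P (X k + v)) (s1 _ Real.pi_pos)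
      (s1 _ (half_pos Real.pi_pos)) (s2 _ (half_pos Real.pi_pos))).ofReal_comp
    have hr := (right_deriv Y v (u j) (fun k => P (Y k) * Real.exp (-(Real.pi * ‖Y k‖ ^ 2)))
      t1 t2).const_mul c
    have heq : (fun s : ℝ => ((∑' k, P (X k + v) *
        Real.exp (-(Real.pi * ‖X k + v + s • u j‖ ^ 2)) : ℝ) : ℂ)) = fun s : ℝ =>
        c * ∑' k, ((P (Y k) * Real.exp (-(Real.pi * ‖Y k‖ ^ 2)) : ℝ) : ℂ) *
          Complex.exp (2 * Real.pi * Complex.I * (⟪Y k, v + s • u j⟫_ℝ : ℂ)) := by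
      funext s
      rw [← ih hu' (v + s • u j), Complex.ofReal_tsum]
      refine tsum_congr fun k => ?_
      rw [← add_assoc, hPw]
    rw [heq] at hl
    have hfin := hl.unique hr
    rw [Complex.ofReal_tsum] at hfin
    simp only [← hX, ← hY, hins]
    have e1 : ∀ k, (((P (X k + v) * (Real.exp (-(Real.pi * ‖X k + v‖ ^ 2)) *
        (-(2 * Real.pi * ⟪X k + v, u j⟫_ℝ))) : ℝ) : ℂ)) = (-(2 * Real.pi) : ℂ) *
        ((P (X k + v) * ⟪X k + v, u j⟫_ℝ * Real.exp (-(Real.pi * ‖X k + v‖ ^ 2)) : ℝ) : ℂ) := by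
      intro k
      push_cast
      ring
    have e2 : ∀ k, (((P (Y k) * Real.exp (-(Real.pi * ‖Y k‖ ^ 2)) : ℝ) : ℂ)) *
        (Complex.exp (2 * Real.pi * Complex.I * (⟪Y k, v⟫_ℝ : ℂ)) *
        (2 * Real.pi * Complex.I * (⟪Y k, u j⟫_ℝ : ℂ))) = (2 * Real.pi * Complex.I) *
        (((P (Y k) * ⟪Y k, u j⟫_ℝ * Real.exp (-(Real.pi * ‖Y k‖ ^ 2)) : ℝ) : ℂ) *
          Complex.exp (2 * Real.pi * Complex.I * (⟪Y k, v⟫_ℝ : ℂ))) := by
      intro k
      push_cast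
      ring
    simp only [e1, e2, tsum_mul_left] at hfin
    have hpi : (-(2 * Real.pi) : ℂ) ≠ 0 := by
      have h9 : (Real.pi : ℂ) ≠ 0 := Complex.ofReal_ne_zero.2 Real.pi_ne_zero
      exact neg_ne_zero.2 (mul_ne_zero two_ne_zero h9)
    apply mul_left_cancel₀ hpi
    rw [hfin, Finset.card_insert_of_notMem hj, pow_succ]
    rw [hc]
    ring

end Pool.HRC
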