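import Pool.Agent.HRC.Defs

/-!
# From ray class characters to the working form

PROOF. (1) Values are roots of unity: `I^h = (x)`, `x^φ(m) ≡ 1 (mod m)`, `x^(2 φ(m))` is totally
positive; hence `‖χ I‖ = 1` for `I` prime to `m`. (2) Signs: for every sign vector there is
`x ≡ 1 (mod m)` with these signs (weak approximation, e.g. `x = 1 + N y`, `N ∈ m` a positive integer,
`y` an integer with the prescribed signs and large real absolute values);
`x ↦ χ((x))` on `{x ≡ 1 (mod m)}` depends only on the sign vector (if `x, y ≡ 1` have the same signs,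
`x y³` and `y⁴`.. are totally positive) and is a homomorphism to `{±1}`, so it is `∏_{w ∈ S} sign_w`
with `S` = the real places `w` where an `x ≡ 1` negative exactly at `w` has `χ((x)) = -1`.
(3) `f(x) = χ((x)) sgn_S(x)` for `x ≠ 0` prime to `m`, and `f(x) = 0` for `x` not prime to `m`
(`f(0) = f(1) = 1` if `m = 1`); it only depends on `x` mod `m`: choose `u` with `u x ≡ 1 ≡ u y`.
-/

open scoped NumberField nonZeroDivisors
open NumberField NumberField.InfinitePlace NumberField.mixedEmbedding NumberField.Units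
  NumberField.Units.dirichletUnitTheorem Pool.ZD Pool.Agent.CMZ

namespace Pool.HRC

section aux

variable {K : Type} [Field K] [NumberField K]

/-- the coordinate at a real place -/
private noncomputable def rayE (w : RP K) (x : 𝓞 K) : ℝ := (mixedEmbedding K (x : K)).1 w

private theorem rayE_mul (w : RP K) (x y : 𝓞 K) : rayE w (x * y) = rayE w x * rayE w y := by
  simp [rayE]

private theorem rayE_one (w : RP K) : rayE w (1 : 𝓞 K) = 1 := by
  simp [rayE]

private theorem rayE_eq (w : RP K) (x : 𝓞 K) :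
    rayE w x = embedding_of_isReal w.2 (x : K) := by
  simp [rayE]

private theorem rayE_abs (w : RP K) (x : 𝓞 K) : |rayE w x| = w.1 (x : K) := by
  rw [rayE_eq, ← Real.norm_eq_abs, norm_embedding_of_isReal]

private theorem rayE_ne (w : RP K) {x : 𝓞 K} (hx : x ≠ 0) : rayE w x ≠ 0 := by
  rw [rayE_eq]
  intro h
  rw [map_eq_zero] at h
  exact hx (RingOfIntegers.coe_eq_zero_iff.mp h)

private theorem totPos_iff (x : 𝓞 K) : TotPos K x ↔ ∀ w : RP K, 0 < rayE w x := by
  constructor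
  · intro h w
    rw [rayE_eq]
    exact h _
  · intro h φ
    let ψ : K →+* ℂ := Complex.ofRealHom.comp φ
    have hψ : ComplexEmbedding.IsReal ψ := by
      rw [ComplexEmbedding.isReal_iff]
      ext y
      simp [ψ, ComplexEmbedding.conjugate]
    have hw : IsReal (InfinitePlace.mk ψ) := ⟨ψ, hψ, rfl⟩
    have h1 := h ⟨InfinitePlace.mk ψ, hw⟩
    rw [rayE_eq] at h1
    have h2 : ((embedding_of_isReal hw (x : K) : ℝ) : ℂ) = ((φ (x : K) : ℝ) : ℂ) := by
      rw [embedding_of_isReal_apply, embedding_mk_eq_of_isReal hψ]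
      rfl
    rw [Complex.ofReal_inj] at h2
    rw [← h2]
    exact h1

private theorem sgn_mul' (S : Finset (RP K)) (x y : 𝓞 K) :
    sgn S (x * y) = sgn S x * sgn S y := by
  have h : PS S (mixedEmbedding K ((x * y : 𝓞 K) : K)) =
      PS S (mixedEmbedding K (x : K)) * PS S (mixedEmbedding K (y : K)) := by
    unfold PS
    rw [← Finset.prod_mul_distrib]
    exact Finset.prod_congr rfl fun w _ => rayE_mul w x y
  unfold sgn
  rw [h, sign_mul, SignType.coe_mul]

private theorem sgn_pos (S : Finset (RP K)) (x : 𝓞 K) (h : ∀ w ∈ S, 0 < rayE w x) :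
    sgn S x = 1 := by
  have h1 : 0 < PS S (mixedEmbedding K (x : K)) := Finset.prod_pos h
  unfold sgn
  rw [sign_pos h1]
  simp

private theorem sgn_sq (S : Finset (RP K)) {x : 𝓞 K} (hx : x ≠ 0) : sgn S x * sgn S x = 1 := by
  rw [← sgn_mul']
  apply sgn_pos
  intro w _
  rw [rayE_mul]
  exact mul_self_pos.mpr (rayE_ne w hx)

private theorem sgn_abs (S : Finset (RP K)) {x : 𝓞 K} (hx : x ≠ 0) : |sgn S x| = 1 := by
  have h := sgn_sq S hx
  have h2 : |sgn S x| * |sgn S x| = 1 := by rw [abs_mul_abs_self, h]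
  nlinarith [abs_nonneg (sgn S x)]

/-- sign of an element negative exactly at `w` -/
private theorem sgn_single (S : Finset (RP K)) (w : RP K) (x : 𝓞 K) (hw : rayE w x < 0)
    (hpos : ∀ v, v ≠ w → 0 < rayE v x) [Decidable (w ∈ S)] :
    sgn S x = if w ∈ S then -1 else 1 := by
  classical
  split_ifs with h
  · have h1 : PS S (mixedEmbedding K (x : K)) < 0 := by
      unfold PS
      rw [← Finset.mul_prod_erase S _ h]
      exact mul_neg_of_neg_of_pos hw
        (Finset.prod_pos fun v hv => hpos v (Finset.ne_of_mem_erase hv))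
    unfold sgn
    rw [sign_neg h1]
    simp
  · exact sgn_pos S x fun v hv => hpos v fun e => h (e ▸ hv)

/-- an integer which is negative exactly at one real place and `≡ 1 (mod m)` -/
private theorem ray_elt (m : II K) (w : RP K) : ∃ t : 𝓞 K, t ≠ 0 ∧ t - 1 ∈ (m : Ideal (𝓞 K)) ∧
    rayE w t < 0 ∧ ∀ v, v ≠ w → 0 < rayE v t := by
  obtain ⟨u, hu⟩ := exists_unit K w.1
  have hlt : ∀ v : InfinitePlace K, v ≠ w.1 → v (u : K) < 1 := by
    intro v hv
    by_contra h
    push Not at h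
    exact absurd (hu v hv) (not_lt.mpr (Real.log_nonneg h))
  have hge : 1 ≤ w.1 (u : K) := by
    classical
    have h1 := Units.sum_mult_mul_log u
    rw [← Finset.add_sum_erase Finset.univ _ (Finset.mem_univ w.1)] at h1
    have h2 : ∑ v ∈ Finset.univ.erase w.1, (v.mult : ℝ) * Real.log (v (u : K)) ≤ 0 := by
      refine Finset.sum_nonpos fun v hv => ?_
      exact mul_nonpos_of_nonneg_of_nonpos (Nat.cast_nonneg _)
        (hu v (Finset.ne_of_mem_erase hv)).le
    have h3 : 0 ≤ (w.1.mult : ℝ) * Real.log (w.1 (u : K)) := by linarith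
    have h4 : 0 ≤ Real.log (w.1 (u : K)) := by
      have hm : (0 : ℝ) < (w.1.mult : ℝ) := by exact_mod_cast mult_pos
      by_contra hn
      push Not at hn
      have := mul_neg_of_pos_of_neg hm hn
      linarith
    by_contra hn
    push Not at hn
    have := Real.log_neg (Units.pos_at_place u w.1) hn
    linarith
  obtain ⟨k, hk⟩ : ∃ k : ℕ, ∀ v : InfinitePlace K, v ≠ w.1 → v (u : K) ^ k < 1 / 2 := by
    have h1 : ∀ v : InfinitePlace K, ∀ᶠ k : ℕ in Filter.atTop,
        v ≠ w.1 → v (u : K) ^ k < 1 / 2 := by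
      intro v
      by_cases hv : v = w.1
      · exact Filter.Eventually.of_forall fun k h => absurd hv h
      · have h2 := tendsto_pow_atTop_nhds_zero_of_lt_one (apply_nonneg v (u : K)) (hlt v hv)
        filter_upwards [h2.eventually_lt_const (show (0 : ℝ) < 1 / 2 by norm_num)] with k hk _
        exact hk
    exact (Filter.eventually_all.mpr h1).exists
  set y : 𝓞 K := 2 * (u : 𝓞 K) ^ k with hy
  set N : ℕ := Ideal.absNorm (m : Ideal (𝓞 K)) with hN
  have hN0 : 0 < N := by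
    rw [hN, Nat.pos_iff_ne_zero]
    intro h
    rw [Ideal.absNorm_eq_zero_iff] at h
    exact nonZeroDivisors.coe_ne_zero m h
  have hN1 : (1 : ℝ) ≤ N := by exact_mod_cast hN0
  have htv : ∀ v : RP K, rayE v (1 + N * (1 - y * y)) =
      1 + N * (1 - 4 * (v.1 (u : K) ^ k * v.1 (u : K) ^ k)) := by
    intro v
    have e1 : (v.1 (u : K)) * (v.1 (u : K)) =
        embedding_of_isReal v.2 (u : K) * embedding_of_isReal v.2 (u : K) := by
      rw [← norm_embedding_of_isReal v.2, Real.norm_eq_abs, abs_mul_abs_self]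
    let E : 𝓞 K →+* ℝ := (embedding_of_isReal v.2).comp (algebraMap (𝓞 K) K)
    have e2 : ∀ x : 𝓞 K, rayE v x = E x := fun x => rayE_eq v x
    have e3 : embedding_of_isReal v.2 (u : K) = E (u : 𝓞 K) := rfl
    rw [e2, hy, ← mul_pow, e1, mul_pow, e3, map_add, map_mul, map_sub, map_one, map_natCast,
      map_mul, map_mul, map_pow, map_ofNat]
    ring
  have hneg : rayE w (1 + N * (1 - y * y)) < 0 := by
    rw [htv]
    have h1 : 1 ≤ w.1 (u : K) ^ k := one_le_pow₀ hge
    have h2 : 1 ≤ w.1 (u : K) ^ k * w.1 (u : K) ^ k := by nlinarith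
    nlinarith
  refine ⟨1 + N * (1 - y * y), ?_, ?_, hneg, ?_⟩
  · intro h0
    rw [h0, rayE_eq] at hneg
    simp at hneg
  · have h1 : (N : 𝓞 K) ∈ (m : Ideal (𝓞 K)) := Ideal.absNorm_mem _
    have h2 : (1 + (N : 𝓞 K) * (1 - y * y)) - 1 = (N : 𝓞 K) * (1 - y * y) := by ring
    rw [h2]
    exact Ideal.mul_mem_right _ _ h1
  · intro v hv
    rw [htv]
    have hv' : v.1 ≠ w.1 := fun e => hv (Subtype.ext e)
    have h1 := hk v.1 hv'
    have h0 : 0 ≤ v.1 (u : K) ^ k := pow_nonneg (apply_nonneg _ _) _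
    have h2 : v.1 (u : K) ^ k * v.1 (u : K) ^ k ≤ 1 / 4 := by nlinarith
    have h3 : 0 ≤ (N : ℝ) * (1 - 4 * (v.1 (u : K) ^ k * v.1 (u : K) ^ k)) :=
      mul_nonneg (by positivity) (by linarith)
    linarith

/-- inverses modulo `m` -/
private theorem ray_cop (m : Ideal (𝓞 K)) (x : 𝓞 K) :
    IsCoprime (Ideal.span {x}) m ↔ ∃ u : 𝓞 K, u * x - 1 ∈ m := by
  rw [Ideal.isCoprime_iff_exists]
  constructor
  · rintro ⟨a, ha, b, hb, hab⟩
    obtain ⟨u, rfl⟩ := Ideal.mem_span_singleton'.mp ha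
    refine ⟨u, ?_⟩
    have : u * x - 1 = -b := by
      rw [← hab]
      ring
    rw [this]
    exact m.neg_mem hb
  · rintro ⟨u, hu⟩
    refine ⟨u * x, Ideal.mem_span_singleton'.mpr ⟨u, rfl⟩, 1 - u * x, ?_, by ring⟩
    have : 1 - u * x = -(u * x - 1) := by ring
    rw [this]
    exact m.neg_mem hu

private theorem ray_cop_mul (m : Ideal (𝓞 K)) (x y : 𝓞 K) :
    IsCoprime (Ideal.span {x * y}) m ↔
      IsCoprime (Ideal.span {x}) m ∧ IsCoprime (Ideal.span {y}) m := by
  rw [← Ideal.span_singleton_mul_span_singleton]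
  exact IsCoprime.mul_left_iff

private theorem ray_cop_congr (m : Ideal (𝓞 K)) (x y : 𝓞 K) (h : x - y ∈ m)
    (hx : IsCoprime (Ideal.span {x}) m) : IsCoprime (Ideal.span {y}) m := by
  rw [ray_cop] at hx ⊢
  obtain ⟨u, hu⟩ := hx
  refine ⟨u, ?_⟩
  have : u * y - 1 = (u * x - 1) - u * (x - y) := by ring
  rw [this]
  exact m.sub_mem hu (m.mul_mem_left _ h)

variable {m : II K} {χ : Ideal (𝓞 K) → ℂ}

private theorem ray_pow (h : IsRayClassChar K (m : Ideal (𝓞 K)) χ) (I : Ideal (𝓞 K)) (n : ℕ) :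
    χ (I ^ n) = χ I ^ n := by
  induction n with
  | zero => rw [pow_zero, pow_zero, h.map_one]
  | succ n ih => rw [pow_succ, pow_succ, h.map_mul, ih]

/-- values are roots of unity -/
private theorem ray_norm (h : IsRayClassChar K (m : Ideal (𝓞 K)) χ) (I : Ideal (𝓞 K))
    (hI : χ I ≠ 0) : ‖χ I‖ = 1 := by
  obtain ⟨hI0, hIm⟩ := (h.ne_zero_iff I).mp hI
  -- a principal power
  let I' : II K := ⟨I, mem_nonZeroDivisors_of_ne_zero hI0⟩
  set c := Fintype.card (ClassGroup (𝓞 K)) with hc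
  have hc0 : 0 < c := Fintype.card_pos
  have h1 : ClassGroup.mk0 (I' ^ c) = 1 := by
    rw [map_pow]
    exact pow_card_eq_one
  have h2 : (I ^ c).IsPrincipal :=
    (ClassGroup.mk0_eq_one_iff (I' ^ c).2).mp h1
  obtain ⟨x, hx⟩ := h2
  have hx' : I ^ c = Ideal.span {x} := hx
  have hx0 : x ≠ 0 := by
    rintro rfl
    rw [Ideal.span_singleton_eq_bot.mpr rfl] at hx'
    exact pow_ne_zero c hI0 hx'
  have hxm : IsCoprime (Ideal.span {x}) (m : Ideal (𝓞 K)) := by
    rw [← hx']
    exact hIm.pow_left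
  obtain ⟨u, hu⟩ := (ray_cop _ _).mp hxm
  -- a power congruent to 1
  have hfin : Finite (𝓞 K ⧸ (m : Ideal (𝓞 K))) :=
    Ideal.finiteQuotientOfFreeOfNeBot _ (nonZeroDivisors.coe_ne_zero m)
  have hunit : IsUnit (Ideal.Quotient.mk (m : Ideal (𝓞 K)) x) := by
    refine IsUnit.of_mul_eq_one (Ideal.Quotient.mk (m : Ideal (𝓞 K)) u) ?_
    rw [← map_mul, ← map_one (Ideal.Quotient.mk (m : Ideal (𝓞 K))), Ideal.Quotient.mk_eq_mk_iff_sub_mem,
      mul_comm x u]
    exact hu
  obtain ⟨U, hU⟩ := hunit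
  have hfin2 : Finite (𝓞 K ⧸ (m : Ideal (𝓞 K)))ˣ := inferInstance
  set k := Nat.card (𝓞 K ⧸ (m : Ideal (𝓞 K)))ˣ with hk
  have hk0 : 0 < k := Nat.card_pos
  have hUk : U ^ k = 1 := pow_card_eq_one'
  have hxk : x ^ k - 1 ∈ (m : Ideal (𝓞 K)) := by
    rw [← Ideal.Quotient.mk_eq_mk_iff_sub_mem, map_pow, ← hU, map_one, ← Units.val_pow_eq_pow_val,
      hUk, Units.val_one]
  have hx2k : x ^ (k * 2) - 1 ∈ (m : Ideal (𝓞 K)) := by
    have : x ^ (k * 2) - 1 = (x ^ k + 1) * (x ^ k - 1) := by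
      rw [pow_mul]
      ring
    rw [this]
    exact Ideal.mul_mem_left _ _ hxk
  have htp : TotPos K (x ^ (k * 2)) := by
    rw [totPos_iff]
    intro w
    rw [pow_mul, sq, rayE_mul]
    exact mul_self_pos.mpr (rayE_ne w (pow_ne_zero _ hx0))
  have h3 := h.map_ray _ (pow_ne_zero _ hx0) hx2k htp
  rw [← Ideal.span_singleton_pow, ray_pow h, ← hx', ray_pow h, ← pow_mul] at h3
  have h4 : ‖χ I‖ ^ (c * (k * 2)) = 1 := by
    rw [← norm_pow, h3, norm_one]
  exact (pow_eq_one_iff_of_nonneg (norm_nonneg _) (by positivity)).mp h4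

/-- the choice of the signs -/
private theorem ray_signs (h : IsRayClassChar K (m : Ideal (𝓞 K)) χ) :
    ∃ S : Finset (RP K), ∀ x : 𝓞 K, x ≠ 0 → x - 1 ∈ (m : Ideal (𝓞 K)) →
      χ (Ideal.span {x}) = ((sgn S x : ℝ) : ℂ) := by
  classical
  have hmul : ∀ x y : 𝓞 K, χ (Ideal.span {x * y}) = χ (Ideal.span {x}) * χ (Ideal.span {y}) := by
    intro x y
    rw [← Ideal.span_singleton_mul_span_singleton, h.map_mul]
  have hone : ∀ x y : 𝓞 K, x - 1 ∈ (m : Ideal (𝓞 K)) → y - 1 ∈ (m : Ideal (𝓞 K)) →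
      x * y - 1 ∈ (m : Ideal (𝓞 K)) := by
    intro x y hx hy
    have : x * y - 1 = x * (y - 1) + (x - 1) := by ring
    rw [this]
    exact Ideal.add_mem _ (Ideal.mul_mem_left _ _ hy) hx
  choose t ht0 ht1 htn htp using fun w : RP K => ray_elt m w
  -- values `±1`
  have hsq : ∀ x : 𝓞 K, x ≠ 0 → x - 1 ∈ (m : Ideal (𝓞 K)) →
      χ (Ideal.span {x}) = 1 ∨ χ (Ideal.span {x}) = -1 := by
    intro x hx0 hx1
    have h1 : χ (Ideal.span {x * x}) = 1 := by
      refine h.map_ray _ (mul_ne_zero hx0 hx0) (hone x x hx1 hx1) ?_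
      rw [totPos_iff]
      intro w
      rw [rayE_mul]
      exact mul_self_pos.mpr (rayE_ne w hx0)
    rw [hmul] at h1
    exact mul_self_eq_one_iff.mp h1
  let S : Finset (RP K) := Finset.univ.filter fun w => χ (Ideal.span {t w}) ≠ 1
  have hS : ∀ w, χ (Ideal.span {t w}) = ((sgn S (t w) : ℝ) : ℂ) := by
    intro w
    rw [sgn_single S w (t w) (htn w) (htp w)]
    by_cases hw : χ (Ideal.span {t w}) = 1
    · rw [if_neg (by simp [S, hw]), hw, Complex.ofReal_one]
    · rw [if_pos (by simp [S, hw])]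
      rcases hsq (t w) (ht0 w) (ht1 w) with h1 | h1
      · exact absurd h1 hw
      · rw [h1, Complex.ofReal_neg, Complex.ofReal_one]
  refine ⟨S, fun x hx0 hx1 => ?_⟩
  let Nx : Finset (RP K) := Finset.univ.filter fun w => rayE w x < 0
  -- products over subsets
  have hprod : ∀ T : Finset (RP K), (∏ w ∈ T, t w) ≠ 0 ∧ (∏ w ∈ T, t w) - 1 ∈ (m : Ideal (𝓞 K)) ∧
      χ (Ideal.span {∏ w ∈ T, t w}) = ((sgn S (∏ w ∈ T, t w) : ℝ) : ℂ) ∧
      ∀ v, rayE v (∏ w ∈ T, t w) = ∏ w ∈ T, rayE v (t w) := by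
    intro T
    induction T using Finset.induction_on with
    | empty =>
      refine ⟨by simp, by simp, ?_, fun v => by simp [rayE_one]⟩
      rw [Finset.prod_empty, sgn_pos S 1 fun w _ => by rw [rayE_one]; exact one_pos]
      rw [Ideal.span_singleton_one, ← Ideal.one_eq_top, h.map_one, Complex.ofReal_one]
    | insert w T hw ih =>
      obtain ⟨i1, i2, i3, i4⟩ := ih
      rw [Finset.prod_insert hw]
      refine ⟨mul_ne_zero (ht0 w) i1, hone _ _ (ht1 w) i2, ?_, fun v => ?_⟩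
      · rw [hmul, hS, i3, sgn_mul', Complex.ofReal_mul]
      · rw [rayE_mul, i4, Finset.prod_insert hw]
  obtain ⟨p1, p2, p3, p4⟩ := hprod Nx
  set q := ∏ w ∈ Nx, t w with hq
  have htot : ∀ v, 0 < rayE v (x * q) := by
    intro v
    rw [rayE_mul, p4]
    by_cases hv : rayE v x < 0
    · have hvN : v ∈ Nx := by simp [Nx, hv]
      rw [← Finset.mul_prod_erase Nx _ hvN]
      have h1 : 0 < ∏ w ∈ Nx.erase v, rayE v (t w) :=
        Finset.prod_pos fun w hw => htp w v (Finset.ne_of_mem_erase hw).symm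
      rw [← mul_assoc]
      exact mul_pos (mul_pos_of_neg_of_neg hv (htn v)) h1
    · have h0 : 0 < rayE v x := lt_of_le_of_ne (not_lt.mp hv) (rayE_ne v hx0).symm
      refine mul_pos h0 (Finset.prod_pos fun w hw => htp w v ?_)
      rintro rfl
      simp only [Nx, Finset.mem_filter, Finset.mem_univ, true_and] at hw
      exact hv hw
  have e1 : χ (Ideal.span {x * q}) = 1 :=
    h.map_ray _ (mul_ne_zero hx0 p1) (hone _ _ hx1 p2) ((totPos_iff _).mpr htot)
  have e2 : sgn S (x * q) = 1 := sgn_pos S _ fun w _ => htot w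
  rw [hmul, p3] at e1
  rw [sgn_mul'] at e2
  have e3 : sgn S q * sgn S q = 1 := sgn_sq S p1
  have e4 : ((sgn S q : ℝ) : ℂ) * ((sgn S q : ℝ) : ℂ) = 1 := by
    rw [← Complex.ofReal_mul, e3, Complex.ofReal_one]
  have e5 : ((sgn S x : ℝ) : ℂ) * ((sgn S q : ℝ) : ℂ) = 1 := by
    rw [← Complex.ofReal_mul, e2, Complex.ofReal_one]
  have e6 : ((sgn S q : ℝ) : ℂ) ≠ 0 := by
    intro h0
    rw [h0, mul_zero] at e4
    exact zero_ne_one e4
  exact mul_right_cancel₀ e6 (e1.trans e5.symm)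

end aux

theorem exists_HC (K : Type) [Field K] [NumberField K] (m : II K) (χ : Ideal (𝓞 K) → ℂ)
    (h : IsRayClassChar K (m : Ideal (𝓞 K)) χ) (hp : IsPrim K (m : Ideal (𝓞 K)) χ) :
    ∃ (S : Finset (RP K)) (f : 𝓞 K → ℂ), HC K m (fun I => χ (I : Ideal (𝓞 K))) S f := by
  classical
  obtain ⟨S, hS⟩ := ray_signs h
  set M : Ideal (𝓞 K) := (m : Ideal (𝓞 K)) with hM
  have hM0 : M ≠ ⊥ := nonZeroDivisors.coe_ne_zero m
  let g : 𝓞 K → ℂ := fun x => χ (Ideal.span {x}) * ((sgn S x : ℝ) : ℂ)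
  have hχmul : ∀ x y : 𝓞 K, χ (Ideal.span {x * y}) = χ (Ideal.span {x}) * χ (Ideal.span {y}) := by
    intro x y
    rw [← Ideal.span_singleton_mul_span_singleton, h.map_mul]
  have hspan : ∀ x : 𝓞 K, x ≠ 0 → Ideal.span {x} ≠ (⊥ : Ideal (𝓞 K)) := fun x hx h0 =>
    hx (Ideal.span_singleton_eq_bot.mp h0)
  have hgmul : ∀ x y, g (x * y) = g x * g y := by
    intro x y
    simp only [g]
    rw [hχmul, sgn_mul', Complex.ofReal_mul]
    ring
  have hsgnC : ∀ x : 𝓞 K, x ≠ 0 → ((sgn S x : ℝ) : ℂ) * ((sgn S x : ℝ) : ℂ) = 1 := by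
    intro x hx
    rw [← Complex.ofReal_mul, sgn_sq S hx, Complex.ofReal_one]
  have hg1 : ∀ x : 𝓞 K, x ≠ 0 → x - 1 ∈ M → g x = 1 := by
    intro x hx0 hx1
    simp only [g]
    rw [hS x hx0 hx1, hsgnC x hx0]
  have hgne : ∀ x : 𝓞 K, x ≠ 0 → IsCoprime (Ideal.span {x}) M → g x ≠ 0 := by
    intro x hx0 hx
    refine mul_ne_zero ((h.ne_zero_iff _).mpr ⟨hspan x hx0, hx⟩) ?_
    intro h0
    have := hsgnC x hx0
    rw [h0, mul_zero] at this
    exact zero_ne_one this
  -- `g` only depends on the class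
  have hgper : ∀ x y : 𝓞 K, x ≠ 0 → y ≠ 0 → IsCoprime (Ideal.span {x}) M → x - y ∈ M →
      g x = g y := by
    intro x y hx0 hy0 hx hxy
    obtain ⟨u, hu⟩ := (ray_cop M x).mp hx
    obtain ⟨v, hv0, hv⟩ : ∃ v : 𝓞 K, v ≠ 0 ∧ v * x - 1 ∈ M := by
      by_cases hu0 : u = 0
      · have htop : M = ⊤ := by
          rw [hu0, zero_mul, zero_sub] at hu
          exact (Ideal.eq_top_iff_one M).mpr (neg_mem_iff.mp hu)
        exact ⟨1, one_ne_zero, by rw [htop]; trivial⟩
      · exact ⟨u, hu0, hu⟩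
    have hv' : v * y - 1 ∈ M := by
      have : v * y - 1 = (v * x - 1) - v * (x - y) := by ring
      rw [this]
      exact M.sub_mem hv (M.mul_mem_left _ hxy)
    have e1 := hg1 (v * x) (mul_ne_zero hv0 hx0) hv
    have e2 := hg1 (v * y) (mul_ne_zero hv0 hy0) hv'
    rw [hgmul] at e1 e2
    have hgv : g v ≠ 0 := by
      intro h0
      rw [h0, zero_mul] at e1
      exact zero_ne_one e1
    exact mul_left_cancel₀ hgv (e1.trans e2.symm)
  let f : 𝓞 K → ℂ := fun x => if IsCoprime (Ideal.span {x}) M then (if x = 0 then 1 else g x) else 0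
  have hzero : IsCoprime (Ideal.span {(0 : 𝓞 K)}) M → M = ⊤ := by
    intro h0
    obtain ⟨u, hu⟩ := (ray_cop M 0).mp h0
    rw [mul_zero, zero_sub] at hu
    exact (Ideal.eq_top_iff_one M).mpr (neg_mem_iff.mp hu)
  -- if `M = ⊤` then `f = 1`
  have hftop : M = ⊤ → ∀ x, f x = 1 := by
    intro htop x
    have hc : IsCoprime (Ideal.span {x}) M := (ray_cop M x).mpr ⟨0, by rw [htop]; trivial⟩
    simp only [f]
    rw [if_pos hc]
    split_ifs with h0
    · rfl
    · exact hg1 x h0 (by rw [htop]; trivial)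
  have hfg : ∀ x : 𝓞 K, x ≠ 0 → IsCoprime (Ideal.span {x}) M → f x = g x := by
    intro x hx0 hx
    simp only [f]
    rw [if_pos hx, if_neg hx0]
  have hf0 : ∀ x : 𝓞 K, ¬ IsCoprime (Ideal.span {x}) M → f x = 0 := by
    intro x hx
    simp only [f]
    rw [if_neg hx]
  have hfne : ∀ x, f x ≠ 0 ↔ IsCoprime (Ideal.span {x}) M := by
    intro x
    by_cases hx : IsCoprime (Ideal.span {x}) M
    · simp only [hx, iff_true]
      by_cases hx0 : x = 0
      · rw [hftop (hzero (hx0 ▸ hx)) x]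
        exact one_ne_zero
      · rw [hfg x hx0 hx]
        exact hgne x hx0 hx
    · simp [hf0 x hx, hx]
  have hfper : ∀ x y, x - y ∈ M → f x = f y := by
    intro x y hxy
    by_cases htop : M = ⊤
    · rw [hftop htop, hftop htop]
    by_cases hx : IsCoprime (Ideal.span {x}) M
    · have hy := ray_cop_congr M x y hxy hx
      have hx0 : x ≠ 0 := by
        rintro rfl
        exact htop (hzero hx)
      have hy0 : y ≠ 0 := by
        rintro rfl
        exact htop (hzero hy)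
      rw [hfg x hx0 hx, hfg y hy0 hy]
      exact hgper x y hx0 hy0 hx hxy
    · have hy : ¬ IsCoprime (Ideal.span {y}) M := by
        intro hy
        refine hx (ray_cop_congr M y x ?_ hy)
        have : y - x = -(x - y) := by ring
        rw [this]
        exact M.neg_mem hxy
      rw [hf0 x hx, hf0 y hy]
  have hfmul : ∀ x y, f (x * y) = f x * f y := by
    intro x y
    by_cases htop : M = ⊤
    · rw [hftop htop, hftop htop, hftop htop, mul_one]
    have hc := ray_cop_mul M x y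
    by_cases hx : IsCoprime (Ideal.span {x}) M
    · by_cases hy : IsCoprime (Ideal.span {y}) M
      · have hx0 : x ≠ 0 := by
          rintro rfl
          exact htop (hzero hx)
        have hy0 : y ≠ 0 := by
          rintro rfl
          exact htop (hzero hy)
        rw [hfg x hx0 hx, hfg y hy0 hy, hfg _ (mul_ne_zero hx0 hy0) (hc.mpr ⟨hx, hy⟩), hgmul]
      · rw [hf0 y hy, mul_zero]
        exact hf0 _ fun h' => hy (hc.mp h').2
    · rw [hf0 x hx, zero_mul]
      exact hf0 _ fun h' => hx (hc.mp h').1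
  have hgnorm : ∀ x : 𝓞 K, x ≠ 0 → IsCoprime (Ideal.span {x}) M → ‖g x‖ = 1 := by
    intro x hx0 hx
    simp only [g]
    rw [norm_mul, ray_norm h _ ((h.ne_zero_iff _).mpr ⟨hspan x hx0, hx⟩), Complex.norm_real,
      Real.norm_eq_abs, sgn_abs S hx0, one_mul]
  refine ⟨S, f, ?_⟩
  constructor
  · exact h.map_one
  · intro I J
    exact h.map_mul _ _
  · intro I
    rw [h.ne_zero_iff]
    constructor
    · exact fun h' => h'.2
    · exact fun h' => ⟨nonZeroDivisors.coe_ne_zero I, h'⟩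
  · intro I hI
    exact ray_norm h _ hI
  · rw [hfg 1 one_ne_zero ((ray_cop M 1).mpr ⟨1, by simp⟩)]
    exact hg1 1 one_ne_zero (by simp)
  · exact hfmul
  · exact hfper
  · exact hfne
  · intro x hx
    have hc := (hfne x).mp hx
    by_cases hx0 : x = 0
    · rw [hftop (hzero (hx0 ▸ hc)) x, norm_one]
    · rw [hfg x hx0 hc]
      exact hgnorm x hx0 hc
  · intro x hx0
    have e1 : ((spn K x : II K) : Ideal (𝓞 K)) = Ideal.span {x} := by
      unfold spn
      rw [dif_neg hx0]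
    simp only [e1]
    by_cases hx : IsCoprime (Ideal.span {x}) M
    · rw [hfg x hx0 hx]
      simp only [g]
      rw [mul_assoc, hsgnC x hx0, mul_one]
    · rw [hf0 x hx, zero_mul]
      by_contra hne
      exact hx ((h.ne_zero_iff _).mp hne).2
  · intro D hD hDne
    obtain ⟨x, hx0, hx1, hxp, hx2, hx3⟩ := hp D hD hDne
    have hxc := ((h.ne_zero_iff _).mp hx2).2
    have hfx : f x = χ (Ideal.span {x}) := by
      rw [hfg x hx0 hxc]
      simp only [g]
      rw [sgn_pos S x fun w _ => (totPos_iff x).mp hxp w, Complex.ofReal_one, mul_one]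
    exact ⟨x, hx1, by rw [hfx]; exact hx2, by rw [hfx]; exact hx3⟩

end Pool.HRC
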