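import Pool.Agent.HRC.Defs
import Pool.Agent.HRC.Poly

/-!
# The theta transformation with polynomial factor for any number field
-/

open scoped NumberField nonZeroDivisors InnerProductSpace Pointwise
open NumberField NumberField.InfinitePlace NumberField.mixedEmbedding NumberField.Units
  NumberField.Units.dirichletUnitTheorem Pool.ZD Pool.Agent.CMZ Pool.Agent.CMZ.DualAux
  Pool.Agent.CMZ.UnfAux MeasureTheory

namespace Pool.HRC

variable (K : Type) [Field K] [NumberField K]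

/-- The function whose theta series is formed. -/
noncomputable def th (S : Finset (RP K)) (c : ℝ) (z : mixedSpace K) : ℝ :=
  √c ^ S.card * PS S z * Real.exp (-(Real.pi * c * qf K z))

/-! ### The normalizing element -/

/-- The element with coordinates `1` (real places) and `√2` (complex places). -/
noncomputable def u2 : mixedSpace K := (fun _ => 1, fun _ => (√2 : ℂ))

theorem normAtPlace_u2 (w : InfinitePlace K) : normAtPlace w (u2 K) = √(mult w) := by
  rcases isReal_or_isComplex w with hw | hw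
  · rw [normAtPlace_apply_of_isReal hw, mult_isReal ⟨w, hw⟩]
    simp [u2]
  · rw [normAtPlace_apply_of_isComplex hw, mult_isComplex ⟨w, hw⟩]
    simp [u2]

theorem normAtPlace_u2_sq (w : InfinitePlace K) : normAtPlace w (u2 K) ^ 2 = mult w := by
  rw [normAtPlace_u2, Real.sq_sqrt (Nat.cast_nonneg _)]

theorem norm_u2 : mixedEmbedding.norm (u2 K) = 2 ^ nrComplexPlaces K := by
  classical
  rw [mixedEmbedding.norm_apply]
  have h1 : ∀ w : InfinitePlace K, normAtPlace w (u2 K) ^ mult w =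
      if IsComplex w then 2 else 1 := by
    intro w
    rcases isReal_or_isComplex w with hw | hw
    · rw [normAtPlace_u2, mult_isReal ⟨w, hw⟩, if_neg (not_isComplex_iff_isReal.2 hw)]
      simp
    · rw [normAtPlace_u2, mult_isComplex ⟨w, hw⟩, if_pos hw]
      simp
  rw [Finset.prod_congr rfl fun w _ => h1 w, Finset.prod_ite, Finset.prod_const_one, mul_one,
    Finset.prod_const, nrComplexPlaces, Fintype.card_subtype]

theorem norm_u2_pos : 0 < mixedEmbedding.norm (u2 K) := by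
  rw [norm_u2]
  positivity

/-- The shift in the logarithmic space. -/
noncomputable def t2 : logSpace K := logMap (u2 K)

/-- The scalar. -/
noncomputable def r2 : ℝ := Real.exp (Real.log (mixedEmbedding.norm (u2 K)) / nn K)

theorem r2_pos : 0 < r2 K := Real.exp_pos _

theorem r2_pow : r2 K ^ nn K = 2 ^ nrComplexPlaces K := by
  have hn : (nn K : ℝ) ≠ 0 := by
    have : 0 < nn K := Module.finrank_pos
    exact_mod_cast this.ne'
  unfold r2
  rw [← Real.exp_nat_mul, mul_div_cancel₀ _ hn, Real.exp_log (norm_u2_pos K), norm_u2]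

theorem r2_mul_sc (w : InfinitePlace K) : r2 K * sc K (t2 K) w = √(mult w) := by
  have h := sc_logMap K (u2 K) (norm_u2_pos K).ne' w
  unfold t2 r2
  rw [h, mul_comm, mul_assoc, ← Real.exp_add, neg_add_cancel, Real.exp_zero, mul_one,
    normAtPlace_u2]

theorem r2_mul_sc_neg (w : InfinitePlace K) : (r2 K)⁻¹ * sc K (-t2 K) w = (√(mult w))⁻¹ := by
  have h1 := sc_mul_neg K (t2 K) w
  have h2 : sc K (-t2 K) w = (sc K (t2 K) w)⁻¹ := eq_inv_of_mul_eq_one_left h1
  rw [h2, ← mul_inv, r2_mul_sc]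

/-! ### The Euclidean vectors -/

theorem en_shift (t : logSpace K) (z : mixedSpace K) :
    r2 K ^ 2 * en K (sg K (t + t2 K) * z) ^ 2 = qf K (sg K t * z) := by
  unfold en qf
  rw [Real.sq_sqrt (Finset.sum_nonneg fun _ _ => sq_nonneg _), Finset.mul_sum]
  refine Finset.sum_congr rfl fun w _ => ?_
  rw [normAtPlace_sg_mul, normAtPlace_sg_mul, sc_add]
  have h1 := r2_mul_sc K w
  have h2 : (√(mult w)) ^ 2 = (mult w : ℝ) := Real.sq_sqrt (Nat.cast_nonneg _)
  rw [← h2, ← h1]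
  ring

open scoped Classical in
theorem norm_Dt_shift (t : logSpace K) (y : mixedSpace K) :
    (r2 K)⁻¹ ^ 2 * ‖(euclidean.toMixed K).symm (Dt K (t + t2 K) y)‖ ^ 2 = qf K (sg K (-t) * y) := by
  rw [← en_eq]
  unfold en qf
  rw [Real.sq_sqrt (Finset.sum_nonneg fun _ _ => sq_nonneg _), Finset.mul_sum]
  refine Finset.sum_congr rfl fun w _ => ?_
  have h0 := sc_pos K (-t) w
  have h1 := r2_mul_sc_neg K w
  have h3 : sc K (-(t + t2 K)) w = sc K (-t) w * sc K (-t2 K) w := by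
    rw [neg_add, sc_add]
  have h4 := sc_pos K (-(t + t2 K)) w
  rcases isReal_or_isComplex w with hw | hw
  · have h5 : normAtPlace w (Dt K (t + t2 K) y) = sc K (-(t + t2 K)) w * normAtPlace w y := by
      rw [normAtPlace_apply_of_isReal hw, normAtPlace_apply_of_isReal hw]
      show ‖y.1 ⟨w, hw⟩ * sc K (-(t + t2 K)) w‖ = _
      rw [norm_mul, Real.norm_eq_abs (sc K _ w), abs_of_pos h4, mul_comm]
    rw [h5, normAtPlace_sg_mul, h3]
    rw [mult_isReal ⟨w, hw⟩] at h1 ⊢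
    simp only [Nat.cast_one, Real.sqrt_one, inv_one] at h1
    have h6 : (r2 K)⁻¹ ^ 2 * (sc K (-t) w * sc K (-t2 K) w * normAtPlace w y) ^ 2 =
      ((r2 K)⁻¹ * sc K (-t2 K) w) ^ 2 * (sc K (-t) w * normAtPlace w y) ^ 2 := by ring
    rw [h6, h1]
    simp
  · have h5 : normAtPlace w (Dt K (t + t2 K) y) =
        2 * (sc K (-(t + t2 K)) w * normAtPlace w y) := by
      rw [normAtPlace_apply_of_isComplex hw, normAtPlace_apply_of_isComplex hw]
      show ‖2 * (starRingEnd ℂ) (y.2 ⟨w, hw⟩) * (sc K (-(t + t2 K)) w : ℂ)‖ = _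
      rw [norm_mul, norm_mul, RCLike.norm_conj, Complex.norm_ofNat, Complex.norm_real,
        Real.norm_eq_abs, abs_of_pos h4]
      ring
    rw [h5, normAtPlace_sg_mul, h3]
    rw [mult_isComplex ⟨w, hw⟩] at h1 ⊢
    have h6 : (r2 K)⁻¹ ^ 2 * (2 * (sc K (-t) w * sc K (-t2 K) w * normAtPlace w y)) ^ 2 =
      4 * ((r2 K)⁻¹ * sc K (-t2 K) w) ^ 2 * (sc K (-t) w * normAtPlace w y) ^ 2 := by ring
    rw [h6, h1, inv_pow, Real.sq_sqrt (Nat.cast_nonneg _)]
    push_cast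
    ring

open scoped Classical in
/-- The unit vectors of the real coordinates. -/
noncomputable def uu (w : RP K) : euclidean.mixedSpace K :=
  (euclidean.toMixed K).symm (Pi.single w 1, 0)

open scoped Classical in
theorem inner_uu (z : euclidean.mixedSpace K) (w : RP K) :
    ⟪z, uu K w⟫_ℝ = ((euclidean.toMixed K) z).1 w := by
  unfold uu
  rw [Pool.HDZ.inner_eq]
  simp [Pi.single_apply]

open scoped Classical in
theorem uu_orth (w w' : RP K) (h : w ≠ w') : ⟪uu K w, uu K w'⟫_ℝ = 0 := by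
  rw [inner_uu]
  unfold uu
  rw [ContinuousLinearEquiv.apply_symm_apply]
  simp [Pi.single_apply, h.symm]

open scoped Classical in
theorem inner_left (t : logSpace K) (z : mixedSpace K) (ρ : ℝ) (w : RP K) :
    ⟪(ρ * r2 K) • (euclidean.toMixed K).symm (sg K (t + t2 K) * z), uu K w⟫_ℝ =
      ρ * (sg K t * z).1 w := by
  rw [inner_uu, map_smul, ContinuousLinearEquiv.apply_symm_apply]
  have h1 := r2_mul_sc K w.1
  rw [mult_isReal w] at h1
  simp only [Nat.cast_one, Real.sqrt_one] at h1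
  have h2 : ∀ s : logSpace K, (sg K s * z).1 w = sc K s w.1 * z.1 w := by
    intro s
    unfold sg
    rw [mixedSpaceOfRealSpace_apply]
    rfl
  show ρ * r2 K * (sg K (t + t2 K) * z).1 w = ρ * (sg K t * z).1 w
  rw [h2, h2, sc_add]
  have h3 : ρ * r2 K * (sc K t w.1 * sc K (t2 K) w.1 * z.1 w) =
      (r2 K * sc K (t2 K) w.1) * (ρ * (sc K t w.1 * z.1 w)) := by ring
  rw [h3, h1, one_mul]

open scoped Classical in
theorem inner_right (t : logSpace K) (y : mixedSpace K) (ρ : ℝ) (w : RP K) :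
    ⟪(ρ * r2 K)⁻¹ • (euclidean.toMixed K).symm (Dt K (t + t2 K) y), uu K w⟫_ℝ =
      ρ⁻¹ * (sg K (-t) * y).1 w := by
  rw [inner_uu, map_smul, ContinuousLinearEquiv.apply_symm_apply]
  have h1 := r2_mul_sc_neg K w.1
  rw [mult_isReal w] at h1
  simp only [Nat.cast_one, Real.sqrt_one, inv_one] at h1
  have h2 : (sg K (-t) * y).1 w = sc K (-t) w.1 * y.1 w := by
    unfold sg
    rw [mixedSpaceOfRealSpace_apply]
    rfl
  show (ρ * r2 K)⁻¹ * (y.1 w * sc K (-(t + t2 K)) w.1) = ρ⁻¹ * (sg K (-t) * y).1 w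
  rw [h2, neg_add, sc_add, mul_inv]
  have h3 : ρ⁻¹ * (r2 K)⁻¹ * (y.1 w * (sc K (-t) w.1 * sc K (-t2 K) w.1)) =
      ((r2 K)⁻¹ * sc K (-t2 K) w.1) * (ρ⁻¹ * (sc K (-t) w.1 * y.1 w)) := by ring
  rw [h3, h1, one_mul]

/-! ### The theta series -/

theorem me_add (r : 𝓞 K) (x : 𝓞 K) : mixedEmbedding K (((r + x : 𝓞 K)) : K) =
    mixedEmbedding K (r : K) + mixedEmbedding K (x : K) := by
  have h : (((r + x : 𝓞 K)) : K) = (r : K) + (x : K) := map_add (algebraMap (𝓞 K) K) r x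
  rw [h, map_add]

open scoped Classical in
theorem th_eq (S : Finset (RP K)) {c : ℝ} (hc : 0 < c) (t : logSpace K) (z : mixedSpace K) :
    th K S c (sg K t * z) = (∏ w ∈ S,
      ⟪(√c * r2 K) • (euclidean.toMixed K).symm (sg K (t + t2 K) * z), uu K w⟫_ℝ) *
      Real.exp (-(Real.pi *
        ‖(√c * r2 K) • (euclidean.toMixed K).symm (sg K (t + t2 K) * z)‖ ^ 2)) := by
  simp only [inner_left]
  rw [Finset.prod_mul_distrib, Finset.prod_const, _root_.norm_smul, ← en_eq, mul_pow,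
    Real.norm_eq_abs, sq_abs, mul_pow, Real.sq_sqrt hc.le, mul_assoc c, en_shift]
  unfold th PS
  rw [mul_assoc Real.pi c]

open scoped Classical in
theorem th_neg_eq (S : Finset (RP K)) {c : ℝ} (hc : 0 < c) (t : logSpace K) (y : mixedSpace K) :
    th K S c⁻¹ (sg K (-t) * y) = (∏ w ∈ S,
      ⟪(√c * r2 K)⁻¹ • (euclidean.toMixed K).symm (Dt K (t + t2 K) y), uu K w⟫_ℝ) *
      Real.exp (-(Real.pi *
        ‖(√c * r2 K)⁻¹ • (euclidean.toMixed K).symm (Dt K (t + t2 K) y)‖ ^ 2)) := by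
  simp only [inner_right]
  rw [Finset.prod_mul_distrib, Finset.prod_const, _root_.norm_smul, mul_pow,
    Real.norm_eq_abs, sq_abs, mul_inv, mul_pow, mul_assoc ((√c)⁻¹ ^ 2), norm_Dt_shift]
  unfold th PS
  rw [Real.sqrt_inv, inv_pow (√c) 2, Real.sq_sqrt hc.le, mul_assoc Real.pi c⁻¹]

theorem th_smul (S : Finset (RP K)) {c a : ℝ} (hc : 0 < c) (ha : 0 < a) (z : mixedSpace K) :
    th K S c (a • z) = th K S (c * a ^ 2) z := by
  unfold th
  have h1 : PS S (a • z) = a ^ S.card * PS S z := by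
    unfold PS
    rw [← Finset.prod_const, ← Finset.prod_mul_distrib]
    rfl
  have h2 : qf K (a • z) = a ^ 2 * qf K z := by
    unfold qf
    rw [Finset.mul_sum]
    refine Finset.sum_congr rfl fun w _ => ?_
    rw [normAtPlace_smul, abs_of_pos ha]
    ring
  rw [h1, h2, Real.sqrt_mul hc.le, Real.sqrt_sq ha.le, mul_pow]
  ring_nf

/-- Summability of the shifted theta series (with absolute values). -/
theorem th_summable (J : II K) (S : Finset (RP K)) {c : ℝ} (hc : 0 < c) (t : logSpace K)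
    (r : 𝓞 K) : Summable fun x : (J : Ideal (𝓞 K)) =>
      |th K S c (sg K t * mixedEmbedding K ((r + x : 𝓞 K) : K))| := by
  classical
  obtain ⟨e, he⟩ := exists_equiv K J
  rw [← e.summable_iff]
  have hρ0 : 0 < √c * r2 K := mul_pos (Real.sqrt_pos.2 hc) (r2_pos K)
  have h := poly_summable (BB K J (t + t2 K) hρ0.ne') Real.pi_pos
    ((√c * r2 K) • (euclidean.toMixed K).symm (sg K (t + t2 K) * mixedEmbedding K (r : K)))
    S (uu K)
  refine h.congr fun k => ?_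
  have h1 : (∑ i, (k i : ℝ) • BB K J (t + t2 K) hρ0.ne' i) +
      (√c * r2 K) • (euclidean.toMixed K).symm (sg K (t + t2 K) * mixedEmbedding K (r : K)) =
      (√c * r2 K) • (euclidean.toMixed K).symm (sg K (t + t2 K) *
        mixedEmbedding K ((r + (e k : 𝓞 K) : 𝓞 K) : K)) := by
    rw [sum_BB, ← he k, ← smul_add, ← map_add, ← mul_add, me_add,
      add_comm (mixedEmbedding K (r : K))]
  rw [Function.comp_apply, h1, th_eq K S hc, abs_mul, abs_of_pos (Real.exp_pos _)]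

theorem theta_poly {J J' : II K} {n₀ : ℕ} (hn₀ : 0 < n₀)
    (hJ : (J' : Ideal (𝓞 K)) * ((J : Ideal (𝓞 K)) * differentIdeal ℤ (𝓞 K)) =
      Ideal.span {(n₀ : 𝓞 K)}) (S : Finset (RP K)) {c : ℝ} (hc : 0 < c) (t : logSpace K)
    (r : 𝓞 K) :
    ∑' x : (J : Ideal (𝓞 K)), (th K S c (sg K t * mixedEmbedding K ((r + x : 𝓞 K) : K)) : ℂ) =
      ((√c ^ nn K * nm K J * √|(discr K : ℝ)| : ℝ) : ℂ)⁻¹ * (-Complex.I) ^ S.card *
        ∑' z : (J' : Ideal (𝓞 K)), (th K S (1 / (c * (n₀ : ℝ) ^ 2))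
          (sg K (-t) * mixedEmbedding K ((z : 𝓞 K) : K)) : ℂ) *
          Complex.exp (2 * Real.pi * Complex.I *
            ((Algebra.trace ℤ (𝓞 K) (r * z) : ℤ) : ℂ) / (n₀ : ℂ)) := by
  classical
  obtain ⟨e, he⟩ := exists_equiv K J
  obtain ⟨e', he'⟩ := exists_equiv_dual K hn₀ hJ
  have hn₀' : (0:ℝ) < n₀ := by exact_mod_cast hn₀
  have hs : 0 < √c := Real.sqrt_pos.mpr hc
  set ρ : ℝ := √c * r2 K with hρ
  have hρ0 : 0 < ρ := mul_pos hs (r2_pos K)
  set v : euclidean.mixedSpace K :=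
    ρ • (euclidean.toMixed K).symm (sg K (t + t2 K) * mixedEmbedding K (r : K)) with hv
  obtain ⟨B', hB', hBB⟩ := exists_dual_basis K J (t + t2 K) hρ0.ne'
  have hmain := poly_poisson (BB K J (t + t2 K) hρ0.ne') B' hBB S (uu K)
    (fun i _ j _ hij => uu_orth K i j hij) v
  have h1 : ∀ k : ix K J → ℤ, (∑ i, (k i : ℝ) • BB K J (t + t2 K) hρ0.ne' i) + v =
      ρ • (euclidean.toMixed K).symm (sg K (t + t2 K) *
        mixedEmbedding K ((r + (e k : 𝓞 K) : 𝓞 K) : K)) := by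
    intro k
    rw [sum_BB, ← he k, hv, ← smul_add, ← map_add, ← mul_add, me_add,
      add_comm (mixedEmbedding K (r : K))]
  have hsumB' : ∀ l : ix K J → ℤ, ∑ i, (l i : ℝ) • B' i =
      ρ⁻¹ • (euclidean.toMixed K).symm (Dt K (t + t2 K)
        (mixedEmbedding K (∑ i, (l i : ℚ) • bd K J i))) := by
    intro l
    rw [← sum_B']
    exact Finset.sum_congr rfl fun i _ => by rw [hB' i]
  have hη : ∀ l : ix K J → ℤ, mixedEmbedding K (∑ i, (l i : ℚ) • bd K J i) =
      (n₀ : ℝ)⁻¹ • mixedEmbedding K (((e' l : 𝓞 K) : K)) := by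
    intro l
    rw [he' l, map_mul, map_natCast, ← nsmul_eq_mul, ← Nat.cast_smul_eq_nsmul ℝ, smul_smul,
      inv_mul_cancel₀ hn₀'.ne', one_smul]
  have hR : ∀ l : ix K J → ℤ, (∏ w ∈ S, ⟪∑ i, (l i : ℝ) • B' i, uu K w⟫_ℝ) *
      Real.exp (-(Real.pi * ‖∑ i, (l i : ℝ) • B' i‖ ^ 2)) =
      th K S (1 / (c * (n₀ : ℝ) ^ 2)) (sg K (-t) * mixedEmbedding K ((e' l : 𝓞 K) : K)) := by
    intro l
    rw [hsumB', ← th_neg_eq K S hc, hη, mul_smul_comm, th_smul K S (inv_pos.2 hc)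
      (inv_pos.2 hn₀')]
    congr 1
    field_simp
  have hR2 : ∀ l : ix K J → ℤ, ((⟪∑ i, (l i : ℝ) • B' i, v⟫_ℝ : ℝ) : ℂ) =
      ((Algebra.trace ℤ (𝓞 K) (r * (e' l : 𝓞 K)) : ℤ) : ℂ) / (n₀ : ℂ) := by
    intro l
    rw [hsumB', hv, real_inner_smul_left, real_inner_smul_right, inner_Dt]
    have h1 : ((Algebra.trace ℤ (𝓞 K) (r * (e' l : 𝓞 K)) : ℤ) : ℚ) =
        n₀ * Algebra.trace ℚ K ((∑ i, (l i : ℚ) • bd K J i) * (r : K)) := by
      have h0 : ((r * (e' l : 𝓞 K) : 𝓞 K) : K) = (r : K) * ((e' l : 𝓞 K) : K) :=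
        map_mul (algebraMap (𝓞 K) K) r (e' l : 𝓞 K)
      rw [Algebra.coe_trace_int, h0, he' l]
      have h2 : (r : K) * ((n₀ : K) * ∑ i, (l i : ℚ) • bd K J i) =
          (n₀ : ℚ) • ((∑ i, (l i : ℚ) • bd K J i) * (r : K)) := by
        rw [Rat.smul_def]; push_cast; ring
      rw [h2, map_smul, smul_eq_mul]
    have h3 : ((Algebra.trace ℤ (𝓞 K) (r * (e' l : 𝓞 K)) : ℤ) : ℝ) =
        n₀ * ((Algebra.trace ℚ K ((∑ i, (l i : ℚ) • bd K J i) * (r : K)) : ℚ) : ℝ) := by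
      have := congrArg (fun x : ℚ => (x : ℝ)) h1
      push_cast at this
      exact this
    have h4 : ρ⁻¹ * (ρ * ((Algebra.trace ℚ K ((∑ i, (l i : ℚ) • bd K J i) * (r : K)) : ℚ) : ℝ))
        = ((Algebra.trace ℤ (𝓞 K) (r * (e' l : 𝓞 K)) : ℤ) : ℝ) / n₀ := by
      rw [h3]
      field_simp
    rw [h4]
    push_cast
    rfl
  have hV : (volume (ZSpan.fundamentalDomain (BB K J (t + t2 K) hρ0.ne'))).toReal =
      √c ^ nn K * nm K J * √|(discr K : ℝ)| := by
    rw [volume_BB K J (t + t2 K) hρ0, hρ, mul_pow, r2_pow, one_div, inv_pow]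
    field_simp
  rw [← e.tsum_eq, ← e'.tsum_eq, ← hV]
  simp only [h1, hR, hR2] at hmain
  have hL : ∀ k : ix K J → ℤ, (th K S c (sg K t *
      mixedEmbedding K ((r + (e k : 𝓞 K) : 𝓞 K) : K)) : ℂ) =
      ((((∏ w ∈ S, ⟪ρ • (euclidean.toMixed K).symm (sg K (t + t2 K) *
        mixedEmbedding K ((r + (e k : 𝓞 K) : 𝓞 K) : K)), uu K w⟫_ℝ) *
      Real.exp (-(Real.pi * ‖ρ • (euclidean.toMixed K).symm (sg K (t + t2 K) *
        mixedEmbedding K ((r + (e k : 𝓞 K) : 𝓞 K) : K))‖ ^ 2)) : ℝ)) : ℂ) := by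
    intro k
    rw [th_eq K S hc]
  rw [tsum_congr hL, hmain]
  congr 1
  refine tsum_congr fun l => ?_
  congr 2
  rw [mul_div_assoc]

end Pool.HRC
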